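import Pool.Agent.Lib.MP_f05b2f_co.LX.Pick

/-!
The choice of the multiplier in the case `1 ≤ u ≤ p - 1`, `ω ≥ 1`: every product of two constraints
has nonnegative coefficients in suitable variables.
-/

set_option maxRecDepth 100000

namespace DKWF.LX

theorem c1R1one (c B d p r x j u : ℝ) (hc : 0 ≤ c) (hB : 0 ≤ B) (hd : 0 ≤ d)
    (r_ : r = 1+c+d) (x_ : x = 1+c) (j_ : j = 1+c+B) (u_ : u = 1) (p_ : p = u + j) :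
    ∃ ρ : ℝ, 0 ≤ ρ ∧ 0 ≤ ((p+r+3)*((p+r+1)*j)-(r*(p-1))) + (-(p*(r-1))) * ρ ∧
      0 ≤ ((p+r+3)*((p+r+1)*j-(r+1)*x)-2*(r*(p-1))) + ((p+r+3)*(r*(p+r+1-x))-2*(p*(r-1))) * ρ ∧
      0 ≤ ((p+r+3)*(p*x)-(r*(p-1))) + (-((p+r+3)*((p+1)*(p+r+1-x)-(p+r+1)*u)+(p*(r-1)))) * ρ ∧
      0 ≤ (-(r*(p-1))) + ((p+r+3)*((p+r+1)*(r+1-x))-(p*(r-1))) * ρ ∧
      0 ≤ (-((p+r+3)*((r+1)*(x-2))+(r*(p-1)))) + ((p+r+3)*(r*((p+r+1-x)+2))-(p*(r-1))) * ρ := by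
  obtain ⟨ρ, g0, g1, g2, g3, gg⟩ := pick3 (a1 := (p+r+3)*((p+r+1)*j-(r+1)*x)-2*(r*(p-1))) (b1 := (p+r+3)*(r*(p+r+1-x))-2*(p*(r-1))) (a2 := -(r*(p-1))) (b2 := (p+r+3)*((p+r+1)*(r+1-x))-(p*(r-1))) (a3 := -((p+r+3)*((r+1)*(x-2))+(r*(p-1)))) (b3 := (p+r+3)*(r*((p+r+1-x)+2))-(p*(r-1)))
    (by subst p_ r_ x_ j_ u_; ring_nf; positivity)
    (by subst p_ r_ x_ j_ u_; ring_nf; positivity)
    (by subst p_ r_ x_ j_ u_; ring_nf; positivity)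
  exact ⟨ρ, g0,
    gg _ _ (by subst p_ r_ x_ j_ u_; ring_nf; positivity) (by subst p_ r_ x_ j_ u_; ring_nf; positivity) (by subst p_ r_ x_ j_ u_; ring_nf; positivity) (by subst p_ r_ x_ j_ u_; ring_nf; positivity),
    g1,
    gg _ _ (by subst p_ r_ x_ j_ u_; ring_nf; positivity) (by subst p_ r_ x_ j_ u_; ring_nf; positivity) (by subst p_ r_ x_ j_ u_; ring_nf; positivity) (by subst p_ r_ x_ j_ u_; ring_nf; positivity),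
    g2,
    g3⟩

theorem c1R2one (b C d p r x j u : ℝ) (hb : 0 ≤ b) (hC : 0 ≤ C) (hd : 0 ≤ d)
    (r_ : r = 2+b+C+d) (x_ : x = 2+b+C) (j_ : j = 1+b) (u_ : u = 1) (p_ : p = u + j) :
    ∃ ρ : ℝ, 0 ≤ ρ ∧ 0 ≤ ((p+r+3)*((p+r+1)*j)-(r*(p-1))) + (-(p*(r-1))) * ρ ∧
      0 ≤ ((p+r+3)*((p+r+1)*j-(r+1)*x)-2*(r*(p-1))) + ((p+r+3)*(r*(p+r+1-x))-2*(p*(r-1))) * ρ ∧
      0 ≤ ((p+r+3)*(p*x)-(r*(p-1))) + (-((p+r+3)*((p+1)*(p+r+1-x)-(p+r+1)*u)+(p*(r-1)))) * ρ ∧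
      0 ≤ (-(r*(p-1))) + ((p+r+3)*((p+r+1)*(r+1-x))-(p*(r-1))) * ρ ∧
      0 ≤ (-((p+r+3)*((r+1)*(x-2))+(r*(p-1)))) + ((p+r+3)*(r*((p+r+1-x)+2))-(p*(r-1))) * ρ := by
  obtain ⟨ρ, g0, g1, g2, g3, gg⟩ := pick3 (a1 := (p+r+3)*((p+r+1)*j-(r+1)*x)-2*(r*(p-1))) (b1 := (p+r+3)*(r*(p+r+1-x))-2*(p*(r-1))) (a2 := -(r*(p-1))) (b2 := (p+r+3)*((p+r+1)*(r+1-x))-(p*(r-1))) (a3 := -((p+r+3)*((r+1)*(x-2))+(r*(p-1)))) (b3 := (p+r+3)*(r*((p+r+1-x)+2))-(p*(r-1)))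
    (by subst p_ r_ x_ j_ u_; ring_nf; positivity)
    (by subst p_ r_ x_ j_ u_; ring_nf; positivity)
    (by subst p_ r_ x_ j_ u_; ring_nf; positivity)
  exact ⟨ρ, g0,
    gg _ _ (by subst p_ r_ x_ j_ u_; ring_nf; positivity) (by subst p_ r_ x_ j_ u_; ring_nf; positivity) (by subst p_ r_ x_ j_ u_; ring_nf; positivity) (by subst p_ r_ x_ j_ u_; ring_nf; positivity),
    g1,
    gg _ _ (by subst p_ r_ x_ j_ u_; ring_nf; positivity) (by subst p_ r_ x_ j_ u_; ring_nf; positivity) (by subst p_ r_ x_ j_ u_; ring_nf; positivity) (by subst p_ r_ x_ j_ u_; ring_nf; positivity),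
    g2,
    g3⟩

theorem c1R3one (d c B p r x j u : ℝ) (hd : 0 ≤ d) (hc : 0 ≤ c) (hB : 0 ≤ B)
    (r_ : r = 1+d) (x_ : x = 2+d+c) (j_ : j = 2+d+c+B) (u_ : u = 1) (p_ : p = u + j) :
    ∃ ρ : ℝ, 0 ≤ ρ ∧ 0 ≤ ((p+r+3)*((p+r+1)*j)-(r*(p-1))) + (-(p*(r-1))) * ρ ∧
      0 ≤ ((p+r+3)*((p+r+1)*j-(r+1)*x)-2*(r*(p-1))) + ((p+r+3)*(r*(p+r+1-x))-2*(p*(r-1))) * ρ ∧
      0 ≤ ((p+r+3)*(p*x)-(r*(p-1))) + (-((p+r+3)*((p+1)*(p+r+1-x)-(p+r+1)*u)+(p*(r-1)))) * ρ ∧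
      0 ≤ (-(r*(p-1))) + ((p+r+3)*(p+r+1)-(p*(r-1))) * ρ ∧
      0 ≤ (-((p+r+3)*((r+1)*(r-2))+(r*(p-1)))) + ((p+r+3)*(r*(p+3))-(p*(r-1))) * ρ := by
  obtain ⟨ρ, g0, g1, g2, g3, gg⟩ := pick3 (a1 := (p+r+3)*((p+r+1)*j-(r+1)*x)-2*(r*(p-1))) (b1 := (p+r+3)*(r*(p+r+1-x))-2*(p*(r-1))) (a2 := -(r*(p-1))) (b2 := (p+r+3)*(p+r+1)-(p*(r-1))) (a3 := -((p+r+3)*((r+1)*(r-2))+(r*(p-1)))) (b3 := (p+r+3)*(r*(p+3))-(p*(r-1)))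
    (by subst p_ r_ x_ j_ u_; ring_nf; positivity)
    (by subst p_ r_ x_ j_ u_; ring_nf; positivity)
    (by subst p_ r_ x_ j_ u_; ring_nf; positivity)
  exact ⟨ρ, g0,
    gg _ _ (by subst p_ r_ x_ j_ u_; ring_nf; positivity) (by subst p_ r_ x_ j_ u_; ring_nf; positivity) (by subst p_ r_ x_ j_ u_; ring_nf; positivity) (by subst p_ r_ x_ j_ u_; ring_nf; positivity),
    g1,
    gg _ _ (by subst p_ r_ x_ j_ u_; ring_nf; positivity) (by subst p_ r_ x_ j_ u_; ring_nf; positivity) (by subst p_ r_ x_ j_ u_; ring_nf; positivity) (by subst p_ r_ x_ j_ u_; ring_nf; positivity),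
    g2,
    g3⟩

theorem c1R4one (e f c p r x j u : ℝ) (he : 0 ≤ e) (hf : 0 ≤ f) (hc : 0 ≤ c)
    (r_ : r = 1+e+f) (x_ : x = 2+e+f+c) (j_ : j = 1+c+e) (u_ : u = 1) (p_ : p = u + j) :
    ∃ ρ : ℝ, 0 ≤ ρ ∧ 0 ≤ ((p+r+3)*((p+r+1)*j)-(r*(p-1))) + (-(p*(r-1))) * ρ ∧
      0 ≤ ((p+r+3)*((p+r+1)*j-(r+1)*x)-2*(r*(p-1))) + ((p+r+3)*(r*(p+r+1-x))-2*(p*(r-1))) * ρ ∧
      0 ≤ ((p+r+3)*(p*x)-(r*(p-1))) + (-((p+r+3)*((p+1)*(p+r+1-x)-(p+r+1)*u)+(p*(r-1)))) * ρ ∧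
      0 ≤ (-(r*(p-1))) + ((p+r+3)*(p+r+1)-(p*(r-1))) * ρ ∧
      0 ≤ (-((p+r+3)*((r+1)*(r-2))+(r*(p-1)))) + ((p+r+3)*(r*(p+3))-(p*(r-1))) * ρ := by
  obtain ⟨ρ, g0, g1, g2, g3, gg⟩ := pick3 (a1 := (p+r+3)*((p+r+1)*j-(r+1)*x)-2*(r*(p-1))) (b1 := (p+r+3)*(r*(p+r+1-x))-2*(p*(r-1))) (a2 := -(r*(p-1))) (b2 := (p+r+3)*(p+r+1)-(p*(r-1))) (a3 := -((p+r+3)*((r+1)*(r-2))+(r*(p-1)))) (b3 := (p+r+3)*(r*(p+3))-(p*(r-1)))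
    (by subst p_ r_ x_ j_ u_; ring_nf; positivity)
    (by subst p_ r_ x_ j_ u_; ring_nf; positivity)
    (by subst p_ r_ x_ j_ u_; ring_nf; positivity)
  exact ⟨ρ, g0,
    gg _ _ (by subst p_ r_ x_ j_ u_; ring_nf; positivity) (by subst p_ r_ x_ j_ u_; ring_nf; positivity) (by subst p_ r_ x_ j_ u_; ring_nf; positivity) (by subst p_ r_ x_ j_ u_; ring_nf; positivity),
    g1,
    gg _ _ (by subst p_ r_ x_ j_ u_; ring_nf; positivity) (by subst p_ r_ x_ j_ u_; ring_nf; positivity) (by subst p_ r_ x_ j_ u_; ring_nf; positivity) (by subst p_ r_ x_ j_ u_; ring_nf; positivity),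
    g2,
    g3⟩

theorem c1R1low (a c B d p r x j u : ℝ) (ha : 0 ≤ a) (hc : 0 ≤ c) (hB : 0 ≤ B) (hd : 0 ≤ d)
    (r_ : r = 1+c+d) (x_ : x = 1+c) (j_ : j = 1+c+B) (u_ : u = 2+a) (p_ : p = u + j) :
    ∃ ρ : ℝ, 0 ≤ ρ ∧ 0 ≤ ((p+r+3)*((p+r+1)*j)-(r*(p-1))) + (-(p*(r-1))) * ρ ∧
      0 ≤ ((p+r+3)*((p+r+1)*j-(r+1)*x)-2*(r*(p-1))) + ((p+r+3)*(r*(p+r+1-x))-2*(p*(r-1))) * ρ ∧
      0 ≤ ((p+r+3)*(p*x)-(r*(p-1))) + (-((p+r+3)*((p+1)*(p+r+1-x)-(p+r+1)*u)+(p*(r-1)))) * ρ ∧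
      0 ≤ (-(r*(p-1))) + ((p+r+3)*((p+r+1)*(r+1-x))-(p*(r-1))) * ρ ∧
      0 ≤ (-((p+r+3)*((r+1)*(x-2))+(r*(p-1)))) + ((p+r+3)*(r*((p+r+1-x)+2))-(p*(r-1))) * ρ ∧
      0 ≤ ((p+r+3)*(p*((p+r+1)-u+1))-(r*(p-1))) + (-((p+r+3)*((p+1)*(u-1))+(p*(r-1)))) * ρ ∧
      0 ≤ ((p+r+3)*(p*((p+r+1)-u+1)-(r+1)*x)-2*(r*(p-1))) + ((p+r+3)*(r*(p+r+1-x)-(p+1)*(u-1))-2*(p*(r-1))) * ρ := by
  obtain ⟨ρ, g0, g1, g2, g3, gg⟩ := pick3 (a1 := (p+r+3)*((p+r+1)*j-(r+1)*x)-2*(r*(p-1))) (b1 := (p+r+3)*(r*(p+r+1-x))-2*(p*(r-1))) (a2 := -(r*(p-1))) (b2 := (p+r+3)*((p+r+1)*(r+1-x))-(p*(r-1))) (a3 := -((p+r+3)*((r+1)*(x-2))+(r*(p-1)))) (b3 := (p+r+3)*(r*((p+r+1-x)+2))-(p*(r-1)))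
    (by subst p_ r_ x_ j_ u_; ring_nf; positivity)
    (by subst p_ r_ x_ j_ u_; ring_nf; positivity)
    (by subst p_ r_ x_ j_ u_; ring_nf; positivity)
  exact ⟨ρ, g0,
    gg _ _ (by subst p_ r_ x_ j_ u_; ring_nf; positivity) (by subst p_ r_ x_ j_ u_; ring_nf; positivity) (by subst p_ r_ x_ j_ u_; ring_nf; positivity) (by subst p_ r_ x_ j_ u_; ring_nf; positivity),
    g1,
    gg _ _ (by subst p_ r_ x_ j_ u_; ring_nf; positivity) (by subst p_ r_ x_ j_ u_; ring_nf; positivity) (by subst p_ r_ x_ j_ u_; ring_nf; positivity) (by subst p_ r_ x_ j_ u_; ring_nf; positivity),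
    g2,
    g3,
    gg _ _ (by subst p_ r_ x_ j_ u_; ring_nf; positivity) (by subst p_ r_ x_ j_ u_; ring_nf; positivity) (by subst p_ r_ x_ j_ u_; ring_nf; positivity) (by subst p_ r_ x_ j_ u_; ring_nf; positivity),
    gg _ _ (by subst p_ r_ x_ j_ u_; ring_nf; positivity) (by subst p_ r_ x_ j_ u_; ring_nf; positivity) (by subst p_ r_ x_ j_ u_; ring_nf; positivity) (by subst p_ r_ x_ j_ u_; ring_nf; positivity)⟩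

theorem c1R2low (a b C d p r x j u : ℝ) (ha : 0 ≤ a) (hb : 0 ≤ b) (hC : 0 ≤ C) (hd : 0 ≤ d)
    (r_ : r = 2+b+C+d) (x_ : x = 2+b+C) (j_ : j = 1+b) (u_ : u = 2+C+d+a) (p_ : p = u + j) :
    ∃ ρ : ℝ, 0 ≤ ρ ∧ 0 ≤ ((p+r+3)*((p+r+1)*j)-(r*(p-1))) + (-(p*(r-1))) * ρ ∧
      0 ≤ ((p+r+3)*((p+r+1)*j-(r+1)*x)-2*(r*(p-1))) + ((p+r+3)*(r*(p+r+1-x))-2*(p*(r-1))) * ρ ∧
      0 ≤ ((p+r+3)*(p*x)-(r*(p-1))) + (-((p+r+3)*((p+1)*(p+r+1-x)-(p+r+1)*u)+(p*(r-1)))) * ρ ∧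
      0 ≤ (-(r*(p-1))) + ((p+r+3)*((p+r+1)*(r+1-x))-(p*(r-1))) * ρ ∧
      0 ≤ (-((p+r+3)*((r+1)*(x-2))+(r*(p-1)))) + ((p+r+3)*(r*((p+r+1-x)+2))-(p*(r-1))) * ρ ∧
      0 ≤ ((p+r+3)*(p*((p+r+1)-u+1))-(r*(p-1))) + (-((p+r+3)*((p+1)*(u-1))+(p*(r-1)))) * ρ ∧
      0 ≤ ((p+r+3)*(p*((p+r+1)-u+1)-(r+1)*x)-2*(r*(p-1))) + ((p+r+3)*(r*(p+r+1-x)-(p+1)*(u-1))-2*(p*(r-1))) * ρ := by
  obtain ⟨ρ, g0, g1, g2, g3, gg⟩ := pick3 (a1 := (p+r+3)*((p+r+1)*j-(r+1)*x)-2*(r*(p-1))) (b1 := (p+r+3)*(r*(p+r+1-x))-2*(p*(r-1))) (a2 := -(r*(p-1))) (b2 := (p+r+3)*((p+r+1)*(r+1-x))-(p*(r-1))) (a3 := -((p+r+3)*((r+1)*(x-2))+(r*(p-1)))) (b3 := (p+r+3)*(r*((p+r+1-x)+2))-(p*(r-1)))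
    (by subst p_ r_ x_ j_ u_; ring_nf; positivity)
    (by subst p_ r_ x_ j_ u_; ring_nf; positivity)
    (by subst p_ r_ x_ j_ u_; ring_nf; positivity)
  exact ⟨ρ, g0,
    gg _ _ (by subst p_ r_ x_ j_ u_; ring_nf; positivity) (by subst p_ r_ x_ j_ u_; ring_nf; positivity) (by subst p_ r_ x_ j_ u_; ring_nf; positivity) (by subst p_ r_ x_ j_ u_; ring_nf; positivity),
    g1,
    gg _ _ (by subst p_ r_ x_ j_ u_; ring_nf; positivity) (by subst p_ r_ x_ j_ u_; ring_nf; positivity) (by subst p_ r_ x_ j_ u_; ring_nf; positivity) (by subst p_ r_ x_ j_ u_; ring_nf; positivity),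
    g2,
    g3,
    gg _ _ (by subst p_ r_ x_ j_ u_; ring_nf; positivity) (by subst p_ r_ x_ j_ u_; ring_nf; positivity) (by subst p_ r_ x_ j_ u_; ring_nf; positivity) (by subst p_ r_ x_ j_ u_; ring_nf; positivity),
    gg _ _ (by subst p_ r_ x_ j_ u_; ring_nf; positivity) (by subst p_ r_ x_ j_ u_; ring_nf; positivity) (by subst p_ r_ x_ j_ u_; ring_nf; positivity) (by subst p_ r_ x_ j_ u_; ring_nf; positivity)⟩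

theorem c1R3low (a d c B p r x j u : ℝ) (ha : 0 ≤ a) (hd : 0 ≤ d) (hc : 0 ≤ c) (hB : 0 ≤ B)
    (r_ : r = 1+d) (x_ : x = 2+d+c) (j_ : j = 2+d+c+B) (u_ : u = 2+a) (p_ : p = u + j) :
    ∃ ρ : ℝ, 0 ≤ ρ ∧ 0 ≤ ((p+r+3)*((p+r+1)*j)-(r*(p-1))) + (-(p*(r-1))) * ρ ∧
      0 ≤ ((p+r+3)*((p+r+1)*j-(r+1)*x)-2*(r*(p-1))) + ((p+r+3)*(r*(p+r+1-x))-2*(p*(r-1))) * ρ ∧
      0 ≤ ((p+r+3)*(p*x)-(r*(p-1))) + (-((p+r+3)*((p+1)*(p+r+1-x)-(p+r+1)*u)+(p*(r-1)))) * ρ ∧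
      0 ≤ (-(r*(p-1))) + ((p+r+3)*(p+r+1)-(p*(r-1))) * ρ ∧
      0 ≤ (-((p+r+3)*((r+1)*(r-2))+(r*(p-1)))) + ((p+r+3)*(r*(p+3))-(p*(r-1))) * ρ ∧
      0 ≤ ((p+r+3)*(p*((p+r+1)-u+1))-(r*(p-1))) + (-((p+r+3)*((p+1)*(u-1))+(p*(r-1)))) * ρ ∧
      0 ≤ ((p+r+3)*(p*((p+r+1)-u+1)-(r+1)*x)-2*(r*(p-1))) + ((p+r+3)*(r*(p+r+1-x)-(p+1)*(u-1))-2*(p*(r-1))) * ρ := by
  obtain ⟨ρ, g0, g1, g2, g3, gg⟩ := pick3 (a1 := (p+r+3)*((p+r+1)*j-(r+1)*x)-2*(r*(p-1))) (b1 := (p+r+3)*(r*(p+r+1-x))-2*(p*(r-1))) (a2 := -(r*(p-1))) (b2 := (p+r+3)*(p+r+1)-(p*(r-1))) (a3 := -((p+r+3)*((r+1)*(r-2))+(r*(p-1)))) (b3 := (p+r+3)*(r*(p+3))-(p*(r-1)))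
    (by subst p_ r_ x_ j_ u_; ring_nf; positivity)
    (by subst p_ r_ x_ j_ u_; ring_nf; positivity)
    (by subst p_ r_ x_ j_ u_; ring_nf; positivity)
  exact ⟨ρ, g0,
    gg _ _ (by subst p_ r_ x_ j_ u_; ring_nf; positivity) (by subst p_ r_ x_ j_ u_; ring_nf; positivity) (by subst p_ r_ x_ j_ u_; ring_nf; positivity) (by subst p_ r_ x_ j_ u_; ring_nf; positivity),
    g1,
    gg _ _ (by subst p_ r_ x_ j_ u_; ring_nf; positivity) (by subst p_ r_ x_ j_ u_; ring_nf; positivity) (by subst p_ r_ x_ j_ u_; ring_nf; positivity) (by subst p_ r_ x_ j_ u_; ring_nf; positivity),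
    g2,
    g3,
    gg _ _ (by subst p_ r_ x_ j_ u_; ring_nf; positivity) (by subst p_ r_ x_ j_ u_; ring_nf; positivity) (by subst p_ r_ x_ j_ u_; ring_nf; positivity) (by subst p_ r_ x_ j_ u_; ring_nf; positivity),
    gg _ _ (by subst p_ r_ x_ j_ u_; ring_nf; positivity) (by subst p_ r_ x_ j_ u_; ring_nf; positivity) (by subst p_ r_ x_ j_ u_; ring_nf; positivity) (by subst p_ r_ x_ j_ u_; ring_nf; positivity)⟩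

theorem c1R4lowA (a e f c p r x j u : ℝ) (ha : 0 ≤ a) (he : 0 ≤ e) (hf : 0 ≤ f) (hc : 0 ≤ c)
    (r_ : r = 1+e+f) (x_ : x = 2+e+2*f+c) (j_ : j = 1+f+c+e) (u_ : u = 2+a) (p_ : p = u + j) :
    ∃ ρ : ℝ, 0 ≤ ρ ∧ 0 ≤ ((p+r+3)*((p+r+1)*j)-(r*(p-1))) + (-(p*(r-1))) * ρ ∧
      0 ≤ ((p+r+3)*((p+r+1)*j-(r+1)*x)-2*(r*(p-1))) + ((p+r+3)*(r*(p+r+1-x))-2*(p*(r-1))) * ρ ∧
      0 ≤ ((p+r+3)*(p*x)-(r*(p-1))) + (-((p+r+3)*((p+1)*(p+r+1-x)-(p+r+1)*u)+(p*(r-1)))) * ρ ∧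
      0 ≤ (-(r*(p-1))) + ((p+r+3)*(p+r+1)-(p*(r-1))) * ρ ∧
      0 ≤ (-((p+r+3)*((r+1)*(r-2))+(r*(p-1)))) + ((p+r+3)*(r*(p+3))-(p*(r-1))) * ρ ∧
      0 ≤ ((p+r+3)*(p*((p+r+1)-u+1))-(r*(p-1))) + (-((p+r+3)*((p+1)*(u-1))+(p*(r-1)))) * ρ ∧
      0 ≤ ((p+r+3)*(p*((p+r+1)-u+1)-(r+1)*x)-2*(r*(p-1))) + ((p+r+3)*(r*(p+r+1-x)-(p+1)*(u-1))-2*(p*(r-1))) * ρ := by
  obtain ⟨ρ, g0, g1, g2, g3, gg⟩ := pick3 (a1 := (p+r+3)*((p+r+1)*j-(r+1)*x)-2*(r*(p-1))) (b1 := (p+r+3)*(r*(p+r+1-x))-2*(p*(r-1))) (a2 := -(r*(p-1))) (b2 := (p+r+3)*(p+r+1)-(p*(r-1))) (a3 := -((p+r+3)*((r+1)*(r-2))+(r*(p-1)))) (b3 := (p+r+3)*(r*(p+3))-(p*(r-1)))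
    (by subst p_ r_ x_ j_ u_; ring_nf; positivity)
    (by subst p_ r_ x_ j_ u_; ring_nf; positivity)
    (by subst p_ r_ x_ j_ u_; ring_nf; positivity)
  exact ⟨ρ, g0,
    gg _ _ (by subst p_ r_ x_ j_ u_; ring_nf; positivity) (by subst p_ r_ x_ j_ u_; ring_nf; positivity) (by subst p_ r_ x_ j_ u_; ring_nf; positivity) (by subst p_ r_ x_ j_ u_; ring_nf; positivity),
    g1,
    gg _ _ (by subst p_ r_ x_ j_ u_; ring_nf; positivity) (by subst p_ r_ x_ j_ u_; ring_nf; positivity) (by subst p_ r_ x_ j_ u_; ring_nf; positivity) (by subst p_ r_ x_ j_ u_; ring_nf; positivity),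
    g2,
    g3,
    gg _ _ (by subst p_ r_ x_ j_ u_; ring_nf; positivity) (by subst p_ r_ x_ j_ u_; ring_nf; positivity) (by subst p_ r_ x_ j_ u_; ring_nf; positivity) (by subst p_ r_ x_ j_ u_; ring_nf; positivity),
    gg _ _ (by subst p_ r_ x_ j_ u_; ring_nf; positivity) (by subst p_ r_ x_ j_ u_; ring_nf; positivity) (by subst p_ r_ x_ j_ u_; ring_nf; positivity) (by subst p_ r_ x_ j_ u_; ring_nf; positivity)⟩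

theorem c1R4lowB (a e c f p r x j u : ℝ) (ha : 0 ≤ a) (he : 0 ≤ e) (hc : 0 ≤ c) (hf : 0 ≤ f)
    (r_ : r = 2+e+c+f) (x_ : x = 3+e+2*c+f) (j_ : j = 1+c+e) (u_ : u = 2+f+a) (p_ : p = u + j) :
    ∃ ρ : ℝ, 0 ≤ ρ ∧ 0 ≤ ((p+r+3)*((p+r+1)*j)-(r*(p-1))) + (-(p*(r-1))) * ρ ∧
      0 ≤ ((p+r+3)*((p+r+1)*j-(r+1)*x)-2*(r*(p-1))) + ((p+r+3)*(r*(p+r+1-x))-2*(p*(r-1))) * ρ ∧
      0 ≤ ((p+r+3)*(p*x)-(r*(p-1))) + (-((p+r+3)*((p+1)*(p+r+1-x)-(p+r+1)*u)+(p*(r-1)))) * ρ ∧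
      0 ≤ (-(r*(p-1))) + ((p+r+3)*(p+r+1)-(p*(r-1))) * ρ ∧
      0 ≤ (-((p+r+3)*((r+1)*(r-2))+(r*(p-1)))) + ((p+r+3)*(r*(p+3))-(p*(r-1))) * ρ ∧
      0 ≤ ((p+r+3)*(p*((p+r+1)-u+1))-(r*(p-1))) + (-((p+r+3)*((p+1)*(u-1))+(p*(r-1)))) * ρ ∧
      0 ≤ ((p+r+3)*(p*((p+r+1)-u+1)-(r+1)*x)-2*(r*(p-1))) + ((p+r+3)*(r*(p+r+1-x)-(p+1)*(u-1))-2*(p*(r-1))) * ρ := by
  obtain ⟨ρ, g0, g1, g2, g3, gg⟩ := pick3 (a1 := (p+r+3)*((p+r+1)*j-(r+1)*x)-2*(r*(p-1))) (b1 := (p+r+3)*(r*(p+r+1-x))-2*(p*(r-1))) (a2 := -(r*(p-1))) (b2 := (p+r+3)*(p+r+1)-(p*(r-1))) (a3 := -((p+r+3)*((r+1)*(r-2))+(r*(p-1)))) (b3 := (p+r+3)*(r*(p+3))-(p*(r-1)))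
    (by subst p_ r_ x_ j_ u_; ring_nf; positivity)
    (by subst p_ r_ x_ j_ u_; ring_nf; positivity)
    (by subst p_ r_ x_ j_ u_; ring_nf; positivity)
  exact ⟨ρ, g0,
    gg _ _ (by subst p_ r_ x_ j_ u_; ring_nf; positivity) (by subst p_ r_ x_ j_ u_; ring_nf; positivity) (by subst p_ r_ x_ j_ u_; ring_nf; positivity) (by subst p_ r_ x_ j_ u_; ring_nf; positivity),
    g1,
    gg _ _ (by subst p_ r_ x_ j_ u_; ring_nf; positivity) (by subst p_ r_ x_ j_ u_; ring_nf; positivity) (by subst p_ r_ x_ j_ u_; ring_nf; positivity) (by subst p_ r_ x_ j_ u_; ring_nf; positivity),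
    g2,
    g3,
    gg _ _ (by subst p_ r_ x_ j_ u_; ring_nf; positivity) (by subst p_ r_ x_ j_ u_; ring_nf; positivity) (by subst p_ r_ x_ j_ u_; ring_nf; positivity) (by subst p_ r_ x_ j_ u_; ring_nf; positivity),
    gg _ _ (by subst p_ r_ x_ j_ u_; ring_nf; positivity) (by subst p_ r_ x_ j_ u_; ring_nf; positivity) (by subst p_ r_ x_ j_ u_; ring_nf; positivity) (by subst p_ r_ x_ j_ u_; ring_nf; positivity)⟩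

theorem c1R1high (a c B d p r x j u : ℝ) (ha : 0 ≤ a) (hc : 0 ≤ c) (hB : 0 ≤ B) (hd : 0 ≤ d)
    (r_ : r = 3+a+c+B+d) (x_ : x = 1+c) (j_ : j = 1+c+B) (u_ : u = 2+a) (p_ : p = u + j) :
    ∃ ρ : ℝ, 0 ≤ ρ ∧ 0 ≤ ((p+r+3)*((p+r+1)*j)-(r*(p-1))) + (-(p*(r-1))) * ρ ∧
      0 ≤ ((p+r+3)*((p+r+1)*j-(r+1)*x)-2*(r*(p-1))) + ((p+r+3)*(r*(p+r+1-x))-2*(p*(r-1))) * ρ ∧
      0 ≤ ((p+r+3)*(p*x)-(r*(p-1))) + (-((p+r+3)*((p+1)*(p+r+1-x)-(p+r+1)*u)+(p*(r-1)))) * ρ ∧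
      0 ≤ (-(r*(p-1))) + ((p+r+3)*((p+r+1)*(r+1-x))-(p*(r-1))) * ρ ∧
      0 ≤ (-((p+r+3)*((r+1)*(x-2))+(r*(p-1)))) + ((p+r+3)*(r*((p+r+1-x)+2))-(p*(r-1))) * ρ ∧
      0 ≤ ((p+r+3)*(p*((p+r+1)-u+1))-(r*(p-1))) + (-((p+r+3)*((p+1)*(u-1))+(p*(r-1)))) * ρ ∧
      0 ≤ ((p+r+3)*(p*((p+r+1)-u+1)-(r+1)*x)-2*(r*(p-1))) + ((p+r+3)*(r*(p+r+1-x)-(p+1)*(u-1))-2*(p*(r-1))) * ρ := by
  obtain ⟨ρ, g0, g1, g2, g3, g4, gg⟩ := pick4 (a1 := (p+r+3)*((p+r+1)*j-(r+1)*x)-2*(r*(p-1))) (b1 := (p+r+3)*(r*(p+r+1-x))-2*(p*(r-1))) (a2 := -(r*(p-1))) (b2 := (p+r+3)*((p+r+1)*(r+1-x))-(p*(r-1))) (a3 := -((p+r+3)*((r+1)*(x-2))+(r*(p-1)))) (b3 := (p+r+3)*(r*((p+r+1-x)+2))-(p*(r-1))) (a4 := (p+r+3)*(p*((p+r+1)-u+1)-(r+1)*x)-2*(r*(p-1))) (b4 := (p+r+3)*(r*(p+r+1-x)-(p+1)*(u-1))-2*(p*(r-1)))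
    (by subst p_ r_ x_ j_ u_; ring_nf; positivity)
    (by subst p_ r_ x_ j_ u_; ring_nf; positivity)
    (by subst p_ r_ x_ j_ u_; ring_nf; positivity)
    (by subst p_ r_ x_ j_ u_; ring_nf; positivity)
  exact ⟨ρ, g0,
    gg _ _ (by subst p_ r_ x_ j_ u_; ring_nf; positivity) (by subst p_ r_ x_ j_ u_; ring_nf; positivity) (by subst p_ r_ x_ j_ u_; ring_nf; positivity) (by subst p_ r_ x_ j_ u_; ring_nf; positivity) (by subst p_ r_ x_ j_ u_; ring_nf; positivity),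
    g1,
    gg _ _ (by subst p_ r_ x_ j_ u_; ring_nf; positivity) (by subst p_ r_ x_ j_ u_; ring_nf; positivity) (by subst p_ r_ x_ j_ u_; ring_nf; positivity) (by subst p_ r_ x_ j_ u_; ring_nf; positivity) (by subst p_ r_ x_ j_ u_; ring_nf; positivity),
    g2,
    g3,
    gg _ _ (by subst p_ r_ x_ j_ u_; ring_nf; positivity) (by subst p_ r_ x_ j_ u_; ring_nf; positivity) (by subst p_ r_ x_ j_ u_; ring_nf; positivity) (by subst p_ r_ x_ j_ u_; ring_nf; positivity) (by subst p_ r_ x_ j_ u_; ring_nf; positivity),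
    g4⟩

theorem c1R2highA (a b e d p r x j u : ℝ) (ha : 0 ≤ a) (hb : 0 ≤ b) (he : 0 ≤ e) (hd : 0 ≤ d)
    (r_ : r = 3+a+b+e+d) (x_ : x = 3+a+b+e) (j_ : j = 1+b) (u_ : u = 2+a) (p_ : p = u + j) :
    ∃ ρ : ℝ, 0 ≤ ρ ∧ 0 ≤ ((p+r+3)*((p+r+1)*j)-(r*(p-1))) + (-(p*(r-1))) * ρ ∧
      0 ≤ ((p+r+3)*((p+r+1)*j-(r+1)*x)-2*(r*(p-1))) + ((p+r+3)*(r*(p+r+1-x))-2*(p*(r-1))) * ρ ∧
      0 ≤ ((p+r+3)*(p*x)-(r*(p-1))) + (-((p+r+3)*((p+1)*(p+r+1-x)-(p+r+1)*u)+(p*(r-1)))) * ρ ∧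
      0 ≤ (-(r*(p-1))) + ((p+r+3)*((p+r+1)*(r+1-x))-(p*(r-1))) * ρ ∧
      0 ≤ (-((p+r+3)*((r+1)*(x-2))+(r*(p-1)))) + ((p+r+3)*(r*((p+r+1-x)+2))-(p*(r-1))) * ρ ∧
      0 ≤ ((p+r+3)*(p*((p+r+1)-u+1))-(r*(p-1))) + (-((p+r+3)*((p+1)*(u-1))+(p*(r-1)))) * ρ ∧
      0 ≤ ((p+r+3)*(p*((p+r+1)-u+1)-(r+1)*x)-2*(r*(p-1))) + ((p+r+3)*(r*(p+r+1-x)-(p+1)*(u-1))-2*(p*(r-1))) * ρ := by
  obtain ⟨ρ, g0, g1, g2, g3, g4, gg⟩ := pick4 (a1 := (p+r+3)*((p+r+1)*j-(r+1)*x)-2*(r*(p-1))) (b1 := (p+r+3)*(r*(p+r+1-x))-2*(p*(r-1))) (a2 := -(r*(p-1))) (b2 := (p+r+3)*((p+r+1)*(r+1-x))-(p*(r-1))) (a3 := -((p+r+3)*((r+1)*(x-2))+(r*(p-1)))) (b3 := (p+r+3)*(r*((p+r+1-x)+2))-(p*(r-1))) (a4 := (p+r+3)*(p*((p+r+1)-u+1)-(r+1)*x)-2*(r*(p-1))) (b4 := (p+r+3)*(r*(p+r+1-x)-(p+1)*(u-1))-2*(p*(r-1)))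
    (by subst p_ r_ x_ j_ u_; ring_nf; positivity)
    (by subst p_ r_ x_ j_ u_; ring_nf; positivity)
    (by subst p_ r_ x_ j_ u_; ring_nf; positivity)
    (by subst p_ r_ x_ j_ u_; ring_nf; positivity)
  exact ⟨ρ, g0,
    gg _ _ (by subst p_ r_ x_ j_ u_; ring_nf; positivity) (by subst p_ r_ x_ j_ u_; ring_nf; positivity) (by subst p_ r_ x_ j_ u_; ring_nf; positivity) (by subst p_ r_ x_ j_ u_; ring_nf; positivity) (by subst p_ r_ x_ j_ u_; ring_nf; positivity),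
    g1,
    gg _ _ (by subst p_ r_ x_ j_ u_; ring_nf; positivity) (by subst p_ r_ x_ j_ u_; ring_nf; positivity) (by subst p_ r_ x_ j_ u_; ring_nf; positivity) (by subst p_ r_ x_ j_ u_; ring_nf; positivity) (by subst p_ r_ x_ j_ u_; ring_nf; positivity),
    g2,
    g3,
    gg _ _ (by subst p_ r_ x_ j_ u_; ring_nf; positivity) (by subst p_ r_ x_ j_ u_; ring_nf; positivity) (by subst p_ r_ x_ j_ u_; ring_nf; positivity) (by subst p_ r_ x_ j_ u_; ring_nf; positivity) (by subst p_ r_ x_ j_ u_; ring_nf; positivity),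
    g4⟩

theorem c1R2highB (a b C d p r x j u : ℝ) (ha : 0 ≤ a) (hb : 0 ≤ b) (hC : 0 ≤ C) (hd : 0 ≤ d)
    (r_ : r = 3+b+C+a+d) (x_ : x = 2+b+C) (j_ : j = 1+b) (u_ : u = 2+C+a) (p_ : p = u + j) :
    ∃ ρ : ℝ, 0 ≤ ρ ∧ 0 ≤ ((p+r+3)*((p+r+1)*j)-(r*(p-1))) + (-(p*(r-1))) * ρ ∧
      0 ≤ ((p+r+3)*((p+r+1)*j-(r+1)*x)-2*(r*(p-1))) + ((p+r+3)*(r*(p+r+1-x))-2*(p*(r-1))) * ρ ∧
      0 ≤ ((p+r+3)*(p*x)-(r*(p-1))) + (-((p+r+3)*((p+1)*(p+r+1-x)-(p+r+1)*u)+(p*(r-1)))) * ρ ∧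
      0 ≤ (-(r*(p-1))) + ((p+r+3)*((p+r+1)*(r+1-x))-(p*(r-1))) * ρ ∧
      0 ≤ (-((p+r+3)*((r+1)*(x-2))+(r*(p-1)))) + ((p+r+3)*(r*((p+r+1-x)+2))-(p*(r-1))) * ρ ∧
      0 ≤ ((p+r+3)*(p*((p+r+1)-u+1))-(r*(p-1))) + (-((p+r+3)*((p+1)*(u-1))+(p*(r-1)))) * ρ ∧
      0 ≤ ((p+r+3)*(p*((p+r+1)-u+1)-(r+1)*x)-2*(r*(p-1))) + ((p+r+3)*(r*(p+r+1-x)-(p+1)*(u-1))-2*(p*(r-1))) * ρ := by
  obtain ⟨ρ, g0, g1, g2, g3, g4, gg⟩ := pick4 (a1 := (p+r+3)*((p+r+1)*j-(r+1)*x)-2*(r*(p-1))) (b1 := (p+r+3)*(r*(p+r+1-x))-2*(p*(r-1))) (a2 := -(r*(p-1))) (b2 := (p+r+3)*((p+r+1)*(r+1-x))-(p*(r-1))) (a3 := -((p+r+3)*((r+1)*(x-2))+(r*(p-1)))) (b3 := (p+r+3)*(r*((p+r+1-x)+2))-(p*(r-1))) (a4 := (p+r+3)*(p*((p+r+1)-u+1)-(r+1)*x)-2*(r*(p-1))) (b4 := (p+r+3)*(r*(p+r+1-x)-(p+1)*(u-1))-2*(p*(r-1)))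
    (by subst p_ r_ x_ j_ u_; ring_nf; positivity)
    (by subst p_ r_ x_ j_ u_; ring_nf; positivity)
    (by subst p_ r_ x_ j_ u_; ring_nf; positivity)
    (by subst p_ r_ x_ j_ u_; ring_nf; positivity)
  exact ⟨ρ, g0,
    gg _ _ (by subst p_ r_ x_ j_ u_; ring_nf; positivity) (by subst p_ r_ x_ j_ u_; ring_nf; positivity) (by subst p_ r_ x_ j_ u_; ring_nf; positivity) (by subst p_ r_ x_ j_ u_; ring_nf; positivity) (by subst p_ r_ x_ j_ u_; ring_nf; positivity),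
    g1,
    gg _ _ (by subst p_ r_ x_ j_ u_; ring_nf; positivity) (by subst p_ r_ x_ j_ u_; ring_nf; positivity) (by subst p_ r_ x_ j_ u_; ring_nf; positivity) (by subst p_ r_ x_ j_ u_; ring_nf; positivity) (by subst p_ r_ x_ j_ u_; ring_nf; positivity),
    g2,
    g3,
    gg _ _ (by subst p_ r_ x_ j_ u_; ring_nf; positivity) (by subst p_ r_ x_ j_ u_; ring_nf; positivity) (by subst p_ r_ x_ j_ u_; ring_nf; positivity) (by subst p_ r_ x_ j_ u_; ring_nf; positivity) (by subst p_ r_ x_ j_ u_; ring_nf; positivity),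
    g4⟩

theorem c1R4high (a c e d p r x j u : ℝ) (ha : 0 ≤ a) (hc : 0 ≤ c) (he : 0 ≤ e) (hd : 0 ≤ d)
    (r_ : r = 3+a+c+e+d) (x_ : x = 4+a+2*c+e+d) (j_ : j = 1+c+e) (u_ : u = 2+a) (p_ : p = u + j) :
    ∃ ρ : ℝ, 0 ≤ ρ ∧ 0 ≤ ((p+r+3)*((p+r+1)*j)-(r*(p-1))) + (-(p*(r-1))) * ρ ∧
      0 ≤ ((p+r+3)*((p+r+1)*j-(r+1)*x)-2*(r*(p-1))) + ((p+r+3)*(r*(p+r+1-x))-2*(p*(r-1))) * ρ ∧
      0 ≤ ((p+r+3)*(p*x)-(r*(p-1))) + (-((p+r+3)*((p+1)*(p+r+1-x)-(p+r+1)*u)+(p*(r-1)))) * ρ ∧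
      0 ≤ (-(r*(p-1))) + ((p+r+3)*(p+r+1)-(p*(r-1))) * ρ ∧
      0 ≤ (-((p+r+3)*((r+1)*(r-2))+(r*(p-1)))) + ((p+r+3)*(r*(p+3))-(p*(r-1))) * ρ ∧
      0 ≤ ((p+r+3)*(p*((p+r+1)-u+1))-(r*(p-1))) + (-((p+r+3)*((p+1)*(u-1))+(p*(r-1)))) * ρ ∧
      0 ≤ ((p+r+3)*(p*((p+r+1)-u+1)-(r+1)*x)-2*(r*(p-1))) + ((p+r+3)*(r*(p+r+1-x)-(p+1)*(u-1))-2*(p*(r-1))) * ρ := by
  obtain ⟨ρ, g0, g1, g2, g3, g4, gg⟩ := pick4 (a1 := (p+r+3)*((p+r+1)*j-(r+1)*x)-2*(r*(p-1))) (b1 := (p+r+3)*(r*(p+r+1-x))-2*(p*(r-1))) (a2 := -(r*(p-1))) (b2 := (p+r+3)*(p+r+1)-(p*(r-1))) (a3 := -((p+r+3)*((r+1)*(r-2))+(r*(p-1)))) (b3 := (p+r+3)*(r*(p+3))-(p*(r-1))) (a4 := (p+r+3)*(p*((p+r+1)-u+1)-(r+1)*x)-2*(r*(p-1))) (b4 := (p+r+3)*(r*(p+r+1-x)-(p+1)*(u-1))-2*(p*(r-1)))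
    (by subst p_ r_ x_ j_ u_; ring_nf; positivity)
    (by subst p_ r_ x_ j_ u_; ring_nf; positivity)
    (by subst p_ r_ x_ j_ u_; ring_nf; positivity)
    (by subst p_ r_ x_ j_ u_; ring_nf; positivity)
  exact ⟨ρ, g0,
    gg _ _ (by subst p_ r_ x_ j_ u_; ring_nf; positivity) (by subst p_ r_ x_ j_ u_; ring_nf; positivity) (by subst p_ r_ x_ j_ u_; ring_nf; positivity) (by subst p_ r_ x_ j_ u_; ring_nf; positivity) (by subst p_ r_ x_ j_ u_; ring_nf; positivity),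
    g1,
    gg _ _ (by subst p_ r_ x_ j_ u_; ring_nf; positivity) (by subst p_ r_ x_ j_ u_; ring_nf; positivity) (by subst p_ r_ x_ j_ u_; ring_nf; positivity) (by subst p_ r_ x_ j_ u_; ring_nf; positivity) (by subst p_ r_ x_ j_ u_; ring_nf; positivity),
    g2,
    g3,
    gg _ _ (by subst p_ r_ x_ j_ u_; ring_nf; positivity) (by subst p_ r_ x_ j_ u_; ring_nf; positivity) (by subst p_ r_ x_ j_ u_; ring_nf; positivity) (by subst p_ r_ x_ j_ u_; ring_nf; positivity) (by subst p_ r_ x_ j_ u_; ring_nf; positivity),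
    g4⟩

end DKWF.LX
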