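import Pool.Agent.Lib.MP_f05b2f_co.LX.C1a

/-!
The choice of the multiplier in the case `1 ≤ u ≤ p - 1`, `ω ≥ 1`.
-/

namespace DKWF.LX

theorem c1arith (p r x j u : ℝ) (hp : p = u + j) (hj : 1 ≤ j) (hu : 1 ≤ u) (hr : 1 ≤ r)
    (hx : 1 ≤ x) (hxjr : x ≤ j + r) (d1 : x ≤ r ∨ r + 1 ≤ x) (d2 : x ≤ j ∨ j + 1 ≤ x)
    (d3 : u = 1 ∨ 2 ≤ u) (d4 : p ≤ r ∨ r + 1 ≤ p) (d5 : x ≤ p - 1 ∨ p ≤ x)
    (d6 : r ≤ j ∨ j + 1 ≤ r) :
    ∃ ρ : ℝ, 0 ≤ ρ ∧ 0 ≤ ((p+r+3)*((p+r+1)*j)-(r*(p-1))) + (-(p*(r-1))) * ρ ∧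
      0 ≤ ((p+r+3)*((p+r+1)*j-(r+1)*x)-2*(r*(p-1))) + ((p+r+3)*(r*(p+r+1-x))-2*(p*(r-1))) * ρ ∧
      0 ≤ ((p+r+3)*(p*x)-(r*(p-1))) + (-((p+r+3)*((p+1)*(p+r+1-x)-(p+r+1)*u)+(p*(r-1)))) * ρ ∧
      (x ≤ r → 0 ≤ (-(r*(p-1))) + ((p+r+3)*((p+r+1)*(r+1-x))-(p*(r-1))) * ρ ∧
        0 ≤ (-((p+r+3)*((r+1)*(x-2))+(r*(p-1)))) + ((p+r+3)*(r*((p+r+1-x)+2))-(p*(r-1))) * ρ) ∧
      (r + 1 ≤ x → 0 ≤ (-(r*(p-1))) + ((p+r+3)*(p+r+1)-(p*(r-1))) * ρ ∧
        0 ≤ (-((p+r+3)*((r+1)*(r-2))+(r*(p-1)))) + ((p+r+3)*(r*(p+3))-(p*(r-1))) * ρ) ∧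
      (2 ≤ u → 0 ≤ ((p+r+3)*(p*((p+r+1)-u+1))-(r*(p-1))) + (-((p+r+3)*((p+1)*(u-1))+(p*(r-1)))) * ρ ∧
        0 ≤ ((p+r+3)*(p*((p+r+1)-u+1)-(r+1)*x)-2*(r*(p-1))) + ((p+r+3)*(r*(p+r+1-x)-(p+1)*(u-1))-2*(p*(r-1))) * ρ) := by
  rcases d3 with d3 | d3
  · rcases d1 with d1 | d1
    · rcases d2 with d2 | d2
      · obtain ⟨ρ, g0, g1, g2, g3, g4, g5⟩ := c1R1one (x - 1) (j - x) (r - x) p r x j u
          (by linarith) (by linarith) (by linarith) (by ring) (by ring) (by ring) d3 hp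
        exact ⟨ρ, g0, g1, g2, g3, fun _ => ⟨g4, g5⟩, fun h => absurd h (by linarith),
          fun h => absurd h (by linarith)⟩
      · obtain ⟨ρ, g0, g1, g2, g3, g4, g5⟩ := c1R2one (j - 1) (x - 1 - j) (r - x) p r x j u
          (by linarith) (by linarith) (by linarith) (by ring) (by ring) (by ring) d3 hp
        exact ⟨ρ, g0, g1, g2, g3, fun _ => ⟨g4, g5⟩, fun h => absurd h (by linarith),
          fun h => absurd h (by linarith)⟩
    · rcases d2 with d2 | d2
      · obtain ⟨ρ, g0, g1, g2, g3, g4, g5⟩ := c1R3one (r - 1) (x - 1 - r) (j - x) p r x j u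
          (by linarith) (by linarith) (by linarith) (by ring) (by ring) (by ring) d3 hp
        exact ⟨ρ, g0, g1, g2, g3, fun h => absurd h (by linarith), fun _ => ⟨g4, g5⟩,
          fun h => absurd h (by linarith)⟩
      · obtain ⟨ρ, g0, g1, g2, g3, g4, g5⟩ := c1R4one (j + r - x) (x - j - 1) (x - 1 - r) p r x j u
          (by linarith) (by linarith) (by linarith) (by ring) (by ring) (by ring) d3 hp
        exact ⟨ρ, g0, g1, g2, g3, fun h => absurd h (by linarith), fun _ => ⟨g4, g5⟩,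
          fun h => absurd h (by linarith)⟩
  · rcases d4 with d4 | d4
    · rcases d1 with d1 | d1
      · rcases d2 with d2 | d2
        · obtain ⟨ρ, g0, g1, g2, g3, g4, g5, g6, g7⟩ := c1R1high (u - 2) (x - 1) (j - x) (r - p)
            p r x j u (by linarith) (by linarith) (by linarith) (by linarith) (by rw [hp]; ring)
            (by ring) (by ring) (by ring) hp
          exact ⟨ρ, g0, g1, g2, g3, fun _ => ⟨g4, g5⟩, fun h => absurd h (by linarith),
            fun _ => ⟨g6, g7⟩⟩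
        · rcases d5 with d5 | d5
          · obtain ⟨ρ, g0, g1, g2, g3, g4, g5, g6, g7⟩ := c1R2highB (p - 1 - x) (j - 1) (x - 1 - j)
              (r - p) p r x j u (by linarith) (by linarith) (by linarith) (by linarith) (by ring)
              (by ring) (by ring) (by rw [hp]; ring) hp
            exact ⟨ρ, g0, g1, g2, g3, fun _ => ⟨g4, g5⟩, fun h => absurd h (by linarith),
              fun _ => ⟨g6, g7⟩⟩
          · obtain ⟨ρ, g0, g1, g2, g3, g4, g5, g6, g7⟩ := c1R2highA (u - 2) (j - 1) (x - p)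
              (r - x) p r x j u (by linarith) (by linarith) (by linarith) (by linarith)
              (by rw [hp]; ring) (by rw [hp]; ring) (by ring) (by ring) hp
            exact ⟨ρ, g0, g1, g2, g3, fun _ => ⟨g4, g5⟩, fun h => absurd h (by linarith),
              fun _ => ⟨g6, g7⟩⟩
      · rcases d2 with d2 | d2
        · linarith
        · obtain ⟨ρ, g0, g1, g2, g3, g4, g5, g6, g7⟩ := c1R4high (u - 2) (x - r - 1) (j + r - x)
            (r - p) p r x j u (by linarith) (by linarith) (by linarith) (by linarith)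
            (by rw [hp]; ring) (by rw [hp]; ring) (by ring) (by ring) hp
          exact ⟨ρ, g0, g1, g2, g3, fun h => absurd h (by linarith), fun _ => ⟨g4, g5⟩,
            fun _ => ⟨g6, g7⟩⟩
    · rcases d1 with d1 | d1
      · rcases d2 with d2 | d2
        · obtain ⟨ρ, g0, g1, g2, g3, g4, g5, g6, g7⟩ := c1R1low (u - 2) (x - 1) (j - x) (r - x)
            p r x j u (by linarith) (by linarith) (by linarith) (by linarith) (by ring)
            (by ring) (by ring) (by ring) hp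
          exact ⟨ρ, g0, g1, g2, g3, fun _ => ⟨g4, g5⟩, fun h => absurd h (by linarith),
            fun _ => ⟨g6, g7⟩⟩
        · obtain ⟨ρ, g0, g1, g2, g3, g4, g5, g6, g7⟩ := c1R2low (p - 1 - r) (j - 1) (x - 1 - j)
            (r - x) p r x j u (by linarith) (by linarith) (by linarith) (by linarith) (by ring)
            (by ring) (by ring) (by rw [hp]; ring) hp
          exact ⟨ρ, g0, g1, g2, g3, fun _ => ⟨g4, g5⟩, fun h => absurd h (by linarith),
            fun _ => ⟨g6, g7⟩⟩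
      · rcases d2 with d2 | d2
        · obtain ⟨ρ, g0, g1, g2, g3, g4, g5, g6, g7⟩ := c1R3low (u - 2) (r - 1) (x - 1 - r) (j - x)
            p r x j u (by linarith) (by linarith) (by linarith) (by linarith) (by ring)
            (by ring) (by ring) (by ring) hp
          exact ⟨ρ, g0, g1, g2, g3, fun h => absurd h (by linarith), fun _ => ⟨g4, g5⟩,
            fun _ => ⟨g6, g7⟩⟩
        · rcases d6 with d6 | d6
          · obtain ⟨ρ, g0, g1, g2, g3, g4, g5, g6, g7⟩ := c1R4lowA (u - 2) (j + r - x) (x - j - 1)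
              (j - r) p r x j u (by linarith) (by linarith) (by linarith) (by linarith) (by ring)
              (by ring) (by ring) (by ring) hp
            exact ⟨ρ, g0, g1, g2, g3, fun h => absurd h (by linarith), fun _ => ⟨g4, g5⟩,
              fun _ => ⟨g6, g7⟩⟩
          · obtain ⟨ρ, g0, g1, g2, g3, g4, g5, g6, g7⟩ := c1R4lowB (p - 1 - r) (j + r - x)
              (x - 1 - r) (r - j - 1) p r x j u (by linarith) (by linarith) (by linarith)
              (by linarith) (by ring) (by ring) (by ring) (by rw [hp]; ring) hp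
            exact ⟨ρ, g0, g1, g2, g3, fun h => absurd h (by linarith), fun _ => ⟨g4, g5⟩,
              fun _ => ⟨g6, g7⟩⟩

end DKWF.LX
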