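import Mathlib

/-!
The choice of the multiplier in the case `u = 0`, `ω ≥ 1`.
-/

set_option maxRecDepth 100000

namespace DKWF.LX

/-- either `b₁ ≤ a₁` and `b₂ ≤ a₂`, or one of the two quotients is larger than `1` and the larger -/
theorem pick1 {a b c d : ℝ} (hb : 0 < b) (hd : 0 < d) :
    (a ≤ b ∧ c ≤ d) ∨ (b < a ∧ c * b ≤ d * a) ∨ (d < c ∧ a * d ≤ b * c) := by
  by_cases h1 : a ≤ b
  · by_cases h2 : c ≤ d
    · exact Or.inl ⟨h1, h2⟩
    · push Not at h2
      right; right
      refine ⟨h2, ?_⟩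
      nlinarith
  · push Not at h1
    rcases le_total (c * b) (d * a) with h | h
    · exact Or.inr (Or.inl ⟨h1, h⟩)
    · right; right
      refine ⟨?_, by linarith⟩
      by_contra h2
      push Not at h2
      nlinarith

/-- `u = 0`, `ω ≥ 1`: the multiplier; `w = ω`, `n = q - y₁` -/
theorem c2arith (p r Y w n : ℝ) (hp : 1 ≤ p) (hY : 1 ≤ Y) (hYq : Y ≤ p + r) (hw : 1 ≤ w)
    (hwr : w ≤ r) (hYw : Y ≤ p + w) (hYp : Y ≤ p ∨ p + 1 ≤ Y)
    (hn : n = 0 ∨ (1 ≤ n ∧ n ≤ r - 1 - w))
    (hi1 : p ≤ r + 1 + 2 * (p - Y) ∨ r + 2 + 2 * (p - Y) ≤ p)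
    (hi2 : r - p ≤ 2 * (r - 1 - n) ∨ 2 * (r - 1 - n) ≤ r - 1 - p) :
    ∃ ρ : ℝ, 0 ≤ ρ ∧
      (p + r + 1) * (1 + w - p) - (r + 1) * Y ≤ r * Y * ρ ∧
      ((p + 1) * Y - (p + r + 1)) * ρ ≤ p * (p + r + 1 - Y) ∧
      (r + 1) * n ≤ (r * (p + r + 1 - n) - (p + r + 1)) * ρ ∧
      0 < ((p + r + 1) * (p - 1 - w) + (r + 1) * Y + p * (p + r + 1 - Y) - (r * (p - 1) - 1) +
          p * n) +
        (r * Y + (p + r + 1) * w - (p + 1) * Y - (p * (r - 1) - 1) + (p + 1) * n) * ρ := by
  have hr : 1 ≤ r := by linarith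
  have hn0 : 0 ≤ n := by rcases hn with h | h <;> linarith
  -- L1 against U1
  have hLU : 0 ≤ (p + 1) * Y - (p + r + 1) →
      ((p + r + 1) * (1 + w - p) - (r + 1) * Y) * ((p + 1) * Y - (p + r + 1)) ≤
        p * (p + r + 1 - Y) * (r * Y) := by
    intro hub
    have h1 : ((p + r + 1) * (1 + w - p) - (r + 1) * Y) ≤
        ((p + r + 1) * (1 + r - p) - (r + 1) * Y) := by
      have : (p + r + 1) * (1 + w - p) ≤ (p + r + 1) * (1 + r - p) :=
        mul_le_mul_of_nonneg_left (by linarith) (by linarith)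
      linarith
    have h2 := mul_le_mul_of_nonneg_right h1 hub
    have h3 : p * (p + r + 1 - Y) * (r * Y) -
        ((p + r + 1) * (1 + r - p) - (r + 1) * Y) * ((p + 1) * Y - (p + r + 1)) =
        (p + r + 1) * ((p + r + 1 - Y - p) ^ 2 + p ^ 2 * (Y - 1)) := by ring
    have h4 : 0 ≤ (p + r + 1) * ((p + r + 1 - Y - p) ^ 2 + p ^ 2 * (Y - 1)) := by
      have : 0 ≤ Y - 1 := by linarith
      positivity
    linarith
  -- L3 against U1
  have hL3U : (r + 1) * n * ((p + 1) * Y - (p + r + 1)) ≤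
      p * (p + r + 1 - Y) * (r * (p + r + 1 - n) - (p + r + 1)) := by
    rcases hn with rfl | ⟨h1, h2⟩
    · have h3 : 0 ≤ r * (p + r + 1 - 0) - (p + r + 1) := by nlinarith
      have h4 : 0 ≤ p + r + 1 - Y := by linarith
      have : 0 ≤ p * (p + r + 1 - Y) * (r * (p + r + 1 - 0) - (p + r + 1)) := by positivity
      linarith
    · rcases hYp with h3 | h3
      · obtain ⟨a, rfl⟩ : ∃ a, Y = 1 + a := ⟨Y - 1, by ring⟩
        obtain ⟨b, rfl⟩ : ∃ b, p = 1 + a + b := ⟨p - 1 - a, by ring⟩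
        obtain ⟨k, rfl⟩ : ∃ k, w = 1 + k := ⟨w - 1, by ring⟩
        obtain ⟨d, rfl⟩ : ∃ d, n = 1 + d := ⟨n - 1, by ring⟩
        obtain ⟨m, rfl⟩ : ∃ m, r = 3 + k + d + m := ⟨r - 3 - k - d, by ring⟩
        have ha : 0 ≤ a := by linarith
        have hb : 0 ≤ b := by linarith
        have hk : 0 ≤ k := by linarith
        have hd : 0 ≤ d := by linarith
        have hm : 0 ≤ m := by linarith
        rw [← sub_nonneg]
        ring_nf
        positivity
      · obtain ⟨a, rfl⟩ : ∃ a, p = 1 + a := ⟨p - 1, by ring⟩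
        obtain ⟨b, rfl⟩ : ∃ b, Y = 2 + a + b := ⟨Y - 2 - a, by ring⟩
        obtain ⟨k, rfl⟩ : ∃ k, w = 1 + b + k := ⟨w - 1 - b, by ring⟩
        obtain ⟨d, rfl⟩ : ∃ d, n = 1 + d := ⟨n - 1, by ring⟩
        obtain ⟨m, rfl⟩ : ∃ m, r = 3 + b + k + d + m := ⟨r - 3 - b - k - d, by ring⟩
        have ha : 0 ≤ a := by linarith
        have hb : 0 ≤ b := by linarith
        have hk : 0 ≤ k := by linarith
        have hd : 0 ≤ d := by linarith
        have hm : 0 ≤ m := by linarith
        rw [← sub_nonneg]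
        ring_nf
        positivity
  -- the value at `1`
  have hC : 0 < ((p + r + 1) * (p - 1 - w) + (r + 1) * Y + p * (p + r + 1 - Y) -
      (r * (p - 1) - 1) + p * n) +
      (r * Y + (p + r + 1) * w - (p + 1) * Y - (p * (r - 1) - 1) + (p + 1) * n) := by
    have h1 : ((p + r + 1) * (p - 1 - w) + (r + 1) * Y + p * (p + r + 1 - Y) -
      (r * (p - 1) - 1) + p * n) +
      (r * Y + (p + r + 1) * w - (p + 1) * Y - (p * (r - 1) - 1) + (p + 1) * n) =
      2 * p * (p + 1) + 2 * (r - p) * Y + 1 + (2 * p + 1) * n := by ring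
    rw [h1]
    have h2 : 0 ≤ (2 * p + 1) * n := by positivity
    rcases le_total p r with h3 | h3
    · have : 0 ≤ (r - p) * Y := mul_nonneg (by linarith) (by linarith)
      nlinarith
    · nlinarith [mul_nonneg (sub_nonneg.2 h3) (sub_nonneg.2 hYq)]
  have hrY : 0 < r * Y := by positivity
  have hP1 : 0 ≤ p * (p + r + 1 - Y) := by
    have : 0 ≤ p + r + 1 - Y := by linarith
    positivity
  by_cases hU : (p + 1) * Y - (p + r + 1) ≤ p * (p + r + 1 - Y)
  · -- `1` satisfies the upper bound; the point `L1`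
    have hL1 : r * Y < (p + r + 1) * (1 + w - p) - (r + 1) * Y →
        (r + 1) * n * (r * Y) ≤ (r * (p + r + 1 - n) - (p + r + 1)) *
          ((p + r + 1) * (1 + w - p) - (r + 1) * Y) → ∃ ρ : ℝ, 0 ≤ ρ ∧
      (p + r + 1) * (1 + w - p) - (r + 1) * Y ≤ r * Y * ρ ∧
      ((p + 1) * Y - (p + r + 1)) * ρ ≤ p * (p + r + 1 - Y) ∧
      (r + 1) * n ≤ (r * (p + r + 1 - n) - (p + r + 1)) * ρ ∧
      0 < ((p + r + 1) * (p - 1 - w) + (r + 1) * Y + p * (p + r + 1 - Y) - (r * (p - 1) - 1) +
          p * n) +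
        (r * Y + (p + r + 1) * w - (p + 1) * Y - (p * (r - 1) - 1) + (p + 1) * n) * ρ := by
      intro h1 h2
      have hρ : 1 ≤ ((p + r + 1) * (1 + w - p) - (r + 1) * Y) / (r * Y) := by
        rw [le_div_iff₀ hrY]
        linarith
      refine ⟨((p + r + 1) * (1 + w - p) - (r + 1) * Y) / (r * Y), by linarith, ?_, ?_, ?_, ?_⟩
      · rw [mul_div_cancel₀ _ hrY.ne']
      · rw [← mul_div_assoc, div_le_iff₀ hrY]
        rcases le_total 0 ((p + 1) * Y - (p + r + 1)) with h3 | h3
        · linarith [hLU h3]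
        · have h4 : ((p + 1) * Y - (p + r + 1)) * ((p + r + 1) * (1 + w - p) - (r + 1) * Y) ≤ 0 :=
            mul_nonpos_of_nonpos_of_nonneg h3 (by linarith)
          have h5 := mul_nonneg hP1 hrY.le
          linarith
      · rw [← mul_div_assoc, le_div_iff₀ hrY]
        exact h2
      · have hwp : p < w + 1 := by
          by_contra h3
          push Not at h3
          have h4 : (p + r + 1) * (1 + w - p) ≤ 0 :=
            mul_nonpos_of_nonneg_of_nonpos (by linarith) (by linarith)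
          have h5 : 0 ≤ (r + 1) * Y := by positivity
          linarith
        have h3 : 0 ≤ r * Y + (p + r + 1) * w - (p + 1) * Y - (p * (r - 1) - 1) + (p + 1) * n := by
          have h4 : r * Y + (p + r + 1) * w - (p + 1) * Y - (p * (r - 1) - 1) + (p + 1) * n =
            (p ^ 2 + p - r + (3 * r - p) * Y + (p + 1) * n) +
              ((p + r + 1) * (1 + w - p) - (r + 1) * Y - r * Y) := by ring
          have h5 : 0 ≤ (3 * r - p) * (Y - 1) := mul_nonneg (by linarith) (by linarith)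
          have h6 : 0 ≤ (p + 1) * n := by positivity
          nlinarith
        have h4 := mul_le_mul_of_nonneg_left hρ h3
        linarith
    rcases hn with rfl | ⟨hn1, hn2⟩
    · by_cases h1 : (p + r + 1) * (1 + w - p) - (r + 1) * Y ≤ r * Y
      · refine ⟨1, zero_le_one, by linarith, by linarith, ?_, by linarith⟩
        have h3 : 0 ≤ r * (p + r + 1 - 0) - (p + r + 1) := by nlinarith
        linarith
      · push Not at h1
        apply hL1 h1
        have h3 : 0 ≤ r * (p + r + 1 - 0) - (p + r + 1) := by nlinarith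
        have h4 : 0 ≤ (r * (p + r + 1 - 0) - (p + r + 1)) *
          ((p + r + 1) * (1 + w - p) - (r + 1) * Y) := mul_nonneg h3 (by linarith)
        linarith
    · have hD : 0 < r * (p + r + 1 - n) - (p + r + 1) := by nlinarith
      rcases pick1 (a := (p + r + 1) * (1 + w - p) - (r + 1) * Y) (b := r * Y) (c := (r + 1) * n)
        (d := r * (p + r + 1 - n) - (p + r + 1)) hrY hD with h | h | h
      · exact ⟨1, zero_le_one, by linarith, by linarith, by linarith, by linarith⟩
      · exact hL1 h.1 h.2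
      · -- the point `L3`
        have hρ : 1 ≤ (r + 1) * n / (r * (p + r + 1 - n) - (p + r + 1)) := by
          rw [le_div_iff₀ hD]
          linarith [h.1]
        refine ⟨(r + 1) * n / (r * (p + r + 1 - n) - (p + r + 1)), by linarith, ?_, ?_, ?_, ?_⟩
        · rw [← mul_div_assoc, le_div_iff₀ hD]
          linarith [h.2]
        · rw [← mul_div_assoc, div_le_iff₀ hD]
          linarith [hL3U]
        · rw [mul_div_cancel₀ _ hD.ne']
        · have hcond : 2 * (r - 1 - n) ≤ r - 1 - p := by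
            rcases hi2 with h3 | h3
            · exfalso
              have h4 : (r + 1) * n - (r * (p + r + 1 - n) - (p + r + 1)) =
                r * (r - 1 - p) + p - (2 * r + 1) * (r - 1 - n) := by ring
              have hN : 1 ≤ r - 1 - n := by linarith
              rcases le_total (p - r) (r - 1 - n) with h5 | h5
              · nlinarith [h.1]
              · have h6 : r * (r - 1 - p) + p = (r - 1) * (r - p) := by ring
                have h7 : (r - 1) * (r - p) ≤ 0 :=
                  mul_nonpos_of_nonneg_of_nonpos (by linarith) (by linarith)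
                have h8 : 0 ≤ (2 * r + 1) * (r - 1 - n) := mul_nonneg (by linarith) (by linarith)
                linarith [h.1]
            · exact h3
          rw [← mul_div_assoc, ← sub_lt_iff_lt_add', zero_sub, lt_div_iff₀ hD]
          rw [← sub_pos]
          rcases hYp with h3 | h3
          · obtain ⟨a, rfl⟩ : ∃ a, Y = 1 + a := ⟨Y - 1, by ring⟩
            obtain ⟨b, rfl⟩ : ∃ b, p = 1 + a + b := ⟨p - 1 - a, by ring⟩
            obtain ⟨k, rfl⟩ : ∃ k, w = 1 + k := ⟨w - 1, by ring⟩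
            obtain ⟨m, rfl⟩ : ∃ m, n = r - 1 - (1 + k) - m := ⟨r - 1 - (1 + k) - n, by ring⟩
            obtain ⟨s, rfl⟩ : ∃ s, r = 1 + (1 + a + b) + 2 * (1 + k + m) + s :=
              ⟨r - (1 + (1 + a + b) + 2 * (1 + k + m)), by ring⟩
            have ha : 0 ≤ a := by linarith
            have hb : 0 ≤ b := by linarith
            have hk : 0 ≤ k := by linarith
            have hm : 0 ≤ m := by linarith
            have hs : 0 ≤ s := by linarith
            ring_nf
            positivity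
          · obtain ⟨a, rfl⟩ : ∃ a, p = 1 + a := ⟨p - 1, by ring⟩
            obtain ⟨b, rfl⟩ : ∃ b, Y = 2 + a + b := ⟨Y - 2 - a, by ring⟩
            obtain ⟨k, rfl⟩ : ∃ k, w = 1 + b + k := ⟨w - 1 - b, by ring⟩
            obtain ⟨m, rfl⟩ : ∃ m, n = r - 1 - (1 + b + k) - m := ⟨r - 1 - (1 + b + k) - n, by ring⟩
            obtain ⟨s, rfl⟩ : ∃ s, r = 1 + (1 + a) + 2 * (1 + b + k + m) + s :=
              ⟨r - (1 + (1 + a) + 2 * (1 + b + k + m)), by ring⟩
            have ha : 0 ≤ a := by linarith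
            have hb : 0 ≤ b := by linarith
            have hk : 0 ≤ k := by linarith
            have hm : 0 ≤ m := by linarith
            have hs : 0 ≤ s := by linarith
            ring_nf
            positivity
  · -- the point `U1`
    push Not at hU
    have hub : 0 < (p + 1) * Y - (p + r + 1) := by linarith
    refine ⟨p * (p + r + 1 - Y) / ((p + 1) * Y - (p + r + 1)), by positivity, ?_, ?_, ?_, ?_⟩
    · rw [← mul_div_assoc, le_div_iff₀ hub]
      linarith [hLU hub.le]
    · rw [mul_div_cancel₀ _ hub.ne']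
    · rw [← mul_div_assoc, le_div_iff₀ hub]
      linarith [hL3U]
    · rw [← mul_div_assoc, ← sub_lt_iff_lt_add', zero_sub, lt_div_iff₀ hub]
      rw [← sub_pos]
      rcases hYp with h3 | h3
      · have hcond : r + 2 + 2 * (p - Y) ≤ p := by
          rcases hi1 with h4 | h4
          · exfalso
            nlinarith
          · exact h4
        obtain ⟨b, rfl⟩ : ∃ b, Y = p - b := ⟨p - Y, by ring⟩
        obtain ⟨s, rfl⟩ : ∃ s, p = r + 2 + 2 * b + s := ⟨p - (r + 2 + 2 * b), by ring⟩
        have hb : 0 ≤ b := by linarith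
        have hs : 0 ≤ s := by linarith
        rcases hn with rfl | ⟨hn1, hn2⟩
        · obtain ⟨k, rfl⟩ : ∃ k, w = 1 + k := ⟨w - 1, by ring⟩
          obtain ⟨m, rfl⟩ : ∃ m, r = 1 + k + m := ⟨r - 1 - k, by ring⟩
          have hk : 0 ≤ k := by linarith
          have hm : 0 ≤ m := by linarith
          ring_nf
          positivity
        · obtain ⟨k, rfl⟩ : ∃ k, w = 1 + k := ⟨w - 1, by ring⟩
          obtain ⟨d, rfl⟩ : ∃ d, n = 1 + d := ⟨n - 1, by ring⟩
          obtain ⟨m, rfl⟩ : ∃ m, r = 3 + k + d + m := ⟨r - 3 - k - d, by ring⟩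
          have hk : 0 ≤ k := by linarith
          have hd : 0 ≤ d := by linarith
          have hm : 0 ≤ m := by linarith
          ring_nf
          positivity
      · obtain ⟨a, rfl⟩ : ∃ a, p = 1 + a := ⟨p - 1, by ring⟩
        obtain ⟨b, rfl⟩ : ∃ b, Y = 2 + a + b := ⟨Y - 2 - a, by ring⟩
        obtain ⟨k, rfl⟩ : ∃ k, w = 1 + b + k := ⟨w - 1 - b, by ring⟩
        have ha : 0 ≤ a := by linarith
        have hb : 0 ≤ b := by linarith
        have hk : 0 ≤ k := by linarith
        rcases hn with rfl | ⟨hn1, hn2⟩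
        · obtain ⟨m, rfl⟩ : ∃ m, r = 1 + b + k + m := ⟨r - 1 - b - k, by ring⟩
          have hm : 0 ≤ m := by linarith
          have h9 : 0 ≤ a * (6 * a ^ 2 - a * k + 3 * k ^ 2) := by
            apply mul_nonneg ha
            nlinarith [sq_nonneg (a - k), sq_nonneg a, sq_nonneg k]
          have h10 : 0 < 4*a*b*k*m + 2*a*b*k^2 + 2*a*b*m^2 + a*b^2*k + 2*a*b^2*m + a*k*m^2 +
              2*a*k^2*m + a*k^3 + 2*a^2*b*m + a^3*b + a^3*m + a^4 + 4*a*b*k + 10*a*b*m + 2*a*b^2 +
              3*a*k*m + 5*a^2*b + 4*a^2*m + 5*b*k*m + 3*b*k^2 + 2*b*m^2 + b^2*k + 2*b^2*m +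
              2*k*m^2 + 4*k^2*m + 2*k^3 + 11*a*b + 6*a*m + 13*a^2 + 5*b*k + 8*b*m + 2*b^2 +
              6*k*m + 6*k^2 + 13*a + 7*b + 3*k + 3*m + 5 := by positivity
          have h11 := add_pos_of_pos_of_nonneg h10 h9
          refine lt_of_lt_of_eq h11 ?_
          ring
        · obtain ⟨d, rfl⟩ : ∃ d, n = 1 + d := ⟨n - 1, by ring⟩
          obtain ⟨m, rfl⟩ : ∃ m, r = 3 + b + k + d + m := ⟨r - 3 - b - k - d, by ring⟩
          have hd : 0 ≤ d := by linarith
          have hm : 0 ≤ m := by linarith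
          ring_nf
          positivity

end DKWF.LX
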