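import Mathlib

/-!
The choice of the two multipliers in the case `u = p`.
-/

set_option maxRecDepth 100000

namespace DKWF.LX

/-- `u = p`: the multipliers -/
theorem c3arith (p r x m : ℝ) (hp : 1 ≤ p) (hx : 1 ≤ x) (hxr : x ≤ r)
    (hm : m = 0 ∨ (1 ≤ m ∧ m ≤ p - 1)) :
    ∃ A B : ℝ, 0 ≤ A ∧ 0 ≤ B ∧
      (r + 1) * x * A ≤ r * (p + r + 1 - x) * B ∧
      (p + r + 1 - (p + 1) * x) * B ≤ p * x * A ∧
      (p + 1) * m * B ≤ p * (p + r + 1 - m) * A ∧
      0 < (p * x - (r + 1) * x + (r + 1) * m - (r * (p - 1) - 1)) * A +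
        (r * (p + r + 1 - x) - (p + r + 1 - (p + 1) * x) + r * m - (p * (r - 1) - 1)) * B := by
  obtain ⟨c, rfl⟩ : ∃ c, x = 1 + c := ⟨x - 1, by ring⟩
  obtain ⟨d, rfl⟩ : ∃ d, r = 1 + c + d := ⟨r - 1 - c, by ring⟩
  have hc : 0 ≤ c := by linarith
  have hd : 0 ≤ d := by linarith
  by_cases hcase : p * (1 + c) * ((p + 1) * m) ≤
      (p + (1 + c + d) + 1 - (p + 1) * (1 + c)) * (p * (p + (1 + c + d) + 1 - m))
  · refine ⟨p + (1 + c + d) + 1 - (p + 1) * (1 + c), p * (1 + c), ?_, by positivity, ?_, ?_, ?_, ?_⟩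
    · -- h ≥ 0
      have hq : 0 < p * (p + (1 + c + d) + 1 - m) := by
        have : m ≤ p := by rcases hm with h | h <;> linarith
        have : 0 < p + (1 + c + d) + 1 - m := by linarith
        positivity
      have hm0 : 0 ≤ m := by rcases hm with h | h <;> linarith
      have : 0 ≤ p * (1 + c) * ((p + 1) * m) := by positivity
      by_contra hneg
      push Not at hneg
      nlinarith [mul_neg_of_neg_of_pos hneg hq]
    · obtain ⟨a, rfl⟩ : ∃ a, p = 1 + a := ⟨p - 1, by ring⟩
      have ha : 0 ≤ a := by linarith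
      rw [← sub_nonneg]
      ring_nf
      positivity
    · linarith
    · linarith
    · rcases hm with rfl | ⟨h1, h2⟩
      · obtain ⟨a, rfl⟩ : ∃ a, p = 1 + a := ⟨p - 1, by ring⟩
        have ha : 0 ≤ a := by linarith
        ring_nf
        positivity
      · obtain ⟨b, rfl⟩ : ∃ b, m = 1 + b := ⟨m - 1, by ring⟩
        obtain ⟨a, rfl⟩ : ∃ a, p = 2 + b + a := ⟨p - 2 - b, by ring⟩
        have ha : 0 ≤ a := by linarith
        have hb : 0 ≤ b := by linarith
        ring_nf
        positivity
  · push Not at hcase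
    have hm0 : 0 ≤ m := by rcases hm with h | h <;> linarith
    have hmp : m ≤ p := by rcases hm with h | h <;> linarith
    have hq : 0 < p + (1 + c + d) + 1 - m := by linarith
    refine ⟨(p + 1) * m, p * (p + (1 + c + d) + 1 - m), by positivity, by positivity, ?_, ?_,
      le_of_eq (by ring), ?_⟩
    · rcases hm with rfl | ⟨h1, h2⟩
      · have : 0 ≤ p + (1 + c + d) + 1 - (1 + c) := by linarith
        have h3 : 0 ≤ (1 + c + d) * (p + (1 + c + d) + 1 - (1 + c)) *
          (p * (p + (1 + c + d) + 1 - 0)) := by positivity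
        linarith
      · obtain ⟨b, rfl⟩ : ∃ b, m = 1 + b := ⟨m - 1, by ring⟩
        obtain ⟨a, rfl⟩ : ∃ a, p = 2 + b + a := ⟨p - 2 - b, by ring⟩
        have ha : 0 ≤ a := by linarith
        have hb : 0 ≤ b := by linarith
        rw [← sub_nonneg]
        ring_nf
        positivity
    · linarith
    · rcases hm with rfl | ⟨h1, h2⟩
      · have h3 : p + (1 + c + d) + 1 - (p + 1) * (1 + c) < 0 := by
          have h4 : (p + (1 + c + d) + 1 - (p + 1) * (1 + c)) * (p * (p + (1 + c + d) + 1 - 0)) < 0 := by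
            linarith
          by_contra h5
          push Not at h5
          have : 0 ≤ (p + (1 + c + d) + 1 - (p + 1) * (1 + c)) *
            (p * (p + (1 + c + d) + 1 - 0)) := by positivity
          linarith
        have h6 : 0 < (1 + c + d) * (p + (1 + c + d) + 1 - (1 + c)) -
            (p + (1 + c + d) + 1 - (p + 1) * (1 + c)) + (1 + c + d) * 0 -
            (p * (1 + c + d - 1) - 1) := by
          have : (1 + c + d) * (p + (1 + c + d) + 1 - (1 + c)) - (p * (1 + c + d - 1) - 1) =
            p + (1 + c + d) * (d + 1) + (1 + c + d) + 1 - (1 + c + d) + 0 := by ring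
          have h7 : 0 < (1 + c + d) * (d + 1) := by positivity
          linarith
        have h8 : 0 < p * (p + (1 + c + d) + 1 - 0) := by positivity
        have := mul_pos h6 h8
        linarith
      · obtain ⟨b, rfl⟩ : ∃ b, m = 1 + b := ⟨m - 1, by ring⟩
        obtain ⟨a, rfl⟩ : ∃ a, p = 2 + b + a := ⟨p - 2 - b, by ring⟩
        have ha : 0 ≤ a := by linarith
        have hb : 0 ≤ b := by linarith
        ring_nf
        positivity

end DKWF.LX
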