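import Mathlib

/-!
The choice of the two multipliers in the case `ω = 0`.
-/

set_option maxRecDepth 100000

namespace DKWF.LX

/-- `ω = 0`: the multipliers; `n = q - y₁` is `0` or positive -/
theorem c4arith (p r Y u n : ℝ) (hr : 1 ≤ r) (hu : u = 0 ∨ 1 ≤ u) (huY : u + 1 ≤ Y)
    (hYp : Y ≤ p) (hn : n = 0 ∨ (1 ≤ n ∧ n ≤ r - 1)) :
    ∃ A B : ℝ, 0 ≤ A ∧ 0 ≤ B ∧
      (r + 1) * n * A ≤ r * (p + r + 1 - n) * B ∧
      ((p + 1) * Y - (p + r + 1) * u) * B ≤ p * (p + r + 1 - Y) * A ∧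
      (p + r + 1 - (r + 1) * Y) * A ≤ (p + r + 1) * (p - u) * A + r * Y * B ∧
      (∀ y, 1 ≤ y → y ≤ u - 1 → (p + 1) * y * B ≤ p * (p + r + 1 - y) * A ∧
        (p + r + 1 - (r + 1) * Y) * A + (p + 1) * y * B ≤
          p * (p + r + 1 - y) * A + r * Y * B) ∧
      0 < (p * (p + r + 1 - Y) + (p + r + 1) * (p - u) - (p + r + 1 - (r + 1) * Y) -
          (r * (p - 1) - 1) + p * n) * A +
        (r * Y - ((p + 1) * Y - (p + r + 1) * u) - (p * (r - 1) - 1) + (p + 1) * n) * B := by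
  rcases hn with rfl | ⟨hn1, hn2⟩
  · refine ⟨1, 0, zero_le_one, le_refl _, by simp, ?_, ?_, ?_, ?_⟩
    · have : 0 ≤ p := by rcases hu with rfl | h <;> linarith
      have : 0 ≤ p + r + 1 - Y := by linarith
      have : 0 ≤ p * (p + r + 1 - Y) := by positivity
      linarith
    · rcases hu with rfl | hu
      · obtain ⟨a, rfl⟩ : ∃ a, Y = 1 + a := ⟨Y - 1, by ring⟩
        obtain ⟨b, rfl⟩ : ∃ b, p = 1 + a + b := ⟨p - 1 - a, by ring⟩
        obtain ⟨d, rfl⟩ : ∃ d, r = 1 + d := ⟨r - 1, by ring⟩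
        have ha : 0 ≤ a := by linarith
        have hb : 0 ≤ b := by linarith
        have hd : 0 ≤ d := by linarith
        rw [← sub_nonneg]
        ring_nf
        positivity
      · obtain ⟨a, rfl⟩ : ∃ a, u = 1 + a := ⟨u - 1, by ring⟩
        obtain ⟨b, rfl⟩ : ∃ b, Y = 2 + a + b := ⟨Y - 2 - a, by ring⟩
        obtain ⟨c, rfl⟩ : ∃ c, p = 2 + a + b + c := ⟨p - 2 - a - b, by ring⟩
        obtain ⟨d, rfl⟩ : ∃ d, r = 1 + d := ⟨r - 1, by ring⟩
        have ha : 0 ≤ a := by linarith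
        have hb : 0 ≤ b := by linarith
        have hc : 0 ≤ c := by linarith
        have hd : 0 ≤ d := by linarith
        rw [← sub_nonneg]
        ring_nf
        positivity
    · intro y hy1 hy2
      obtain ⟨k, rfl⟩ : ∃ k, y = 1 + k := ⟨y - 1, by ring⟩
      obtain ⟨a, rfl⟩ : ∃ a, u = 2 + k + a := ⟨u - 2 - k, by ring⟩
      obtain ⟨b, rfl⟩ : ∃ b, Y = 3 + k + a + b := ⟨Y - 3 - k - a, by ring⟩
      obtain ⟨c, rfl⟩ : ∃ c, p = 3 + k + a + b + c := ⟨p - 3 - k - a - b, by ring⟩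
      obtain ⟨d, rfl⟩ : ∃ d, r = 1 + d := ⟨r - 1, by ring⟩
      have hk : 0 ≤ k := by linarith
      have ha : 0 ≤ a := by linarith
      have hb : 0 ≤ b := by linarith
      have hc : 0 ≤ c := by linarith
      have hd : 0 ≤ d := by linarith
      constructor
      · rw [← sub_nonneg]
        ring_nf
        positivity
      · rw [← sub_nonneg]
        ring_nf
        positivity
    · rcases hu with rfl | hu
      · obtain ⟨a, rfl⟩ : ∃ a, Y = 1 + a := ⟨Y - 1, by ring⟩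
        obtain ⟨b, rfl⟩ : ∃ b, p = 1 + a + b := ⟨p - 1 - a, by ring⟩
        obtain ⟨d, rfl⟩ : ∃ d, r = 1 + d := ⟨r - 1, by ring⟩
        have ha : 0 ≤ a := by linarith
        have hb : 0 ≤ b := by linarith
        have hd : 0 ≤ d := by linarith
        ring_nf
        positivity
      · obtain ⟨a, rfl⟩ : ∃ a, u = 1 + a := ⟨u - 1, by ring⟩
        obtain ⟨b, rfl⟩ : ∃ b, Y = 2 + a + b := ⟨Y - 2 - a, by ring⟩
        obtain ⟨c, rfl⟩ : ∃ c, p = 2 + a + b + c := ⟨p - 2 - a - b, by ring⟩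
        obtain ⟨d, rfl⟩ : ∃ d, r = 1 + d := ⟨r - 1, by ring⟩
        have ha : 0 ≤ a := by linarith
        have hb : 0 ≤ b := by linarith
        have hc : 0 ≤ c := by linarith
        have hd : 0 ≤ d := by linarith
        ring_nf
        positivity
  · have hp0 : 0 ≤ p := by rcases hu with rfl | h <;> linarith
    refine ⟨r * (p + r + 1 - n), (r + 1) * n, ?_, by positivity, le_of_eq (by ring), ?_, ?_, ?_, ?_⟩
    · have : 0 ≤ p + r + 1 - n := by linarith
      positivity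
    · rcases hu with rfl | hu
      · obtain ⟨a, rfl⟩ : ∃ a, Y = 1 + a := ⟨Y - 1, by ring⟩
        obtain ⟨b, rfl⟩ : ∃ b, p = 1 + a + b := ⟨p - 1 - a, by ring⟩
        obtain ⟨d, rfl⟩ : ∃ d, n = 1 + d := ⟨n - 1, by ring⟩
        obtain ⟨f, rfl⟩ : ∃ f, r = 2 + d + f := ⟨r - 2 - d, by ring⟩
        have ha : 0 ≤ a := by linarith
        have hb : 0 ≤ b := by linarith
        have hd : 0 ≤ d := by linarith
        have hf : 0 ≤ f := by linarith
        rw [← sub_nonneg]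
        ring_nf
        positivity
      · obtain ⟨a, rfl⟩ : ∃ a, u = 1 + a := ⟨u - 1, by ring⟩
        obtain ⟨b, rfl⟩ : ∃ b, Y = 2 + a + b := ⟨Y - 2 - a, by ring⟩
        obtain ⟨c, rfl⟩ : ∃ c, p = 2 + a + b + c := ⟨p - 2 - a - b, by ring⟩
        obtain ⟨d, rfl⟩ : ∃ d, n = 1 + d := ⟨n - 1, by ring⟩
        obtain ⟨f, rfl⟩ : ∃ f, r = 2 + d + f := ⟨r - 2 - d, by ring⟩
        have ha : 0 ≤ a := by linarith
        have hb : 0 ≤ b := by linarith
        have hc : 0 ≤ c := by linarith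
        have hd : 0 ≤ d := by linarith
        have hf : 0 ≤ f := by linarith
        rw [← sub_nonneg]
        ring_nf
        positivity
    · rcases hu with rfl | hu
      · obtain ⟨a, rfl⟩ : ∃ a, Y = 1 + a := ⟨Y - 1, by ring⟩
        obtain ⟨b, rfl⟩ : ∃ b, p = 1 + a + b := ⟨p - 1 - a, by ring⟩
        obtain ⟨d, rfl⟩ : ∃ d, n = 1 + d := ⟨n - 1, by ring⟩
        obtain ⟨f, rfl⟩ : ∃ f, r = 2 + d + f := ⟨r - 2 - d, by ring⟩
        have ha : 0 ≤ a := by linarith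
        have hb : 0 ≤ b := by linarith
        have hd : 0 ≤ d := by linarith
        have hf : 0 ≤ f := by linarith
        rw [← sub_nonneg]
        ring_nf
        positivity
      · obtain ⟨a, rfl⟩ : ∃ a, u = 1 + a := ⟨u - 1, by ring⟩
        obtain ⟨b, rfl⟩ : ∃ b, Y = 2 + a + b := ⟨Y - 2 - a, by ring⟩
        obtain ⟨c, rfl⟩ : ∃ c, p = 2 + a + b + c := ⟨p - 2 - a - b, by ring⟩
        obtain ⟨d, rfl⟩ : ∃ d, n = 1 + d := ⟨n - 1, by ring⟩
        obtain ⟨f, rfl⟩ : ∃ f, r = 2 + d + f := ⟨r - 2 - d, by ring⟩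
        have ha : 0 ≤ a := by linarith
        have hb : 0 ≤ b := by linarith
        have hc : 0 ≤ c := by linarith
        have hd : 0 ≤ d := by linarith
        have hf : 0 ≤ f := by linarith
        rw [← sub_nonneg]
        ring_nf
        positivity
    · intro y hy1 hy2
      obtain ⟨k, rfl⟩ : ∃ k, y = 1 + k := ⟨y - 1, by ring⟩
      obtain ⟨a, rfl⟩ : ∃ a, u = 2 + k + a := ⟨u - 2 - k, by ring⟩
      obtain ⟨b, rfl⟩ : ∃ b, Y = 3 + k + a + b := ⟨Y - 3 - k - a, by ring⟩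
      obtain ⟨c, rfl⟩ : ∃ c, p = 3 + k + a + b + c := ⟨p - 3 - k - a - b, by ring⟩
      obtain ⟨d, rfl⟩ : ∃ d, n = 1 + d := ⟨n - 1, by ring⟩
      obtain ⟨f, rfl⟩ : ∃ f, r = 2 + d + f := ⟨r - 2 - d, by ring⟩
      have hk : 0 ≤ k := by linarith
      have ha : 0 ≤ a := by linarith
      have hb : 0 ≤ b := by linarith
      have hc : 0 ≤ c := by linarith
      have hd : 0 ≤ d := by linarith
      have hf : 0 ≤ f := by linarith
      constructor
      · rw [← sub_nonneg]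
        ring_nf
        positivity
      · rw [← sub_nonneg]
        ring_nf
        positivity
    · rcases hu with rfl | hu
      · obtain ⟨a, rfl⟩ : ∃ a, Y = 1 + a := ⟨Y - 1, by ring⟩
        obtain ⟨b, rfl⟩ : ∃ b, p = 1 + a + b := ⟨p - 1 - a, by ring⟩
        obtain ⟨d, rfl⟩ : ∃ d, n = 1 + d := ⟨n - 1, by ring⟩
        obtain ⟨f, rfl⟩ : ∃ f, r = 2 + d + f := ⟨r - 2 - d, by ring⟩
        have ha : 0 ≤ a := by linarith
        have hb : 0 ≤ b := by linarith
        have hd : 0 ≤ d := by linarith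
        have hf : 0 ≤ f := by linarith
        ring_nf
        positivity
      · obtain ⟨a, rfl⟩ : ∃ a, u = 1 + a := ⟨u - 1, by ring⟩
        obtain ⟨b, rfl⟩ : ∃ b, Y = 2 + a + b := ⟨Y - 2 - a, by ring⟩
        obtain ⟨c, rfl⟩ : ∃ c, p = 2 + a + b + c := ⟨p - 2 - a - b, by ring⟩
        obtain ⟨d, rfl⟩ : ∃ d, n = 1 + d := ⟨n - 1, by ring⟩
        obtain ⟨f, rfl⟩ : ∃ f, r = 2 + d + f := ⟨r - 2 - d, by ring⟩
        have ha : 0 ≤ a := by linarith
        have hb : 0 ≤ b := by linarith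
        have hc : 0 ≤ c := by linarith
        have hd : 0 ≤ d := by linarith
        have hf : 0 ≤ f := by linarith
        ring_nf
        positivity

end DKWF.LX
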