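import Pool.Agent.Lib.MP_f05b2f_co.LX.Case2

/-!
The case `1 ≤ u ≤ p - 1`, `w ≥ p + 2`.
-/

namespace DKWF.LX

open Finset

variable {k s t e p r Y u w m y1 : ℕ} {y v : ℕ → ℕ}

theorem nat_dich (a b : ℕ) : (a : ℝ) ≤ b ∨ (b : ℝ) + 1 ≤ a := by
  rcases Nat.lt_or_ge b a with h1 | h1
  · right; exact natCast_lt h1
  · left; exact natCast_le h1

/-- `1 ≤ u ≤ p - 1`, `w ≥ p + 2` -/
theorem Dat.case1 (h : Dat k s t e p r Y u w m y1 y v) (hu : 0 < u) (hup : u < p)
    (hw : p + 2 ≤ w) : False := by
  have hs : 0 < s := by have := h.hte; have := h.hbs; omega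
  have p1 : (1 : ℝ) ≤ (p : ℝ) := by exact_mod_cast h.hp
  have r1 : (1 : ℝ) ≤ (r : ℝ) := by exact_mod_cast h.hr
  have u1 : (1 : ℝ) ≤ (u : ℝ) := by exact_mod_cast hu
  have up : (u : ℝ) + 1 ≤ p := natCast_lt hup
  have Y1 : (u : ℝ) + 1 ≤ Y := natCast_lt h.huY
  have Y2 : (Y : ℝ) + 1 ≤ w := natCast_lt h.hYw
  have w1 : (p : ℝ) + 2 ≤ w := by exact_mod_cast hw
  have w2 : (w : ℝ) ≤ p + r + 1 := by exact_mod_cast h.hwq
  have m0 : (0 : ℝ) ≤ m := Nat.cast_nonneg _
  have hm : (m : ℝ) = 0 ∨ (1 ≤ (m : ℝ) ∧ (m : ℝ) ≤ u - 1) := by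
    rcases Nat.eq_zero_or_pos m with h1 | h1
    · left; exact_mod_cast h1
    · right
      refine ⟨by exact_mod_cast h1, ?_⟩
      rcases h.hm with h2 | h2
      · omega
      · have := natCast_lt h2
        linarith
  have hk : (p : ℝ) + r + 3 ≤ k := by exact_mod_cast h.hk
  obtain ⟨ρ, hρ, g1, g2, g3, g4, g5, g6⟩ := c1arith (p : ℝ) r ((p : ℝ) + r + 1 - Y) ((p : ℝ) - u) u
    (by ring) (by linarith) u1 r1 (by linarith) (by linarith)
    (by
      rcases nat_dich (p + 1) Y with h1 | h1
      · left; push_cast at h1; linarith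
      · right; push_cast at h1; linarith)
    (by
      rcases nat_dich (r + 1 + u) Y with h1 | h1
      · left; push_cast at h1; linarith
      · right; push_cast at h1; linarith)
    (by
      rcases nat_dich u 1 with h1 | h1
      · left; push_cast at h1; linarith
      · right; push_cast at h1; linarith)
    (nat_dich p r)
    (by
      rcases nat_dich (r + 2) Y with h1 | h1
      · left; push_cast at h1; linarith
      · right; push_cast at h1; linarith)
    (by
      rcases nat_dich (r + u) p with h1 | h1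
      · left; push_cast at h1; linarith
      · right; push_cast at h1; linarith)
  have gY : (p : ℝ) + r + 1 - ((p : ℝ) + r + 1 - Y) = Y := by ring
  rw [gY] at g2 g3
  have hQ : 0 < (p : ℝ) + r + 3 := by linarith
  obtain ⟨τ, hτ⟩ : ∃ τ : ℝ, ((p : ℝ) + r + 3) * τ = r * (p - 1) + p * (r - 1) * ρ := by
    refine ⟨(r * (p - 1) + p * (r - 1) * ρ) / ((p : ℝ) + r + 3), ?_⟩
    rw [mul_div_cancel₀ _ hQ.ne']
  have hτ0 : 0 ≤ τ := by
    have h1 : 0 ≤ ((p : ℝ) + r + 3) * τ := by
      rw [hτ]
      have h2 : 0 ≤ (p : ℝ) - 1 := by linarith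
      have h3 : 0 ≤ (r : ℝ) - 1 := by linarith
      positivity
    exact nonneg_of_mul_nonneg_right h1 hQ
  -- conclusions of the arithmetic
  have b1 : τ ≤ ((p : ℝ) + r + 1) * (p - u) := by
    refine le_of_mul_le_mul_left ?_ hQ
    rw [hτ]; linarith
  have l1 : 2 * τ ≤ ((p : ℝ) + r + 1) * (p - u) - (r + 1) * ((p : ℝ) + r + 1 - Y) + r * Y * ρ := by
    refine le_of_mul_le_mul_left ?_ hQ
    have : ((p : ℝ) + r + 3) * (2 * τ) = 2 * (r * (p - 1) + p * (r - 1) * ρ) := by rw [← hτ]; ring
    rw [this]; linarith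
  have up1 : τ + ((p + 1) * Y - (p + r + 1) * u) * ρ ≤ p * ((p : ℝ) + r + 1 - Y) := by
    refine le_of_mul_le_mul_left ?_ hQ
    rw [mul_add, hτ]; linarith
  have htriv : τ ≤ (r + 1) * Y + ρ * (r * Y) := by
    refine le_of_mul_le_mul_left ?_ hQ
    rw [hτ]
    have h1 : (r : ℝ) * (p - 1) ≤ (p + r + 3) * ((r + 1) * Y) := by
      have : (r : ℝ) * (p - 1) ≤ (p + r + 3) * ((r + 1) * 1) := by nlinarith
      refine this.trans ?_
      apply mul_le_mul_of_nonneg_left _ hQ.le
      apply mul_le_mul_of_nonneg_left _ (by linarith)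
      linarith
    have h2 : (p : ℝ) * (r - 1) * ρ ≤ (p + r + 3) * (ρ * (r * Y)) := by
      have : (p : ℝ) * (r - 1) * ρ ≤ (p + r + 3) * (ρ * (r * 1)) := by
        have : (p : ℝ) * (r - 1) ≤ (p + r + 3) * r := by nlinarith
        have := mul_le_mul_of_nonneg_right this hρ
        linarith
      refine this.trans ?_
      apply mul_le_mul_of_nonneg_left _ hQ.le
      apply mul_le_mul_of_nonneg_left _ hρ
      apply mul_le_mul_of_nonneg_left _ (by linarith)
      linarith
    linarith
  have hhigh : ∀ z, t ≤ z → z < e → τ ≤ Sz p r 1 ρ (y z) (v z) ∨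
      ρ * (r * Y) - (r + 1) * ((p : ℝ) + r + 1 - Y) ≤ Sz p r 1 ρ (y z) (v z) := by
    intro z hz1 hz2
    obtain ⟨q1, q2, q3⟩ := h.high z hz1 hz2
    have t1 : (v z : ℝ) ≤ w := natCast_le q3
    have t2 : (p : ℝ) + 1 ≤ v z := natCast_lt q2
    rw [q1]
    rcases le_total (Y : ℝ) (v z) with h1 | h1
    · right
      rw [Sz_le h1]
      have := mul_le_mul_of_nonneg_left (t1.trans w2) (show (0 : ℝ) ≤ p + r + 1 by linarith)
      linarith
    · left
      have h2 := S_high (A := 1) hρ (show (0 : ℝ) ≤ r by linarith)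
        (show (0 : ℝ) ≤ p by linarith) h1 t2 (by linarith)
      refine le_trans ?_ h2
      have h3 : 0 ≤ ρ * (((p : ℝ) + r + 1) * (p + 1 - u)) := by
        have : 0 ≤ (p : ℝ) + 1 - u := by linarith
        positivity
      linarith
  have haft : ∀ z, e ≤ z → z < k → τ ≤ Sz p r 1 ρ (y z) (v z) := by
    intro z hz1 hz2
    obtain ⟨q1, q2, q3, q4⟩ := h.aft z hz1 hz2
    have t1 : (w : ℝ) ≤ v z := natCast_le q3
    have t2 : (y z : ℝ) ≤ p + r + 1 := by exact_mod_cast q2
    have t4 : (v z : ℝ) ≤ p + r + 1 := by exact_mod_cast q4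
    rcases Nat.lt_or_ge (y z) (v z) with h1 | h1
    · have h1' : (y z : ℝ) ≤ v z := natCast_le h1.le
      have h2 : w + 1 ≤ y z := by
        rcases h.hy1 with h3 | h3
        · omega
        · omega
      have t3 : (w : ℝ) + 1 ≤ y z := by exact_mod_cast h2
      rw [Sz_le h1']
      have e1 : (-(((r : ℝ) + 1) * ((p : ℝ) + r + 1 - y z))) ≤
          (((p : ℝ) + r + 1) * (p - v z) + (r + 1) * y z) := by
        have := mul_le_mul_of_nonneg_left t4 (show (0 : ℝ) ≤ p + r + 1 by linarith)
        linarith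
      rcases le_total ((p : ℝ) + r + 1 - Y) r with h5 | h5
      · have h6 := (g4 h5).2
        rw [gY] at h6
        have h7 : τ ≤ -((r + 1) * ((p : ℝ) + r + 1 - Y - 2)) + ρ * (r * (Y + 2)) := by
          refine le_of_mul_le_mul_left ?_ hQ
          rw [hτ]; linarith
        have h8 : (Y : ℝ) + 2 ≤ y z := by linarith
        have h9 := mul_le_mul_of_nonneg_left h8 (show (0 : ℝ) ≤ r + 1 by linarith)
        have h10 := mul_le_mul_of_nonneg_left h8 (show (0 : ℝ) ≤ ρ * r by positivity)
        linarith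
      · have h5' : (r : ℝ) + 1 ≤ (p : ℝ) + r + 1 - Y ∨ ((p : ℝ) + r + 1 - Y) ≤ r := by
          rcases nat_dich (p + 1) Y with h1 | h1
          · right; push_cast at h1; linarith
          · left; push_cast at h1; linarith
        rcases h5' with h5' | h5'
        · have h6 := (g5 h5').2
          have h7 : τ ≤ -((r + 1) * ((r : ℝ) - 2)) + ρ * (r * (p + 3)) := by
            refine le_of_mul_le_mul_left ?_ hQ
            rw [hτ]; linarith
          have h8 : (p : ℝ) + 3 ≤ y z := by linarith
          have h9 := mul_le_mul_of_nonneg_left h8 (show (0 : ℝ) ≤ r + 1 by linarith)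
          have h10 := mul_le_mul_of_nonneg_left h8 (show (0 : ℝ) ≤ ρ * r by positivity)
          linarith
        · have h6 := (g4 h5').2
          rw [gY] at h6
          have h7 : τ ≤ -((r + 1) * ((p : ℝ) + r + 1 - Y - 2)) + ρ * (r * (Y + 2)) := by
            refine le_of_mul_le_mul_left ?_ hQ
            rw [hτ]; linarith
          have h8 : (Y : ℝ) + 2 ≤ y z := by linarith
          have h9 := mul_le_mul_of_nonneg_left h8 (show (0 : ℝ) ≤ r + 1 by linarith)
          have h10 := mul_le_mul_of_nonneg_left h8 (show (0 : ℝ) ≤ ρ * r by positivity)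
          linarith
    · have h1' : (v z : ℝ) ≤ y z := natCast_le h1
      rw [Sz_ge h1']
      have e1 : 0 ≤ (p : ℝ) * ((p : ℝ) + r + 1 - y z) := mul_nonneg (by linarith) (by linarith)
      have e2 : ρ * ((p + 1) * y z - (p + r + 1) * v z) ≤
          ρ * (-((p + r + 1) * ((w : ℝ) - p - 1))) := by
        apply mul_le_mul_of_nonneg_left _ hρ
        nlinarith [mul_le_mul_of_nonneg_left t1 (show (0 : ℝ) ≤ p + r + 1 by linarith),
          mul_le_mul_of_nonneg_left t2 (show (0 : ℝ) ≤ p + 1 by linarith)]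
      have e3 : τ ≤ ρ * ((p + r + 1) * ((w : ℝ) - p - 1)) := by
        rcases nat_dich (p + 1) Y with h5 | h5
        · push_cast at h5
          have h6 := (g4 (by linarith)).1
          have h7 : τ ≤ ρ * (((p : ℝ) + r + 1) * (r + 1 - (p + r + 1 - Y))) := by
            refine le_of_mul_le_mul_left ?_ hQ
            rw [hτ]; linarith
          refine h7.trans ?_
          apply mul_le_mul_of_nonneg_left _ hρ
          apply mul_le_mul_of_nonneg_left _ (by linarith)
          linarith
        · push_cast at h5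
          have h6 := (g5 (by linarith)).1
          have h7 : τ ≤ ρ * (((p : ℝ) + r + 1) * 1) := by
            refine le_of_mul_le_mul_left ?_ hQ
            rw [hτ]; linarith
          refine h7.trans ?_
          apply mul_le_mul_of_nonneg_left _ hρ
          apply mul_le_mul_of_nonneg_left _ (by linarith)
          linarith
      linarith
  have hlow : ∀ z, s ≤ z → z < t → τ ≤ Sz p r 1 ρ (y z) (v z) := by
    intro z hz1 hz2
    obtain ⟨q1, q2, q3⟩ := h.low z hz1 hz2
    have t2 : (u : ℝ) ≤ v z := natCast_le q2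
    have t3 : (v z : ℝ) ≤ p := natCast_le q3
    rw [q1]
    rcases le_total (Y : ℝ) (v z) with h1 | h1
    · rw [Sz_le h1]
      have : 0 ≤ ((p : ℝ) + r + 1) * (p - v z) := mul_nonneg (by linarith) (by linarith)
      linarith
    · rw [Sz_ge h1]
      have : ρ * ((p + 1) * Y - (p + r + 1) * v z) ≤
          ρ * (((p : ℝ) + 1) * Y - (p + r + 1) * u) := by
        apply mul_le_mul_of_nonneg_left _ hρ
        have := mul_le_mul_of_nonneg_left t2 (show (0 : ℝ) ≤ p + r + 1 by linarith)
        linarith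
      linarith
  set μ := max 0 (τ - (ρ * (r * Y) - (r + 1) * ((p : ℝ) + r + 1 - Y))) with hμ
  have hμ0 : 0 ≤ μ := le_max_left _ _
  have hμ1 : τ - (ρ * (r * Y) - (r + 1) * ((p : ℝ) + r + 1 - Y)) ≤ μ := le_max_right _ _
  have hbef : ∀ z, z < s → μ ≤ Sz p r 1 ρ (y z) (v z) - τ := by
    intro z hz
    obtain ⟨q1, q2⟩ := h.bef z hz
    have t1 : (y z : ℝ) ≤ m := natCast_le q1
    have t2 : (v z : ℝ) ≤ u := natCast_le q2
    have t3 : (0 : ℝ) ≤ y z := Nat.cast_nonneg _
    have t4 : (0 : ℝ) ≤ v z := Nat.cast_nonneg _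
    have hfull : ((p : ℝ) + r + 1) * (p - u) ≤ Sz p r 1 ρ (y z) (v z) → 
        μ ≤ Sz p r 1 ρ (y z) (v z) - τ := by
      intro h1
      rw [hμ]
      apply max_le
      · linarith
      · linarith
    rcases le_total (y z : ℝ) (v z) with h1 | h1
    · apply hfull
      refine le_trans ?_ (S_low zero_le_one hρ (by linarith) t3 h1)
      rw [one_mul]
      apply mul_le_mul_of_nonneg_left _ (by linarith)
      linarith
    · rcases Nat.eq_zero_or_pos (y z) with h2 | h2
      · apply hfull
        have h3 : (y z : ℝ) = 0 := by rw [h2]; simp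
        have h4 : (v z : ℝ) = 0 := le_antisymm (h3 ▸ h1) t4
        refine le_trans ?_ (S_low zero_le_one hρ (by linarith) t3 (by rw [h3, h4]))
        rw [one_mul]
        apply mul_le_mul_of_nonneg_left _ (by linarith)
        linarith
      · have h3 : (1 : ℝ) ≤ y z := by exact_mod_cast h2
        have h4 : (y z : ℝ) ≤ u - 1 := by rcases hm with h5 | h5 <;> linarith
        obtain ⟨g7, g8⟩ := g6 (by linarith)
        rw [gY] at g8
        rw [Sz_ge h1]
        have e1 : p * ((p : ℝ) + r + 1 - u + 1) ≤ p * ((p : ℝ) + r + 1 - y z) := by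
          apply mul_le_mul_of_nonneg_left _ (by linarith)
          linarith
        have e2 : ρ * ((p + 1) * y z - (p + r + 1) * v z) ≤ ρ * (((p : ℝ) + 1) * (u - 1)) := by
          apply mul_le_mul_of_nonneg_left _ hρ
          have h5 : 0 ≤ ((p : ℝ) + r + 1) * v z := by positivity
          have h6 := mul_le_mul_of_nonneg_left h4 (show (0 : ℝ) ≤ p + 1 by linarith)
          linarith
        have e3 : τ ≤ p * ((p : ℝ) + r + 1 - u + 1) - ρ * (((p : ℝ) + 1) * (u - 1)) := by
          refine le_of_mul_le_mul_left ?_ hQ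
          rw [hτ]; linarith
        have e4 : 2 * τ ≤ p * ((p : ℝ) + r + 1 - u + 1) - (r + 1) * ((p : ℝ) + r + 1 - Y) +
            ρ * (r * Y - (p + 1) * (u - 1)) := by
          refine le_of_mul_le_mul_left ?_ hQ
          have : ((p : ℝ) + r + 3) * (2 * τ) = 2 * (r * (p - 1) + p * (r - 1) * ρ) := by
            rw [← hτ]; ring
          rw [this]; linarith
        rw [hμ]
        apply max_le
        · linarith
        · linarith
  have ht := total (fun z => Sz p r 1 ρ (y z) (v z) - τ) μ 0 hμ0 (le_refl _) h.hst h.hte h.hek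
    h.hbs hbef (fun z hz1 hz2 => by have := hlow z hz1 hz2; linarith)
    (fun z hz1 hz2 => by have := hlow z (by omega) hz2; linarith)
    (fun z hz1 hz2 => by
      rcases hhigh z hz1 hz2 with h1 | h1
      · linarith
      · linarith)
    (fun z hz1 hz2 => by have := haft z hz1 hz2; linarith)
  rw [Finset.sum_sub_distrib, Finset.sum_const, card_range, nsmul_eq_mul] at ht
  have hle := h.sum_le zero_le_one hρ
  have s1 := hbef (s - 1) (by omega)
  have s2 := hlow s (le_refl _) h.hst
  have s3 : -μ ≤ Sz p r 1 ρ (y (e - 1)) (v (e - 1)) - τ := by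
    rcases hhigh (e - 1) (by have := h.hte; omega) (by have := h.hte; omega) with h1 | h1
    · linarith
    · linarith
  have s4 : 0 ≤ if e < k then Sz p r 1 ρ (y e) (v e) - τ else 0 := by
    split_ifs with hek
    · have := haft e (le_refl _) hek
      linarith
    · exact le_refl _
  have s5 := mul_le_mul_of_nonneg_right hk hτ0
  linarith

end DKWF.LX
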