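import Pool.Agent.Lib.MP_f05b2f_co.LX.Case4

/-!
The case `u = 0`, `w ≥ p + 2`.
-/

namespace DKWF.LX

open Finset

variable {k s t e p r Y u w m y1 : ℕ} {y v : ℕ → ℕ}

/-- `u = 0`, `w ≥ p + 2`; at most `k - e` of the slices have `v = 0` -/
theorem Dat.case2 (h : Dat k s t e p r Y u w m y1 y v) (hu : u = 0) (hw : p + 2 ≤ w)
    (hz : ∀ z, s + (k - e) ≤ z → z < t → 0 < v z) : False := by
  subst hu
  have hs : 0 < s := by have := h.hte; have := h.hbs; omega
  have hek : e < k := by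
    by_contra hc
    have h1 := hz s (by have := h.hek; omega) h.hst
    rw [h.hvs] at h1
    exact lt_irrefl _ h1
  have hm0 : m = 0 := by have := h.hm; omega
  have p1 : (1 : ℝ) ≤ (p : ℝ) := by exact_mod_cast h.hp
  have r1 : (1 : ℝ) ≤ (r : ℝ) := by exact_mod_cast h.hr
  have Y1 : (1 : ℝ) ≤ Y := by exact_mod_cast h.huY
  have Y2 : (Y : ℝ) + 1 ≤ w := natCast_lt h.hYw
  have w1 : (p : ℝ) + 2 ≤ w := by exact_mod_cast hw
  have w2 : (w : ℝ) ≤ p + r + 1 := by exact_mod_cast h.hwq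
  have hn : (p : ℝ) + r + 1 - y1 = 0 ∨
      (1 ≤ (p : ℝ) + r + 1 - y1 ∧ (p : ℝ) + r + 1 - y1 ≤ r - 1 - ((w : ℝ) - p - 1)) := by
    rcases h.hy1 with h1 | ⟨h1, h2⟩
    · left
      rw [h1]; push_cast; ring
    · right
      have t1 : (y1 : ℝ) ≤ p + r := by exact_mod_cast h1
      have t2 := natCast_lt h2
      constructor <;> linarith
  have hYp : (Y : ℝ) ≤ p ∨ (p : ℝ) + 1 ≤ Y := by
    rcases Nat.lt_or_ge p Y with h1 | h1
    · right; exact natCast_lt h1
    · left; exact natCast_le h1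
  have hi1 : (p : ℝ) ≤ r + 1 + 2 * (p - Y) ∨ (r : ℝ) + 2 + 2 * (p - Y) ≤ p := by
    rcases Nat.lt_or_ge (r + 1 + 2 * p) (p + 2 * Y) with h1 | h1
    · right
      have := natCast_lt h1
      push_cast at this
      linarith
    · left
      have := natCast_le h1
      push_cast at this
      linarith
  have hi2 : (r : ℝ) - p ≤ 2 * (r - 1 - ((p : ℝ) + r + 1 - y1)) ∨
      2 * ((r : ℝ) - 1 - ((p : ℝ) + r + 1 - y1)) ≤ r - 1 - p := by
    rcases Nat.lt_or_ge (r + p + 4) (2 * y1 + 1) with h1 | h1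
    · left
      have := natCast_lt h1
      push_cast at this
      linarith
    · right
      have : 2 * y1 ≤ r + p + 3 := by omega
      have := natCast_le this
      push_cast at this
      linarith
  obtain ⟨ρ, hρ, g1, g2, g3, g4⟩ := c2arith (p : ℝ) r Y ((w : ℝ) - p - 1) ((p : ℝ) + r + 1 - y1) p1
    Y1 (by linarith) (by linarith) (by linarith) (by linarith) hYp hn hi1 hi2
  have hle := h.sum_le (zero_le_one) hρ
  have n0 : 0 ≤ (p : ℝ) + r + 1 - y1 := by rcases hn with h1 | h1 <;> linarith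
  have hwρ : ((p : ℝ) + r + 1) * ρ ≤ ρ * ((p + r + 1) * ((w : ℝ) - p - 1)) := by
    rw [mul_comm]
    apply mul_le_mul_of_nonneg_left _ hρ
    nlinarith
  have hlow : ∀ z, s ≤ z → z < t → ρ * (((p : ℝ) + r + 1) * v z) - ρ * ((p + r + 1)) ≤
      Sz p r 1 ρ (y z) (v z) ∨ 0 ≤ Sz p r 1 ρ (y z) (v z) := by
    intro z hz1 hz2
    obtain ⟨q1, q2, q3⟩ := h.low z hz1 hz2
    have t3 : (v z : ℝ) ≤ p := natCast_le q3
    rw [q1]
    rcases le_total (Y : ℝ) (v z) with h1 | h1
    · right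
      exact S_low0 zero_le_one hρ (by linarith) (by linarith) (by linarith) h1 t3
    · left
      rw [Sz_ge h1]
      linarith
  have ht := total (fun z => Sz p r 1 ρ (y z) (v z))
    (((p : ℝ) + r + 1) * p) (((p : ℝ) + r + 1) * ρ) (by positivity) (by positivity) h.hst h.hte h.hek
    h.hbs ?_ ?_ ?_ ?_ ?_
  · -- the mandatory slices
    have s1 : ((p : ℝ) + r + 1) * p ≤ Sz p r 1 ρ (y (s - 1)) (v (s - 1)) := by
      have e1 : v (s - 1) = 0 := Nat.le_zero.1 (h.bef (s - 1) (by omega)).2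
      rw [h.hys, e1, hm0]
      refine le_trans (le_of_eq ?_) (S_low zero_le_one hρ (by linarith) (by simp) (by simp))
      push_cast
      ring
    have s2 : Sz p r 1 ρ (y s) (v s) = (p * ((p : ℝ) + r + 1 - Y)) - ρ * ((p + 1) * Y) := by
      rw [(h.low s (le_refl _) h.hst).1, h.hvs, Sz_ge (natCast_le h.huY.le)]
      push_cast
      ring
    have s3 : Sz p r 1 ρ (y (e - 1)) (v (e - 1)) = -(((p : ℝ) + r + 1) * (w - p)) + (r + 1) * Y +
        ρ * (r * Y) := by
      rw [(h.high (e - 1) (by have := h.hte; omega) (by have := h.hte; omega)).1, h.hve,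
        Sz_le (natCast_le h.hYw.le)]
      ring
    have s4 : (p * ((p : ℝ) + r + 1 - y1)) +
        ρ * (((p : ℝ) + r + 1) * (w - p - 1) + (p + 1) * ((p : ℝ) + r + 1 - y1)) ≤
        if e < k then Sz p r 1 ρ (y e) (v e) else 0 := by
      rw [if_pos hek]
      obtain ⟨q1, q2⟩ := h.hye hek
      obtain ⟨q3, q4, q5, q6⟩ := h.aft e (le_refl _) hek
      have t1 : (w : ℝ) ≤ v e := natCast_le q5
      rw [q1, Sz_ge (natCast_le q2)]
      have : ρ * (((p : ℝ) + r + 1) * (w - p - 1) + (p + 1) * ((p : ℝ) + r + 1 - y1)) ≤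
          -(ρ * ((p + 1) * y1 - (p + r + 1) * v e)) := by
        rw [← mul_neg]
        apply mul_le_mul_of_nonneg_left _ hρ
        have := mul_le_mul_of_nonneg_left t1 (show (0 : ℝ) ≤ p + r + 1 by linarith)
        linarith
      linarith
    rw [s2, s3] at ht
    linarith
  · intro z hz'
    obtain ⟨q1, q2⟩ := h.bef z hz'
    have t1 : y z = 0 := by omega
    have t2 : v z = 0 := by omega
    simp only [t1, t2]
    refine le_trans (le_of_eq ?_) (S_low zero_le_one hρ (by linarith) (by simp) (by simp))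
    push_cast
    ring
  · intro z hz1 hz2
    have t4 : (0 : ℝ) ≤ v z := Nat.cast_nonneg _
    have t5 : 0 ≤ ρ * (((p : ℝ) + r + 1) * v z) := by positivity
    have t6 : 0 ≤ ((p : ℝ) + r + 1) * ρ := by positivity
    rcases hlow z hz1 hz2 with h1 | h1
    · refine le_trans ?_ h1
      linarith
    · exact le_trans (by linarith) h1
  · intro z hz1 hz2
    have t4 : (1 : ℝ) ≤ v z := by exact_mod_cast hz z hz1 hz2
    rcases hlow z (by omega) hz2 with h1 | h1
    · refine le_trans ?_ h1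
      have := mul_le_mul_of_nonneg_left t4 (show (0 : ℝ) ≤ ρ * (p + r + 1) by positivity)
      linarith
    · exact h1
  · intro z hz1 hz2
    obtain ⟨q1, q2, q3⟩ := h.high z hz1 hz2
    have t1 : (v z : ℝ) ≤ w := natCast_le q3
    have t2 : (p : ℝ) + 1 ≤ v z := natCast_lt q2
    simp only [q1]
    rcases le_total (Y : ℝ) (v z) with h1 | h1
    · rw [Sz_le h1]
      have := mul_le_mul_of_nonneg_left t1 (show (0 : ℝ) ≤ p + r + 1 by linarith)
      linarith
    · have := S_high0 zero_le_one hρ (show (0 : ℝ) ≤ r by linarith) (show (0 : ℝ) ≤ p by linarith)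
        h1 t2 (by linarith)
      have : 0 ≤ ((p : ℝ) + r + 1) * p := by positivity
      linarith
  · intro z hz1 hz2
    obtain ⟨q1, q2, q3, q4⟩ := h.aft z hz1 hz2
    have t1 : (w : ℝ) ≤ v z := natCast_le q3
    have t2 : (y z : ℝ) ≤ p + r + 1 := by exact_mod_cast q2
    have t4 : (v z : ℝ) ≤ p + r + 1 := by exact_mod_cast q4
    have t3 : (y1 : ℝ) ≤ y z := natCast_le q1
    rcases le_total (y z : ℝ) (v z) with h1 | h1
    · simp only [Sz_le h1]
      have e1 : (-(((r : ℝ) + 1) * ((p : ℝ) + r + 1 - y1))) ≤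
          (((p : ℝ) + r + 1) * (p - v z) + (r + 1) * y z) := by
        nlinarith [mul_le_mul_of_nonneg_left t4 (show (0 : ℝ) ≤ p + r + 1 by linarith),
          mul_le_mul_of_nonneg_left t3 (show (0 : ℝ) ≤ r + 1 by linarith)]
      have e2 : ρ * (r * y1) ≤ ρ * ((r : ℝ) * y z) := by
        apply mul_le_mul_of_nonneg_left _ hρ
        apply mul_le_mul_of_nonneg_left t3 (by linarith)
      linarith
    · simp only [Sz_ge h1]
      have e1 : 0 ≤ (p : ℝ) * ((p : ℝ) + r + 1 - y z) := mul_nonneg (by linarith) (by linarith)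
      have e2 : ρ * ((p + 1) * y z - (p + r + 1) * v z) ≤
          ρ * (-((p + r + 1) * ((w : ℝ) - p - 1))) := by
        apply mul_le_mul_of_nonneg_left _ hρ
        nlinarith [mul_le_mul_of_nonneg_left t1 (show (0 : ℝ) ≤ p + r + 1 by linarith),
          mul_le_mul_of_nonneg_left t2 (show (0 : ℝ) ≤ p + 1 by linarith)]
      linarith

end DKWF.LX
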