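import Pool.Agent.Lib.MP_f05b2f_co.LX.Dat

/-!
The case `w = p + 1`.
-/

namespace DKWF.LX

open Finset

theorem S_low {p r A B y v : ℝ} (hA : 0 ≤ A) (hB : 0 ≤ B) (hr : 0 ≤ r) (hy : 0 ≤ y)
    (h : y ≤ v) : A * ((p + r + 1) * (p - v)) ≤ Sz p r A B y v := by
  rw [Sz_le h]
  have h1 : 0 ≤ A * ((r + 1) * y) := by positivity
  have h2 : 0 ≤ B * (r * y) := by positivity
  linarith

theorem S_low0 {p r A B y v : ℝ} (hA : 0 ≤ A) (hB : 0 ≤ B) (hr : 0 ≤ r) (hp : 0 ≤ p) (hy : 0 ≤ y)
    (h : y ≤ v) (hv : v ≤ p) : 0 ≤ Sz p r A B y v :=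
  (mul_nonneg hA (mul_nonneg (by linarith) (by linarith))).trans (S_low hA hB hr hy h)

theorem S_high {p r A B y v : ℝ} (hB : 0 ≤ B) (hr : 0 ≤ r) (hp : 0 ≤ p)
    (h : v ≤ y) (hv : p + 1 ≤ v) (hy : y ≤ p + r + 1) :
    A * (p * (p + r + 1 - y)) + B * ((p + 1) * (p + r + 1 - y)) ≤ Sz p r A B y v := by
  rw [Sz_ge h]
  have h1 := mul_le_mul_of_nonneg_left hv (show 0 ≤ p + r + 1 by linarith)
  have h2 : B * ((p + 1) * (p + r + 1 - y)) ≤ -(B * ((p + 1) * y - (p + r + 1) * v)) := by
    rw [← mul_neg]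
    apply mul_le_mul_of_nonneg_left _ hB
    linarith
  linarith

theorem S_high0 {p r A B y v : ℝ} (hA : 0 ≤ A) (hB : 0 ≤ B) (hr : 0 ≤ r) (hp : 0 ≤ p)
    (h : v ≤ y) (hv : p + 1 ≤ v) (hy : y ≤ p + r + 1) : 0 ≤ Sz p r A B y v := by
  refine le_trans ?_ (S_high hB hr hp h hv hy)
  have : 0 ≤ p + r + 1 - y := by linarith
  positivity

variable {k s t e p r Y u w m y1 : ℕ} {y v : ℕ → ℕ}

/-- `w = p + 1` -/
theorem Dat.case4 (h : Dat k s t e p r Y u w m y1 y v) (hw : w = p + 1) : False := by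
  subst hw
  have hs : 0 < s := by have := h.hte; have := h.hbs; omega
  have p1 : (1 : ℝ) ≤ (p : ℝ) := by exact_mod_cast h.hp
  have r1 : (1 : ℝ) ≤ (r : ℝ) := by exact_mod_cast h.hr
  have Y1 : (u : ℝ) + 1 ≤ Y := natCast_lt h.huY
  have Y2 : (Y : ℝ) ≤ p := by
    have := h.hYw
    exact_mod_cast (show Y ≤ p by omega)
  have up : (u : ℝ) ≤ p := natCast_le h.hup
  have u0 : (0 : ℝ) ≤ u := Nat.cast_nonneg _
  have m0 : (0 : ℝ) ≤ m := Nat.cast_nonneg _
  have hm : (m : ℝ) = 0 ∨ (1 ≤ (m : ℝ) ∧ (m : ℝ) ≤ u - 1) := by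
    rcases Nat.eq_zero_or_pos m with h1 | h1
    · left; exact_mod_cast h1
    · right
      refine ⟨by exact_mod_cast h1, ?_⟩
      rcases h.hm with h2 | h2
      · omega
      · have := natCast_lt h2
        linarith
  have hu : (u : ℝ) = 0 ∨ 1 ≤ (u : ℝ) := by
    rcases Nat.eq_zero_or_pos u with h1 | h1
    · left; exact_mod_cast h1
    · right; exact_mod_cast h1
  have hn : (p : ℝ) + r + 1 - y1 = 0 ∨
      (1 ≤ (p : ℝ) + r + 1 - y1 ∧ (p : ℝ) + r + 1 - y1 ≤ r - 1) := by
    rcases h.hy1 with h1 | ⟨h1, h2⟩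
    · left
      rw [h1]; push_cast; ring
    · right
      have t1 : (y1 : ℝ) ≤ p + r := by exact_mod_cast h1
      have t2 := natCast_lt h2
      push_cast at t2
      constructor <;> linarith
  obtain ⟨A, B, hA, hB, g1, g2, g3, g4, g5⟩ := c4arith (p : ℝ) r Y u ((p : ℝ) + r + 1 - y1) r1 hu Y1
    Y2 hn
  have gY : (p : ℝ) + r + 1 - ((p : ℝ) + r + 1 - y1) = y1 := by ring
  rw [gY] at g1
  have hle := h.sum_le hA hB
  have hμ1 : A * ((p : ℝ) + r + 1 - (r + 1) * Y) - B * (r * Y) ≤
      max 0 (A * ((p : ℝ) + r + 1 - (r + 1) * Y) - B * (r * Y)) := le_max_right _ _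
  have hμ0 : 0 ≤ max 0 (A * ((p : ℝ) + r + 1 - (r + 1) * Y) - B * (r * Y)) := le_max_left _ _
  have hμb : ∀ z, z < s → max 0 (A * ((p : ℝ) + r + 1 - (r + 1) * Y) - B * (r * Y)) ≤
      Sz p r A B (y z) (v z) := by
    intro z hz
    obtain ⟨q1, q2⟩ := h.bef z hz
    have t1 : (y z : ℝ) ≤ m := natCast_le q1
    have t2 : (v z : ℝ) ≤ u := natCast_le q2
    have t3 : (0 : ℝ) ≤ y z := Nat.cast_nonneg _
    have t4 : (0 : ℝ) ≤ v z := Nat.cast_nonneg _
    rcases le_total (y z : ℝ) (v z) with h1 | h1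
    · apply max_le
      · exact S_low0 hA hB (by linarith) (by linarith) t3 h1 (by linarith)
      · refine le_trans ?_ (S_low hA hB (by linarith) t3 h1)
        have e1 : A * (((p : ℝ) + r + 1) * (p - u)) ≤ A * (((p : ℝ) + r + 1) * (p - v z)) := by
          apply mul_le_mul_of_nonneg_left _ hA
          apply mul_le_mul_of_nonneg_left _ (by linarith)
          linarith
        linarith
    · rcases Nat.eq_zero_or_pos (y z) with h2 | h2
      · have h3 : (y z : ℝ) = 0 := by rw [h2]; simp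
        have h4 : (v z : ℝ) = 0 := le_antisymm (h3 ▸ h1) t4
        apply max_le
        · exact S_low0 hA hB (by linarith) (by linarith) t3 (by rw [h3, h4]) (by rw [h4]; linarith)
        · refine le_trans ?_ (S_low hA hB (by linarith) t3 (by rw [h3, h4]))
          rw [h4]
          have e1 : A * (((p : ℝ) + r + 1) * (p - u)) ≤ A * (((p : ℝ) + r + 1) * (p - 0)) := by
            apply mul_le_mul_of_nonneg_left _ hA
            apply mul_le_mul_of_nonneg_left _ (by linarith)
            linarith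
          linarith
      · have h3 : (1 : ℝ) ≤ y z := by exact_mod_cast h2
        have h4 : (y z : ℝ) ≤ u - 1 := by rcases hm with h5 | h5 <;> linarith
        obtain ⟨g6, g7⟩ := g4 (y z) h3 h4
        rw [Sz_ge h1]
        have e2 : B * ((p + 1) * y z - (p + r + 1) * v z) ≤ B * (((p : ℝ) + 1) * y z) := by
          apply mul_le_mul_of_nonneg_left _ hB
          have : 0 ≤ ((p : ℝ) + r + 1) * v z := by positivity
          linarith
        apply max_le
        · linarith
        · linarith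
  have ht := total (fun z => Sz p r A B (y z) (v z))
    (max 0 (A * ((p : ℝ) + r + 1 - (r + 1) * Y) - B * (r * Y))) 0 hμ0 (le_refl _) h.hst h.hte h.hek
    h.hbs hμb ?_ ?_ ?_ ?_
  · -- the mandatory slices
    have s1 : A * (((p : ℝ) + r + 1) * (p - u)) ≤ Sz p r A B (y (s - 1)) (v (s - 1)) := by
      have e1 : (v (s - 1) : ℝ) ≤ u := natCast_le (h.bef (s - 1) (by omega)).2
      rw [h.hys]
      have e2 : (m : ℝ) ≤ v (s - 1) := by
        rcases Nat.eq_zero_or_pos m with h1 | h1
        · rw [h1]; exact_mod_cast Nat.zero_le _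
        · exact natCast_le (h.hmv h1).le
      refine le_trans ?_ (S_low hA hB (by linarith) m0 e2)
      apply mul_le_mul_of_nonneg_left _ hA
      apply mul_le_mul_of_nonneg_left _ (by linarith)
      linarith
    have s2 : Sz p r A B (y s) (v s) = A * (p * ((p : ℝ) + r + 1 - Y)) -
        B * ((p + 1) * Y - (p + r + 1) * u) := by
      rw [(h.low s (le_refl _) h.hst).1, h.hvs, Sz_ge (natCast_le h.huY.le)]
    have s3 : Sz p r A B (y (e - 1)) (v (e - 1)) = -(A * ((p : ℝ) + r + 1 - (r + 1) * Y)) +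
        B * (r * Y) := by
      rw [(h.high (e - 1) (by have := h.hte; omega) (by have := h.hte; omega)).1, h.hve,
        Sz_le (natCast_le h.hYw.le)]
      push_cast
      ring
    have s4 : A * (p * ((p : ℝ) + r + 1 - y1)) + B * ((p + 1) * ((p : ℝ) + r + 1 - y1)) ≤
        if e < k then Sz p r A B (y e) (v e) else 0 := by
      split_ifs with hek
      · obtain ⟨q1, q2⟩ := h.hye hek
        obtain ⟨q3, q4, q5, q6⟩ := h.aft e (le_refl _) hek
        have t1 : (p : ℝ) + 1 ≤ v e := by exact_mod_cast q5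
        have t2 : (y e : ℝ) ≤ p + r + 1 := by exact_mod_cast q4
        have := S_high (A := A) hB (show (0 : ℝ) ≤ r by linarith) (show (0 : ℝ) ≤ p by linarith)
          (natCast_le (show v e ≤ y e by rw [q1]; exact q2)) t1 t2
        rw [q1] at this ⊢
        exact this
      · have hk : e = k := le_antisymm h.hek (not_lt.1 hek)
        have : (p : ℝ) + r + 1 - y1 = 0 := by
          rw [h.hke hk]; push_cast; ring
        rw [this]
        simp
    rw [s2, s3] at ht
    linarith
  · intro z hz1 hz2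
    obtain ⟨q1, q2, q3⟩ := h.low z hz1 hz2
    have t2 : (u : ℝ) ≤ v z := natCast_le q2
    have t3 : (v z : ℝ) ≤ p := natCast_le q3
    simp only [q1, neg_zero]
    rcases le_total (Y : ℝ) (v z) with h1 | h1
    · exact S_low0 hA hB (by linarith) (by linarith) (by linarith) h1 t3
    · rw [Sz_ge h1]
      have : B * ((p + 1) * Y - (p + r + 1) * v z) ≤
          B * (((p : ℝ) + 1) * Y - (p + r + 1) * u) := by
        apply mul_le_mul_of_nonneg_left _ hB
        have := mul_le_mul_of_nonneg_left t2 (show (0 : ℝ) ≤ p + r + 1 by linarith)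
        linarith
      linarith
  · intro z hz1 hz2
    obtain ⟨q1, q2, q3⟩ := h.low z (by omega) hz2
    have t2 : (u : ℝ) ≤ v z := natCast_le q2
    have t3 : (v z : ℝ) ≤ p := natCast_le q3
    simp only [q1]
    rcases le_total (Y : ℝ) (v z) with h1 | h1
    · exact S_low0 hA hB (by linarith) (by linarith) (by linarith) h1 t3
    · rw [Sz_ge h1]
      have : B * ((p + 1) * Y - (p + r + 1) * v z) ≤
          B * (((p : ℝ) + 1) * Y - (p + r + 1) * u) := by
        apply mul_le_mul_of_nonneg_left _ hB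
        have := mul_le_mul_of_nonneg_left t2 (show (0 : ℝ) ≤ p + r + 1 by linarith)
        linarith
      linarith
  · intro z hz1 hz2
    obtain ⟨q1, q2, q3⟩ := h.high z hz1 hz2
    have q4 : v z = p + 1 := by omega
    simp only [q1, q4]
    rw [Sz_le (natCast_le h.hYw.le)]
    push_cast
    linarith
  · intro z hz1 hz2
    obtain ⟨q1, q2, q3, q4⟩ := h.aft z hz1 hz2
    have t1 : (p : ℝ) + 1 ≤ v z := by exact_mod_cast q3
    have t2 : (y z : ℝ) ≤ p + r + 1 := by exact_mod_cast q2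
    have t4 : (v z : ℝ) ≤ p + r + 1 := by exact_mod_cast q4
    have t3 : (y1 : ℝ) ≤ y z := natCast_le q1
    rcases le_total (y z : ℝ) (v z) with h1 | h1
    · simp only [Sz_le h1]
      have e1 : A * (-(((r : ℝ) + 1) * ((p : ℝ) + r + 1 - y1))) ≤
          A * (((p : ℝ) + r + 1) * (p - v z) + (r + 1) * y z) := by
        apply mul_le_mul_of_nonneg_left _ hA
        nlinarith [mul_le_mul_of_nonneg_left t4 (show (0 : ℝ) ≤ p + r + 1 by linarith),
          mul_le_mul_of_nonneg_left t3 (show (0 : ℝ) ≤ r + 1 by linarith)]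
      have e2 : B * (r * y1) ≤ B * ((r : ℝ) * y z) := by
        apply mul_le_mul_of_nonneg_left _ hB
        apply mul_le_mul_of_nonneg_left t3 (by linarith)
      linarith
    · exact S_high0 hA hB (by linarith) (by linarith) h1 t1 t2

end DKWF.LX
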