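import Pool.Agent.Lib.MP_f05b2f_co.LX.Case1

/-!
The case in which the level `p` of `v` is crossed between two active runs of `y`.
-/

set_option maxRecDepth 100000

namespace DKWF.LX

open Finset

theorem caarith (p r : ℝ) (hp : 2 ≤ p) (hr : 2 ≤ r) : ∃ ρ : ℝ, 0 ≤ ρ ∧
    0 ≤ -((p + r + 3) * ((r + 1) * (r - 1)) + r * (p - 1)) +
      ((p + r + 3) * (r * (p + 2)) - p * (r - 1)) * ρ ∧
    0 ≤ -(r * (p - 1)) + ((p + r + 3) * (2 * (p + r + 1)) - p * (r - 1)) * ρ ∧
    0 ≤ ((p + r + 3) * (p * (r + 2)) - r * (p - 1)) +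
      -((p + r + 3) * ((p + 1) * (p - 1)) + p * (r - 1)) * ρ ∧
    0 ≤ ((p + r + 3) * (2 * (p + r + 1)) - r * (p - 1)) + -(p * (r - 1)) * ρ := by
  obtain ⟨a, rfl⟩ : ∃ a, p = 2 + a := ⟨p - 2, by ring⟩
  obtain ⟨b, rfl⟩ : ∃ b, r = 2 + b := ⟨r - 2, by ring⟩
  have ha : 0 ≤ a := by linarith
  have hb : 0 ≤ b := by linarith
  obtain ⟨ρ, g0, g1, g2, g3, gg⟩ := pick3
    (a1 := -((2 + a + (2 + b) + 3) * ((2 + b + 1) * (2 + b - 1)) + (2 + b) * (2 + a - 1)))
    (b1 := (2 + a + (2 + b) + 3) * ((2 + b) * (2 + a + 2)) - (2 + a) * (2 + b - 1))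
    (a2 := -((2 + b) * (2 + a - 1)))
    (b2 := (2 + a + (2 + b) + 3) * (2 * (2 + a + (2 + b) + 1)) - (2 + a) * (2 + b - 1))
    (a3 := 0) (b3 := 1) (by ring_nf; positivity) (by ring_nf; positivity) one_pos
  refine ⟨ρ, g0, g1, g2, ?_, ?_⟩
  · exact gg _ _ (by ring_nf; positivity) (by ring_nf; positivity) (by ring_nf; positivity)
      (by ring_nf; positivity)
  · exact gg _ _ (by ring_nf; positivity) (by ring_nf; positivity) (by ring_nf; positivity)
      (by ring_nf; positivity)

/-- general data: `y = l - f`, `v = l - g`, the level `p` of `v` is crossed at `t` -/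
structure Gen (k p r t : ℕ) (y v : ℕ → ℕ) : Prop extends Two k p r y v where
  ht0 : 0 < t
  htk : t < k
  hk : p + r + 3 ≤ k
  ym : ∀ a b, a ≤ b → b < k → y a ≤ y b
  vm : ∀ a b, a ≤ b → b < k → v a ≤ v b
  yq : ∀ z, z < k → y z ≤ p + r + 1
  vq : ∀ z, z < k → v z ≤ p + r + 1
  low : ∀ z, z < t → v z ≤ p
  high : ∀ z, t ≤ z → z < k → p < v z
  h1 : ∀ z, z < k → 0 < y z → y z < p + r + 1 → (0 < z → y (z - 1) < y z) → v z < y z
  h2 : ∀ z, z < k → 0 < y z → y z < p + r + 1 → (z + 1 < k → y z < y (z + 1)) → y z < v z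

variable {k p r t : ℕ} {y v : ℕ → ℕ}

theorem Gen.caseA (h : Gen k p r t y v) (hy0 : 0 < y (t - 1)) (hy1 : y t < p + r + 1)
    (hlt : y (t - 1) < y t) : False := by
  have ht0 := h.ht0
  have htk := h.htk
  have a1 : y (t - 1) < v (t - 1) := h.h2 (t - 1) (by omega) hy0 (by omega)
    (fun _ => by rw [Nat.sub_add_cancel ht0]; exact hlt)
  have a2 : v (t - 1) ≤ p := h.low (t - 1) (by omega)
  have a3 : v t < y t := h.h1 t htk (by omega) hy1 (fun _ => hlt)
  have a4 : p < v t := h.high t (le_refl _) htk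
  have p2 : (2 : ℝ) ≤ p := by exact_mod_cast (show 2 ≤ p by omega)
  have r2 : (2 : ℝ) ≤ r := by exact_mod_cast (show 2 ≤ r by omega)
  obtain ⟨ρ, hρ, g1, g2, g3, g4⟩ := caarith (p : ℝ) r p2 r2
  have hk : (p : ℝ) + r + 3 ≤ k := by exact_mod_cast h.hk
  have hQ : 0 < (p : ℝ) + r + 3 := by linarith
  obtain ⟨τ, hτ⟩ : ∃ τ : ℝ, ((p : ℝ) + r + 3) * τ = r * (p - 1) + p * (r - 1) * ρ := by
    refine ⟨(r * (p - 1) + p * (r - 1) * ρ) / ((p : ℝ) + r + 3), ?_⟩
    rw [mul_div_cancel₀ _ hQ.ne']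
  have hτ0 : 0 ≤ τ := by
    have h1 : 0 ≤ ((p : ℝ) + r + 3) * τ := by
      rw [hτ]
      have h2 : 0 ≤ (p : ℝ) - 1 := by linarith
      have h3 : 0 ≤ (r : ℝ) - 1 := by linarith
      positivity
    exact nonneg_of_mul_nonneg_right h1 hQ
  have c1 : τ ≤ -((r + 1) * ((r : ℝ) - 1)) + (r * (p + 2)) * ρ := by
    refine le_of_mul_le_mul_left ?_ hQ
    rw [hτ]; linarith
  have c2 : τ ≤ (2 * ((p : ℝ) + r + 1)) * ρ := by
    refine le_of_mul_le_mul_left ?_ hQ
    rw [hτ]; linarith
  have c3 : τ ≤ p * (r + 2) - ((p + 1) * ((p : ℝ) - 1)) * ρ := by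
    refine le_of_mul_le_mul_left ?_ hQ
    rw [hτ]; linarith
  have c4 : τ ≤ 2 * ((p : ℝ) + r + 1) := by
    refine le_of_mul_le_mul_left ?_ hQ
    rw [hτ]; linarith
  have c5 : τ ≤ (r + 1) + ρ * r := by
    refine le_of_mul_le_mul_left ?_ hQ
    rw [hτ]
    have h1 : (r : ℝ) * (p - 1) ≤ (p + r + 3) * (r + 1) := by nlinarith
    have h2 : (p : ℝ) * (r - 1) * ρ ≤ (p + r + 3) * (ρ * r) := by
      have : (p : ℝ) * (r - 1) ≤ (p + r + 3) * r := by nlinarith
      have := mul_le_mul_of_nonneg_right this hρ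
      linarith
    linarith
  have c6 : τ ≤ p + (p + 1) * ρ := by
    refine le_of_mul_le_mul_left ?_ hQ
    rw [hτ]
    have h1 : (r : ℝ) * (p - 1) ≤ (p + r + 3) * p := by nlinarith
    have h2 : (p : ℝ) * (r - 1) * ρ ≤ (p + r + 3) * ((p + 1) * ρ) := by
      have : (p : ℝ) * (r - 1) ≤ (p + r + 3) * (p + 1) := by nlinarith
      have := mul_le_mul_of_nonneg_right this hρ
      linarith
    linarith
  -- the first active slice
  have f1 : ∀ z, z < t → y z = 0 → v z + 2 ≤ p := by
    classical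
    have hex : ∃ z, 0 < y z := ⟨t - 1, hy0⟩
    have b1 := Nat.find_spec hex
    have b2 : Nat.find hex ≤ t - 1 := Nat.find_min' hex hy0
    have b3 : y (Nat.find hex) ≤ y (t - 1) := h.ym _ _ b2 (by omega)
    have b4 : v (Nat.find hex) < y (Nat.find hex) := by
      apply h.h1 _ (by omega) b1 (by omega)
      intro b5
      have b6 := Nat.find_min hex (m := Nat.find hex - 1) (by omega)
      omega
    intro z hz hz0
    have b5 : z < Nat.find hex := by
      by_contra hc
      have := h.ym _ _ (not_lt.1 hc) (by omega : z < k)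
      omega
    have b6 := h.vm z _ b5.le (by omega)
    omega
  have f2 : ∀ z, t ≤ z → z < k → y z = p + r + 1 → p + 3 ≤ v z := by
    classical
    intro z hz1 hz2 hz3
    have hex : ∃ n, t < n ∧ y n = p + r + 1 := ⟨z, by
      rcases Nat.lt_or_ge t z with h3 | h3
      · exact h3
      · have : z = t := le_antisymm h3 hz1
        rw [this] at hz3
        omega, hz3⟩
    have b1 := Nat.find_spec hex
    have b2 : Nat.find hex ≤ z := Nat.find_min' hex (by
      refine ⟨?_, hz3⟩
      rcases Nat.lt_or_ge t z with h3 | h3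
      · exact h3
      · have : z = t := le_antisymm h3 hz1
        rw [this] at hz3
        omega)
    have b3 : y (Nat.find hex - 1) < p + r + 1 := by
      rcases Nat.lt_or_ge t (Nat.find hex - 1) with h3 | h3
      · have b4 := Nat.find_min hex (m := Nat.find hex - 1) (by omega)
        have b5 := h.yq (Nat.find hex - 1) (by omega)
        rcases Nat.lt_or_ge (y (Nat.find hex - 1)) (p + r + 1) with h6 | h6
        · exact h6
        · exact absurd ⟨h3, by omega⟩ b4
      · have : Nat.find hex - 1 = t := by omega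
        rw [this]
        exact hy1
    have b4 : y t ≤ y (Nat.find hex - 1) := h.ym _ _ (by omega) (by omega)
    have b5 : y (Nat.find hex - 1) < v (Nat.find hex - 1) := by
      apply h.h2 _ (by omega) (by omega) b3
      intro _
      rw [Nat.sub_add_cancel (by omega)]
      omega
    have b6 := h.vm (Nat.find hex - 1) z (by omega) hz2
    omega
  have hS : ∀ z, z < k → τ ≤ Sz p r 1 ρ (y z) (v z) := by
    intro z hz
    rcases Nat.lt_or_ge z t with hzt | hzt
    · have b1 := h.ym z (t - 1) (by omega) (by omega)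
      have b2 := h.low z hzt
      have t1 : (y z : ℝ) + 1 ≤ p := natCast_lt (by omega)
      have t2 : (v z : ℝ) ≤ p := natCast_le b2
      have t3 : (0 : ℝ) ≤ y z := Nat.cast_nonneg _
      have t4 : (0 : ℝ) ≤ v z := Nat.cast_nonneg _
      rcases Nat.eq_zero_or_pos (y z) with h3 | h3
      · have b3 : (v z : ℝ) + 2 ≤ p := by exact_mod_cast f1 z hzt h3
        have h4 : (y z : ℝ) = 0 := by rw [h3]; simp
        refine le_trans ?_ (S_low zero_le_one hρ (by linarith) t3 (by rw [h4]; exact t4))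
        have := mul_le_mul_of_nonneg_left b3 (show (0 : ℝ) ≤ p + r + 1 by linarith)
        linarith
      · have t5 : (1 : ℝ) ≤ y z := by exact_mod_cast h3
        rcases le_total (y z : ℝ) (v z) with h4 | h4
        · rw [Sz_le h4]
          have e1 : 0 ≤ ((p : ℝ) + r + 1) * (p - v z) := mul_nonneg (by linarith) (by linarith)
          have e2 := mul_le_mul_of_nonneg_left t5 (show (0 : ℝ) ≤ r + 1 by linarith)
          have e3 := mul_le_mul_of_nonneg_left t5 (show (0 : ℝ) ≤ ρ * r by positivity)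
          linarith
        · rw [Sz_ge h4]
          have e1 := mul_le_mul_of_nonneg_left t1 (show (0 : ℝ) ≤ p by linarith)
          have e2 := mul_le_mul_of_nonneg_left t1 (show (0 : ℝ) ≤ ρ * (p + 1) by positivity)
          have e3 : 0 ≤ ρ * (((p : ℝ) + r + 1) * v z) := by positivity
          linarith
    · have b1 := h.ym t z hzt hz
      have b2 := h.high z hzt hz
      have b3 := h.yq z hz
      have b4 := h.vq z hz
      have t1 : (p : ℝ) + 2 ≤ y z := by exact_mod_cast (show p + 2 ≤ y z by omega)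
      have t2 : (p : ℝ) + 1 ≤ v z := natCast_lt b2
      have t3 : (y z : ℝ) ≤ p + r + 1 := by exact_mod_cast b3
      have t4 : (v z : ℝ) ≤ p + r + 1 := by exact_mod_cast b4
      rcases Nat.lt_or_ge (y z) (p + r + 1) with h3 | h3
      · have t5 : (y z : ℝ) ≤ p + r := by exact_mod_cast (show y z ≤ p + r by omega)
        rcases le_total (y z : ℝ) (v z) with h4 | h4
        · rw [Sz_le h4]
          have e1 := mul_le_mul_of_nonneg_left t4 (show (0 : ℝ) ≤ p + r + 1 by linarith)
          have e2 := mul_le_mul_of_nonneg_left t1 (show (0 : ℝ) ≤ r + 1 by linarith)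
          have e3 := mul_le_mul_of_nonneg_left t1 (show (0 : ℝ) ≤ ρ * r by positivity)
          linarith
        · have e4 := S_high (A := 1) hρ (show (0 : ℝ) ≤ r by linarith)
            (show (0 : ℝ) ≤ p by linarith) h4 t2 t3
          refine le_trans ?_ e4
          have e1 := mul_le_mul_of_nonneg_left t5 (show (0 : ℝ) ≤ p by linarith)
          have e2 := mul_le_mul_of_nonneg_left t5 (show (0 : ℝ) ≤ ρ * (p + 1) by positivity)
          linarith
      · have h4 : y z = p + r + 1 := le_antisymm b3 h3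
        have h5 : (y z : ℝ) = p + r + 1 := by rw [h4]; push_cast; ring
        have b5 : (p : ℝ) + 3 ≤ v z := by exact_mod_cast f2 z hzt hz h4
        rw [h5, Sz_ge t4]
        have e1 := mul_le_mul_of_nonneg_left b5 (show (0 : ℝ) ≤ ρ * (p + r + 1) by positivity)
        linarith
  have hsum : (k : ℝ) * τ ≤ ∑ z ∈ range k, Sz p r 1 ρ (y z) (v z) := by
    have := Finset.card_nsmul_le_sum (range k) (fun z => Sz p r 1 ρ (y z) (v z)) τ
      (fun z hz => hS z (mem_range.1 hz))
    rw [card_range, nsmul_eq_mul] at this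
    exact this
  have hle := h.sum_le zero_le_one hρ
  have s5 := mul_le_mul_of_nonneg_right hk hτ0
  linarith

end DKWF.LX
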