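import Pool.Agent.Lib.MP_f05b2f_co.LX.Sum
import Pool.Agent.Lib.MP_f05b2f_co.LX.C1b
import Pool.Agent.Lib.MP_f05b2f_co.LX.C2a
import Pool.Agent.Lib.MP_f05b2f_co.LX.C3a
import Pool.Agent.Lib.MP_f05b2f_co.LX.C4a

/-!
The four cases in which the level `p` of `v` is crossed inside an active run of `y`.
-/

namespace DKWF.LX

open Finset

/-- the two inequalities of a bad pair -/
structure Two (k p r : ℕ) (y v : ℕ → ℕ) : Prop where
  hI : -((r : ℝ) * ((p : ℝ) - 1) - 1) ≤ ∑ z ∈ range k,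
    (((p : ℝ) + r + 1) * max ((v z : ℝ) - y z) 0 - p * ((p : ℝ) + r + 1 - y z))
  hII : -((p : ℝ) * ((r : ℝ) - 1) - 1) ≤ ∑ z ∈ range k,
    (((p : ℝ) + r + 1) * max ((y z : ℝ) - v z) 0 - r * y z)

theorem Two.sum_le {k p r : ℕ} {y v : ℕ → ℕ} (h : Two k p r y v) {A B : ℝ} (hA : 0 ≤ A)
    (hB : 0 ≤ B) : ∑ z ∈ range k, Sz p r A B (y z) (v z) ≤
      A * ((r : ℝ) * ((p : ℝ) - 1) - 1) + B * ((p : ℝ) * ((r : ℝ) - 1) - 1) := by
  have e : ∑ z ∈ range k, Sz p r A B (y z) (v z) =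
      -A * ∑ z ∈ range k,
        (((p : ℝ) + r + 1) * max ((v z : ℝ) - y z) 0 - p * ((p : ℝ) + r + 1 - y z)) -
      B * ∑ z ∈ range k, (((p : ℝ) + r + 1) * max ((y z : ℝ) - v z) 0 - r * y z) := by
    rw [Finset.mul_sum, Finset.mul_sum, ← Finset.sum_sub_distrib]
    rfl
  rw [e]
  have h1 := mul_le_mul_of_nonneg_left h.hI hA
  have h2 := mul_le_mul_of_nonneg_left h.hII hB
  linarith

/-- the level `p` of `v` is crossed at `t`, inside the active run `[s, e)` of `y` -/
structure Dat (k s t e p r Y u w m y1 : ℕ) (y v : ℕ → ℕ) : Prop extends Two k p r y v where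
  hst : s < t
  hte : t < e
  hek : e ≤ k
  hbs : e ≤ s + t
  hp : 1 ≤ p
  hr : 1 ≤ r
  hk : p + r + 3 ≤ k
  hup : u ≤ p
  hpw : p < w
  hwq : w ≤ p + r + 1
  huY : u < Y
  hYw : Y < w
  low : ∀ z, s ≤ z → z < t → y z = Y ∧ u ≤ v z ∧ v z ≤ p
  high : ∀ z, t ≤ z → z < e → y z = Y ∧ p < v z ∧ v z ≤ w
  bef : ∀ z, z < s → y z ≤ m ∧ v z ≤ u
  aft : ∀ z, e ≤ z → z < k → y1 ≤ y z ∧ y z ≤ p + r + 1 ∧ w ≤ v z ∧ v z ≤ p + r + 1
  hm : m = 0 ∨ m < u
  hys : y (s - 1) = m
  hmv : 0 < m → m < v (s - 1)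
  hvs : v s = u
  hve : v (e - 1) = w
  hy1 : y1 = p + r + 1 ∨ (y1 ≤ p + r ∧ w < y1)
  hye : e < k → y e = y1 ∧ v e ≤ y1
  hke : e = k → y1 = p + r + 1

section

variable {k s t e p r Y u w m y1 : ℕ} {y v : ℕ → ℕ}

theorem natCast_le {a b : ℕ} (h : a ≤ b) : (a : ℝ) ≤ b := by exact_mod_cast h

theorem natCast_lt {a b : ℕ} (h : a < b) : (a : ℝ) + 1 ≤ b := by exact_mod_cast h

/-- `u = p` -/
theorem Dat.case3 (h : Dat k s t e p r Y u w m y1 y v) (hu : u = p) : False := by
  subst hu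
  have hs : 0 < s := by have := h.hte; have := h.hbs; omega
  have p1 : (1 : ℝ) ≤ (u : ℝ) := by exact_mod_cast h.hp
  have r1 : (1 : ℝ) ≤ (r : ℝ) := by exact_mod_cast h.hr
  have Y1 : (u : ℝ) + 1 ≤ Y := natCast_lt h.huY
  have Y2 : (Y : ℝ) + 1 ≤ w := natCast_lt h.hYw
  have w2 : (w : ℝ) ≤ u + r + 1 := by exact_mod_cast h.hwq
  have w1 : (u : ℝ) + 1 ≤ w := natCast_lt h.hpw
  have m0 : (0 : ℝ) ≤ m := Nat.cast_nonneg _
  have hm : (m : ℝ) = 0 ∨ (1 ≤ (m : ℝ) ∧ (m : ℝ) ≤ u - 1) := by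
    rcases Nat.eq_zero_or_pos m with h1 | h1
    · left; exact_mod_cast h1
    · right
      refine ⟨by exact_mod_cast h1, ?_⟩
      rcases h.hm with h2 | h2
      · omega
      · have := natCast_lt h2
        linarith
  have mp : (m : ℝ) ≤ u := by rcases hm with h1 | h1 <;> linarith
  obtain ⟨A, B, hA, hB, g1, g2, g3, g4⟩ := c3arith (u : ℝ) r ((u : ℝ) + r + 1 - Y) m p1
    (by linarith) (by linarith) hm
  have gY : (u : ℝ) + r + 1 - ((u : ℝ) + r + 1 - Y) = Y := by ring
  rw [gY] at g1 g4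
  have hle := h.sum_le hA hB
  have ht := total (fun z => Sz u r A B (y z) (v z)) 0 0 (le_refl _) (le_refl _) h.hst h.hte h.hek
    h.hbs ?_ ?_ ?_ ?_ ?_
  · -- the mandatory slices
    have s1 : (r + 1) * m * A + r * m * B ≤ Sz u r A B (y (s - 1)) (v (s - 1)) := by
      have e1 : (v (s - 1) : ℝ) ≤ u := natCast_le (h.bef (s - 1) (by omega)).2
      rw [h.hys]
      have e2 : (m : ℝ) ≤ v (s - 1) := by
        rcases Nat.eq_zero_or_pos m with h1 | h1
        · rw [h1]; exact_mod_cast Nat.zero_le _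
        · exact natCast_le (h.hmv h1).le
      rw [Sz_le e2]
      have : 0 ≤ A * (((u : ℝ) + r + 1) * (u - v (s - 1))) := by
        apply mul_nonneg hA (mul_nonneg (by linarith) (by linarith))
      linarith
    have s2 : Sz u r A B (y s) (v s) = A * (u * ((u : ℝ) + r + 1 - Y)) -
        B * ((u + 1) * Y - (u + r + 1) * u) := by
      rw [(h.low s (le_refl _) h.hst).1, h.hvs, Sz_ge (natCast_le h.huY.le)]
    have s3 : Sz u r A B (y (e - 1)) (v (e - 1)) = A * (((u : ℝ) + r + 1) * (u - w) + (r + 1) * Y) +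
        B * (r * Y) := by
      rw [(h.high (e - 1) (by have := h.hte; omega) (by have := h.hte; omega)).1, h.hve,
        Sz_le (natCast_le h.hYw.le)]
    have s4 : (0 : ℝ) ≤ if e < k then Sz u r A B (y e) (v e) else 0 := by
      split_ifs with hek
      · obtain ⟨q1, q2⟩ := h.hye hek
        obtain ⟨q3, q4, q5, q6⟩ := h.aft e (le_refl _) hek
        rw [Sz_ge (natCast_le (by rw [q1]; exact q2))]
        have t1 : (w : ℝ) ≤ v e := natCast_le q5
        have t2 : (y e : ℝ) ≤ u + r + 1 := by exact_mod_cast q4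
        have t3 : 0 ≤ A * (u * ((u : ℝ) + r + 1 - y e)) :=
          mul_nonneg hA (mul_nonneg (by linarith) (by linarith))
        have t4 : ((u : ℝ) + 1) * y e - (u + r + 1) * v e ≤ 0 := by
          nlinarith [mul_le_mul_of_nonneg_left t2 (show (0 : ℝ) ≤ u + 1 by linarith),
            mul_le_mul_of_nonneg_left (w1.trans t1) (show (0 : ℝ) ≤ u + r + 1 by linarith)]
        have t5 := mul_nonneg hB (neg_nonneg.2 t4)
        linarith
      · exact le_refl _
    have s3' : A * (-(((r : ℝ) + 1) * ((u : ℝ) + r + 1 - Y))) + B * (r * Y) ≤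
        A * (((u : ℝ) + r + 1) * (u - w) + (r + 1) * Y) + B * (r * Y) := by
      have : A * (-(((r : ℝ) + 1) * ((u : ℝ) + r + 1 - Y))) ≤
          A * (((u : ℝ) + r + 1) * (u - w) + (r + 1) * Y) := by
        apply mul_le_mul_of_nonneg_left _ hA
        nlinarith [mul_le_mul_of_nonneg_left w2 (show (0 : ℝ) ≤ u + r + 1 by linarith)]
      linarith
    rw [s2, s3] at ht
    linarith
  · intro z hz
    obtain ⟨q1, q2⟩ := h.bef z hz
    have t1 : (y z : ℝ) ≤ m := natCast_le q1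
    have t2 : (v z : ℝ) ≤ u := natCast_le q2
    have t3 : (0 : ℝ) ≤ y z := Nat.cast_nonneg _
    have t4 : (0 : ℝ) ≤ v z := Nat.cast_nonneg _
    rcases le_total (y z : ℝ) (v z) with h1 | h1
    · simp only [Sz_le h1]
      have e1 : 0 ≤ ((u : ℝ) + r + 1) * (u - v z) + (r + 1) * y z :=
        add_nonneg (mul_nonneg (by linarith) (by linarith)) (by positivity)
      positivity
    · simp only [Sz_ge h1]
      have e1 : A * (u * (u + r + 1 - m)) ≤ A * (u * (u + r + 1 - (y z : ℝ))) := by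
        apply mul_le_mul_of_nonneg_left _ hA
        apply mul_le_mul_of_nonneg_left _ (by linarith)
        linarith
      have e2 : B * ((u + 1) * y z - (u + r + 1) * v z) ≤ B * (((u : ℝ) + 1) * m) := by
        apply mul_le_mul_of_nonneg_left _ hB
        have := mul_le_mul_of_nonneg_left t1 (show (0 : ℝ) ≤ u + 1 by linarith)
        have : 0 ≤ ((u : ℝ) + r + 1) * v z := by positivity
        linarith
      linarith
  · intro z hz1 hz2
    obtain ⟨q1, q2, q3⟩ := h.low z hz1 hz2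
    have q4 : v z = u := le_antisymm q3 q2
    simp only [q1, q4]
    rw [Sz_ge (natCast_le h.huY.le)]
    linarith
  · intro z hz1 hz2
    obtain ⟨q1, q2, q3⟩ := h.low z (by omega) hz2
    have q4 : v z = u := le_antisymm q3 q2
    simp only [q1, q4]
    rw [Sz_ge (natCast_le h.huY.le)]
    linarith
  · intro z hz1 hz2
    obtain ⟨q1, q2, q3⟩ := h.high z hz1 hz2
    have t1 : (v z : ℝ) ≤ w := natCast_le q3
    have t2 : (u : ℝ) + 1 ≤ v z := natCast_lt q2
    simp only [q1]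
    rcases le_total (Y : ℝ) (v z) with h1 | h1
    · rw [Sz_le h1]
      have : A * (-(((r : ℝ) + 1) * ((u : ℝ) + r + 1 - Y))) ≤
          A * (((u : ℝ) + r + 1) * (u - v z) + (r + 1) * Y) := by
        apply mul_le_mul_of_nonneg_left _ hA
        nlinarith [mul_le_mul_of_nonneg_left (t1.trans w2) (show (0 : ℝ) ≤ u + r + 1 by linarith)]
      linarith
    · rw [Sz_ge h1]
      have e1 : 0 ≤ A * (u * ((u : ℝ) + r + 1 - Y)) :=
        mul_nonneg hA (mul_nonneg (by linarith) (by linarith))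
      have e2 : B * ((u + 1) * Y - (u + r + 1) * v z) ≤ 0 := by
        apply mul_nonpos_of_nonneg_of_nonpos hB
        nlinarith [mul_le_mul_of_nonneg_left t2 (show (0 : ℝ) ≤ u + r + 1 by linarith),
          mul_le_mul_of_nonneg_left (Y2.trans w2) (show (0 : ℝ) ≤ u + 1 by linarith)]
      linarith
  · intro z hz1 hz2
    obtain ⟨q1, q2, q3, q4⟩ := h.aft z hz1 hz2
    have t1 : (w : ℝ) ≤ v z := natCast_le q3
    have t2 : (y z : ℝ) ≤ u + r + 1 := by exact_mod_cast q2
    have t4 : (v z : ℝ) ≤ u + r + 1 := by exact_mod_cast q4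
    have t3 : (Y : ℝ) ≤ y z := by
      have : Y ≤ y z := by
        have h1 := h.hy1
        have h2 := h.hYw
        have h3 := h.hwq
        omega
      exact natCast_le this
    rcases le_total (y z : ℝ) (v z) with h1 | h1
    · simp only [Sz_le h1]
      have e1 : A * (-(((r : ℝ) + 1) * ((u : ℝ) + r + 1 - Y))) ≤
          A * (((u : ℝ) + r + 1) * (u - v z) + (r + 1) * y z) := by
        apply mul_le_mul_of_nonneg_left _ hA
        nlinarith [mul_le_mul_of_nonneg_left t4 (show (0 : ℝ) ≤ u + r + 1 by linarith)]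
      have e2 : B * (r * Y) ≤ B * ((r : ℝ) * y z) := by
        apply mul_le_mul_of_nonneg_left _ hB
        apply mul_le_mul_of_nonneg_left t3 (by linarith)
      linarith
    · simp only [Sz_ge h1]
      have e1 : 0 ≤ A * (u * ((u : ℝ) + r + 1 - y z)) :=
        mul_nonneg hA (mul_nonneg (by linarith) (by linarith))
      have e2 : B * ((u + 1) * y z - (u + r + 1) * v z) ≤ 0 := by
        apply mul_nonpos_of_nonneg_of_nonpos hB
        nlinarith [mul_le_mul_of_nonneg_left (w1.trans t1) (show (0 : ℝ) ≤ u + r + 1 by linarith),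
          mul_le_mul_of_nonneg_left t2 (show (0 : ℝ) ≤ u + 1 by linarith)]
      linarith

end

end DKWF.LX
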