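import Pool.Agent.Lib.MP_f05b2f_co.LX.Run
import Pool.Agent.Lib.MP_f05b2f_co.D.Ph

/-!
The two-dimensional lemma: a pair of partitions below the value of the order with `k` first has
an active run of `f` with one of three good configurations.
-/

namespace DKWF.LX

open Finset

theorem Ph_bound {l e : ℕ} (hl : 0 < l) (he : e ≤ l) (S : ℕ) :
    l * Ph l e S ≤ e * S + e * (l - e) := by
  obtain ⟨q, s, hs, rfl⟩ : ∃ q s, s < l ∧ S = q * l + s :=
    ⟨S / l, S % l, Nat.mod_lt _ hl, (Nat.div_add_mod' S l).symm⟩
  rw [Ph_eq hl he q hs.le]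
  obtain ⟨d, rfl⟩ := Nat.exists_eq_add_of_le he
  have e1 : e + d - e = d := by omega
  rw [e1]
  rcases le_total e s with h | h
  · rw [min_eq_left h]
    nlinarith [Nat.mul_le_mul_left e h]
  · rw [min_eq_right h]
    nlinarith [Nat.mul_le_mul_left d h]

theorem main {k l : ℕ} (hl : 2 ≤ l) (hk : l + 2 ≤ k) {f g : ℕ → ℕ} (hf : Antitone f)
    (hg : Antitone g) (hfl : ∀ z, f z ≤ l) (hgl : ∀ z, g z ≤ l)
    (h1 : ∀ z < k, 0 < f z → f z < l → (0 < z → f z < f (z - 1)) → f z < g z)
    (h2 : ∀ z < k, 0 < f z → f z < l → (z + 1 < k → f (z + 1) < f z) → g z < f z)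
    (hbad : ∑ z ∈ range k, min (f z) (g z) <
      H [k, l] (∑ z ∈ range k, f z) (∑ z ∈ range k, g z)) :
    ∃ s e, s < e ∧ e ≤ k ∧ 0 < f s ∧ f s < l ∧ (∀ z, s ≤ z → z < e → f z = f s) ∧
      (0 < s → f s < f (s - 1)) ∧ (e < k → f e < f s) ∧
      ((∃ t, s < t ∧ t < e ∧ g t < g (t - 1) ∧ s + t < e ∧ k + s < e + t) ∨
        (s + (k - e) < e ∧ g (s + (k - e)) = l) ∨ (2 * s < e ∧ g (e - 1 - s) = 0)) := by
  have hk0 : 0 < k := by omega
  have hl0 : 0 < l := by omega
  have hSk : ∑ z ∈ range k, f z ≤ k * l := by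
    have := Finset.sum_le_card_nsmul (range k) f l (fun z _ => hfl z)
    simpa using this
  have hTk : ∑ z ∈ range k, g z ≤ k * l := by
    have := Finset.sum_le_card_nsmul (range k) g l (fun z _ => hgl z)
    simpa using this
  have hDS : ∑ z ∈ range k, min (f z) (g z) ≤ ∑ z ∈ range k, f z :=
    Finset.sum_le_sum (fun z _ => min_le_left _ _)
  -- `T < k * l`
  have hTlt : ∑ z ∈ range k, g z < k * l := by
    rcases lt_or_eq_of_le hTk with h | h
    · exact h
    · exfalso
      have e1 : ∀ z ∈ range k, g z = l := by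
        have e2 : ∑ z ∈ range k, g z = ∑ _z ∈ range k, l := by
          rw [h, sum_const, card_range, smul_eq_mul]
        exact (Finset.sum_eq_sum_iff_of_le (fun z _ => hgl z)).1 e2
      have e2 : ∑ z ∈ range k, min (f z) (g z) = ∑ z ∈ range k, f z := by
        apply Finset.sum_congr rfl
        intro z hz
        rw [e1 z hz]
        exact min_eq_left (hfl z)
      have e3 := H_le_left (pos_two hk0 hl0) (∑ z ∈ range k, f z) (b := ∑ z ∈ range k, g z)
        (by simpa using hTk)
      omega
  obtain ⟨E, hE⟩ : ∃ E, E = (∑ z ∈ range k, g z) / k := ⟨_, rfl⟩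
  have hkE : k * E ≤ ∑ z ∈ range k, g z := by
    rw [hE]; exact Nat.mul_div_le _ _
  have hkE1 : ∑ z ∈ range k, g z ≤ k * (E + 1) := by
    rw [hE]; exact (Nat.lt_mul_div_succ _ hk0).le
  have hEl : E < l := by
    rw [hE]; exact Nat.div_lt_of_lt_mul hTlt
  obtain ⟨p, r, hr, hpr⟩ : ∃ p r, r = E ∧ l = p + r + 1 := ⟨l - 1 - E, E, rfl, by omega⟩
  subst hr
  subst hpr
  have c1 : ∑ z ∈ range k, min (f z) (g z) + 1 ≤ Ph (p + r + 1) (r + 1) (∑ z ∈ range k, f z) :=
    lt_of_lt_of_le hbad (kf_le_row hk0 hl0 (by omega) hSk hkE1)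
  have c2 : ∑ z ∈ range k, min (f z) (g z) + 1 + k * r ≤
      Ph (p + r + 1) r (∑ z ∈ range k, f z) + ∑ z ∈ range k, g z := by
    have := kf_le_row' hk0 hl0 (e := r) (by omega) hSk hkE
    omega
  -- the crossing
  obtain ⟨t, htk, hta, htb⟩ : ∃ t, t ≤ k ∧ (∀ z, z < t → r + 1 ≤ g z) ∧
      ∀ z, t ≤ z → z < k → g z ≤ r := by
    classical
    have hex : ∃ z, k ≤ z ∨ g z ≤ r := ⟨k, Or.inl (le_refl _)⟩
    refine ⟨Nat.find hex, Nat.find_min' hex (Or.inl (le_refl _)), ?_, ?_⟩
    · intro z hz
      have := Nat.find_min hex hz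
      push Not at this
      omega
    · intro z hz1 hz2
      rcases Nat.find_spec hex with h3 | h3
      · omega
      · exact (hg hz1).trans h3
  have ht1 : t < k ∧ 0 < f t := by
    by_contra hc
    have h3 : ∀ z, t ≤ z → z < k → f z = 0 := by
      intro z hz1 hz2
      by_contra h4
      exact hc ⟨by omega, lt_of_lt_of_le (Nat.pos_of_ne_zero h4) (hf hz1)⟩
    have h4 := Ph_sum (l := p + r + 1) (e := r + 1) hl0 0 k hfl
    rw [zero_add, Ph_zero, zero_add] at h4
    have h5 : ∑ z ∈ range k, min (f z) (r + 1) ≤ ∑ z ∈ range k, min (f z) (g z) := by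
      apply Finset.sum_le_sum
      intro z hz
      have hz := mem_range.1 hz
      rcases Nat.lt_or_ge z t with h6 | h6
      · have := hta z h6
        omega
      · have := h3 z h6 hz
        omega
    omega
  have ht0 : 0 < t ∧ f (t - 1) < p + r + 1 := by
    by_contra hc
    have h3 : ∀ z, z < t → f z = p + r + 1 := by
      intro z hz
      by_contra h4
      have h5 := hfl z
      have h6 : f (t - 1) ≤ f z := hf (by omega)
      exact hc ⟨by omega, by omega⟩
    have h4 := Ph_sum (l := p + r + 1) (e := r) hl0 0 k hfl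
    rw [zero_add, Ph_zero, zero_add] at h4
    have h5 : ∑ z ∈ range k, (min (f z) r + g z) ≤ ∑ z ∈ range k, (min (f z) (g z) + r) := by
      apply Finset.sum_le_sum
      intro z hz
      have hz := mem_range.1 hz
      rcases Nat.lt_or_ge z t with h6 | h6
      · have := h3 z h6
        have := hgl z
        omega
      · have := htb z h6 hz
        omega
    rw [sum_add_distrib, sum_add_distrib, sum_const, card_range, smul_eq_mul] at h5
    omega
  obtain ⟨htk', hft⟩ := ht1
  obtain ⟨ht0, hft'⟩ := ht0
  -- the two inequalities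
  have htwo : Two k p r (fun z => p + r + 1 - f z) (fun z => p + r + 1 - g z) := by
    have b1 := Ph_bound hl0 (show r + 1 ≤ p + r + 1 by omega) (∑ z ∈ range k, f z)
    have b2 := Ph_bound hl0 (show r ≤ p + r + 1 by omega) (∑ z ∈ range k, f z)
    have e1 : p + r + 1 - (r + 1) = p := by omega
    have e2 : p + r + 1 - r = p + 1 := by omega
    rw [e1] at b1
    rw [e2] at b2
    have ef : ∀ z, ((p + r + 1 - f z : ℕ) : ℝ) = (p : ℝ) + r + 1 - f z := fun z => by
      rw [Nat.cast_sub (hfl z)]; push_cast; ring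
    have eg : ∀ z, ((p + r + 1 - g z : ℕ) : ℝ) = (p : ℝ) + r + 1 - g z := fun z => by
      rw [Nat.cast_sub (hgl z)]; push_cast; ring
    have c1' : ((p : ℝ) + r + 1) * (∑ z ∈ range k, ((min (f z) (g z) : ℕ) : ℝ) + 1) ≤
        (r + 1) * ∑ z ∈ range k, (f z : ℝ) + (r + 1) * p := by
      have h3 := (Nat.mul_le_mul_left (p + r + 1) c1).trans b1
      have h4 : (((p + r + 1) * (∑ z ∈ range k, min (f z) (g z) + 1) : ℕ) : ℝ) ≤
        (((r + 1) * ∑ z ∈ range k, f z + (r + 1) * p : ℕ) : ℝ) := by exact_mod_cast h3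
      push_cast at h4 ⊢
      exact h4
    have c2' : ((p : ℝ) + r + 1) * (∑ z ∈ range k, ((min (f z) (g z) : ℕ) : ℝ) + 1 + k * r) ≤
        (r * ∑ z ∈ range k, (f z : ℝ) + r * (p + 1)) + (p + r + 1) * ∑ z ∈ range k, (g z : ℝ) := by
      have h3 := Nat.mul_le_mul_left (p + r + 1) c2
      rw [Nat.mul_add (p + r + 1) (Ph _ _ _)] at h3
      have h5 := h3.trans (Nat.add_le_add_right b2 _)
      have h4 : (((p + r + 1) * (∑ z ∈ range k, min (f z) (g z) + 1 + k * r) : ℕ) : ℝ) ≤
        ((r * ∑ z ∈ range k, f z + r * (p + 1) + (p + r + 1) * ∑ z ∈ range k, g z : ℕ) : ℝ) := by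
        exact_mod_cast h5
      push_cast at h4 ⊢
      exact h4
    constructor
    · have h3 : ∑ z ∈ range k, (((p : ℝ) + r + 1) *
          max (((p + r + 1 - g z : ℕ) : ℝ) - ((p + r + 1 - f z : ℕ) : ℝ)) 0 -
            p * ((p : ℝ) + r + 1 - ((p + r + 1 - f z : ℕ) : ℝ))) =
          ∑ z ∈ range k, ((r + 1) * (f z : ℝ) - (p + r + 1) * ((min (f z) (g z) : ℕ) : ℝ)) := by
        apply Finset.sum_congr rfl
        intro z _
        rw [ef, eg]
        rcases le_total (f z) (g z) with h6 | h6
        · rw [min_eq_left h6, max_eq_right (by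
            have : (f z : ℝ) ≤ g z := natCast_le h6
            linarith)]
          ring
        · rw [min_eq_right h6, max_eq_left (by
            have : (g z : ℝ) ≤ f z := natCast_le h6
            linarith)]
          ring
      rw [h3, Finset.sum_sub_distrib, ← Finset.mul_sum, ← Finset.mul_sum]
      linarith
    · have h3 : ∑ z ∈ range k, (((p : ℝ) + r + 1) *
          max (((p + r + 1 - f z : ℕ) : ℝ) - ((p + r + 1 - g z : ℕ) : ℝ)) 0 -
            r * ((p + r + 1 - f z : ℕ) : ℝ)) =
          ∑ z ∈ range k, ((p + r + 1) * (g z : ℝ) - (p + r + 1) * ((min (f z) (g z) : ℕ) : ℝ) +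
            r * (f z : ℝ) - r * (p + r + 1)) := by
        apply Finset.sum_congr rfl
        intro z _
        rw [ef, eg]
        rcases le_total (f z) (g z) with h6 | h6
        · rw [min_eq_left h6, max_eq_left (by
            have : (f z : ℝ) ≤ g z := natCast_le h6
            linarith)]
          ring
        · rw [min_eq_right h6, max_eq_right (by
            have : (g z : ℝ) ≤ f z := natCast_le h6
            linarith)]
          ring
      rw [h3, Finset.sum_sub_distrib, Finset.sum_add_distrib, Finset.sum_sub_distrib,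
        ← Finset.mul_sum, ← Finset.mul_sum, ← Finset.mul_sum, sum_const, card_range, nsmul_eq_mul]
      linarith
  have hgen : Gen k p r t (fun z => p + r + 1 - f z) (fun z => p + r + 1 - g z) := by
    refine ⟨htwo, ht0, htk', by omega, ?_, ?_, ?_, ?_, ?_, ?_, ?_, ?_⟩
    · intro a b hab _
      have := hf hab
      omega
    · intro a b hab _
      have := hg hab
      omega
    · intro z _
      omega
    · intro z _
      omega
    · intro z hz
      have := hta z hz
      omega
    · intro z hz hzk
      have := htb z hz hzk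
      omega
    · intro z hz h3 h4 h5
      have h6 := h1 z hz (by omega) (by omega) (fun h7 => by
        have := h5 h7
        have := hfl z
        omega)
      have := hgl z
      omega
    · intro z hz h3 h4 h5
      have h6 := h2 z hz (by omega) (by omega) (fun h7 => by
        have := h5 h7
        have := hfl (z + 1)
        omega)
      have := hfl z
      omega
  rcases Nat.lt_or_ge (f t) (f (t - 1)) with hlt | hge
  · exfalso
    have := hfl t
    exact hgen.caseA (by omega) (by omega) (by omega)
  · have hft1 : f (t - 1) = f t := le_antisymm hge (hf (by omega))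
    classical
    -- the run
    have hex1 : ∃ z, f z = f t := ⟨t, rfl⟩
    have hex2 : ∃ z, t ≤ z ∧ (k ≤ z ∨ f z ≠ f t) := ⟨k, htk, Or.inl (le_refl _)⟩
    obtain ⟨s, hs⟩ : ∃ s, s = Nat.find hex1 := ⟨_, rfl⟩
    obtain ⟨e, he⟩ : ∃ e, e = Nat.find hex2 := ⟨_, rfl⟩
    have hst : s ≤ t - 1 := by rw [hs]; exact Nat.find_min' hex1 hft1
    have hek : e ≤ k := by rw [he]; exact Nat.find_min' hex2 ⟨htk, Or.inl (le_refl _)⟩
    have hfs : f s = f t := by rw [hs]; exact Nat.find_spec hex1
    have hte : t < e := by
      have h3 := Nat.find_spec hex2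
      rw [← he] at h3
      rcases lt_or_eq_of_le h3.1 with h4 | h4
      · exact h4
      · exfalso
        rw [← h4] at h3
        rcases h3.2 with h5 | h5
        · omega
        · exact h5 rfl
    have hrun : ∀ z, s ≤ z → z < e → f z = f t := by
      intro z hz1 hz2
      rcases Nat.lt_or_ge z t with h3 | h3
      · apply le_antisymm
        · rw [← hfs]; exact hf hz1
        · exact hf h3.le
      · rw [he] at hz2
        have h4 := Nat.find_min hex2 hz2
        by_contra h5
        exact h4 ⟨h3, Or.inr h5⟩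
    have hs1 : 0 < s → f t < f (s - 1) := by
      intro h3
      have h4 := Nat.find_min hex1 (m := s - 1) (by omega)
      have h5 : f t ≤ f (s - 1) := hf (by omega)
      omega
    have he1 : e < k → f e < f t := by
      intro h3
      have h4 := Nat.find_spec hex2
      rw [← he] at h4
      have h5 : f e ≤ f t := hf (by omega)
      rcases h4.2 with h6 | h6
      · omega
      · omega
    have hR : Run k p r s t e (fun z => p + r + 1 - f z) (fun z => p + r + 1 - g z) := by
      have := hfl t
      refine ⟨hgen, by omega, hte, hek, by omega, by omega, ?_, ?_, ?_⟩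
      · intro z hz1 hz2
        have := hrun z hz1 hz2
        omega
      · intro h3
        have := hs1 h3
        have := hfl (s - 1)
        omega
      · intro h3
        have := he1 h3
        omega
    refine ⟨s, e, by omega, hek, by omega, by omega, ?_, ?_, ?_, ?_⟩
    · intro z hz1 hz2
      rw [hrun z hz1 hz2, hfs]
    · intro h3
      rw [hfs]; exact hs1 h3
    · intro h3
      rw [hfs]; exact he1 h3
    · by_contra hno
      push Not at hno
      obtain ⟨n1, n2, n3⟩ := hno
      refine hR.false (by omega) ?_ ?_ ?_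
      · intro h3
        have := n2 h3
        have := hgl (s + (k - e))
        omega
      · intro h3
        have := n3 h3
        omega
      · by_contra h3
        push Not at h3
        have h4 := htb t (le_refl _) htk'
        have h5 := hta (t - 1) (by omega)
        have := n1 t (by omega) hte (by omega) (by omega)
        omega

end DKWF.LX
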