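import Mathlib

/-!
Choice of a multiplier: finitely many lower bounds, and constraints that hold at each of them.
-/

namespace DKWF.LX

/-- the largest of the lower bounds `- a / b` and `0` -/
theorem pick (L : List (ℝ × ℝ)) (hL : ∀ c ∈ L, 0 < c.2) :
    ∃ ρ : ℝ, 0 ≤ ρ ∧ (∀ c ∈ L, 0 ≤ c.1 + c.2 * ρ) ∧
      ∀ s t : ℝ, 0 ≤ s → (∀ c ∈ L, 0 ≤ s * c.2 - t * c.1) → 0 ≤ s + t * ρ := by
  induction L with
  | nil =>
    refine ⟨0, le_refl _, by simp, ?_⟩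
    intro s t hs _
    simpa using hs
  | cons c L ih =>
    obtain ⟨ρ, h0, h1, h2⟩ := ih (fun c hc => hL c (List.mem_cons_of_mem _ hc))
    have hc : 0 < c.2 := hL c List.mem_cons_self
    rcases le_total (-c.1 / c.2) ρ with h | h
    · refine ⟨ρ, h0, ?_, ?_⟩
      · intro c' hc'
        rcases List.mem_cons.1 hc' with rfl | h3
        · rw [div_le_iff₀ hc] at h
          linarith [mul_comm ρ c'.2]
        · exact h1 c' h3
      · intro s t hs h3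
        exact h2 s t hs (fun c' hc' => h3 c' (List.mem_cons_of_mem _ hc'))
    · refine ⟨-c.1 / c.2, h0.trans h, ?_, ?_⟩
      · intro c' hc'
        rcases List.mem_cons.1 hc' with rfl | h3
        · rw [mul_div_cancel₀ _ hc.ne']
          linarith
        · have h4 := h1 c' h3
          have h5 : 0 < c'.2 := hL c' (List.mem_cons_of_mem _ h3)
          have h6 := mul_le_mul_of_nonneg_left h h5.le
          linarith
      · intro s t hs h3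
        have h4 := h3 c List.mem_cons_self
        have h5 : s + t * (-c.1 / c.2) = (s * c.2 - t * c.1) / c.2 := by
          field_simp
          ring
        rw [h5]
        exact div_nonneg h4 hc.le

theorem pick3 {a1 b1 a2 b2 a3 b3 : ℝ} (h1 : 0 < b1) (h2 : 0 < b2) (h3 : 0 < b3) :
    ∃ ρ : ℝ, 0 ≤ ρ ∧ 0 ≤ a1 + b1 * ρ ∧ 0 ≤ a2 + b2 * ρ ∧ 0 ≤ a3 + b3 * ρ ∧
      ∀ s t : ℝ, 0 ≤ s → 0 ≤ s * b1 - t * a1 → 0 ≤ s * b2 - t * a2 → 0 ≤ s * b3 - t * a3 →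
        0 ≤ s + t * ρ := by
  obtain ⟨ρ, g0, g1, g2⟩ := pick [(a1, b1), (a2, b2), (a3, b3)] (by simp [h1, h2, h3])
  simp only [List.mem_cons, List.not_mem_nil, or_false, forall_eq_or_imp, forall_eq] at g1 g2
  exact ⟨ρ, g0, g1.1, g1.2.1, g1.2.2, fun s t k0 k1 k2 k3 => g2 s t k0 ⟨k1, k2, k3⟩⟩

theorem pick4 {a1 b1 a2 b2 a3 b3 a4 b4 : ℝ} (h1 : 0 < b1) (h2 : 0 < b2) (h3 : 0 < b3)
    (h4 : 0 < b4) :
    ∃ ρ : ℝ, 0 ≤ ρ ∧ 0 ≤ a1 + b1 * ρ ∧ 0 ≤ a2 + b2 * ρ ∧ 0 ≤ a3 + b3 * ρ ∧ 0 ≤ a4 + b4 * ρ ∧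
      ∀ s t : ℝ, 0 ≤ s → 0 ≤ s * b1 - t * a1 → 0 ≤ s * b2 - t * a2 → 0 ≤ s * b3 - t * a3 →
        0 ≤ s * b4 - t * a4 → 0 ≤ s + t * ρ := by
  obtain ⟨ρ, g0, g1, g2⟩ := pick [(a1, b1), (a2, b2), (a3, b3), (a4, b4)] (by simp [h1, h2, h3, h4])
  simp only [List.mem_cons, List.not_mem_nil, or_false, forall_eq_or_imp, forall_eq] at g1 g2
  exact ⟨ρ, g0, g1.1, g1.2.1, g1.2.2.1, g1.2.2.2,
    fun s t k0 k1 k2 k3 k4 => g2 s t k0 ⟨k1, k2, k3, k4⟩⟩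

end DKWF.LX
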