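import Pool.Agent.Lib.MP_f05b2f_co.LX.CaseA

/-!
The case in which the level `p` of `v` is crossed inside an active run of `y`: reduction by the
symmetry and the cases `p = 0` and `r = 0`.
-/

namespace DKWF.LX

open Finset

/-- the level `p` of `v` is crossed at `t`, inside the active run `[s, e)` of `y` -/
structure Run (k p r s t e : ℕ) (y v : ℕ → ℕ) : Prop extends Gen k p r t y v where
  hst : s < t
  hte : t < e
  hek : e ≤ k
  Y0 : 0 < y t
  Y1 : y t < p + r + 1
  run : ∀ z, s ≤ z → z < e → y z = y t
  hs : 0 < s → y (s - 1) < y t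
  he : e < k → y t < y e

variable {k p r s t e : ℕ} {y v : ℕ → ℕ}

theorem Two.symm (h : Two k p r y v) :
    Two k r p (fun z => p + r + 1 - y (k - 1 - z)) (fun z => p + r + 1 - v (k - 1 - z)) ∨
      ¬ ((∀ z, z < k → y z ≤ p + r + 1) ∧ ∀ z, z < k → v z ≤ p + r + 1) := by
  by_cases hq : (∀ z, z < k → y z ≤ p + r + 1) ∧ ∀ z, z < k → v z ≤ p + r + 1
  · left
    obtain ⟨hy, hv⟩ := hq
    constructor
    · refine h.hII.trans (le_of_eq ?_)
      rw [← Finset.sum_range_reflect]
      apply Finset.sum_congr rfl
      intro z hz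
      have hz := mem_range.1 hz
      have e1 : ((p + r + 1 - y (k - 1 - z) : ℕ) : ℝ) = (p : ℝ) + r + 1 - y (k - 1 - z) := by
        rw [Nat.cast_sub (hy _ (by omega))]; push_cast; ring
      have e2 : ((p + r + 1 - v (k - 1 - z) : ℕ) : ℝ) = (p : ℝ) + r + 1 - v (k - 1 - z) := by
        rw [Nat.cast_sub (hv _ (by omega))]; push_cast; ring
      simp only [e1, e2]
      have e3 : ((p : ℝ) + r + 1 - v (k - 1 - z)) - ((p : ℝ) + r + 1 - y (k - 1 - z)) =
        (y (k - 1 - z) : ℝ) - v (k - 1 - z) := by ring
      rw [e3]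
      ring
    · refine h.hI.trans (le_of_eq ?_)
      rw [← Finset.sum_range_reflect]
      apply Finset.sum_congr rfl
      intro z hz
      have hz := mem_range.1 hz
      have e1 : ((p + r + 1 - y (k - 1 - z) : ℕ) : ℝ) = (p : ℝ) + r + 1 - y (k - 1 - z) := by
        rw [Nat.cast_sub (hy _ (by omega))]; push_cast; ring
      have e2 : ((p + r + 1 - v (k - 1 - z) : ℕ) : ℝ) = (p : ℝ) + r + 1 - v (k - 1 - z) := by
        rw [Nat.cast_sub (hv _ (by omega))]; push_cast; ring
      simp only [e1, e2]
      have e3 : ((p : ℝ) + r + 1 - y (k - 1 - z)) - ((p : ℝ) + r + 1 - v (k - 1 - z)) =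
        (v (k - 1 - z) : ℝ) - y (k - 1 - z) := by ring
      rw [e3]
      ring
  · exact Or.inr hq

theorem Gen.symm (h : Gen k p r t y v) :
    Gen k r p (k - t) (fun z => p + r + 1 - y (k - 1 - z)) (fun z => p + r + 1 - v (k - 1 - z)) := by
  have ht0 := h.ht0
  have htk := h.htk
  have hk := h.hk
  refine ⟨?_, by omega, by omega, by omega, ?_, ?_, ?_, ?_, ?_, ?_, ?_, ?_⟩
  · rcases h.toTwo.symm with h1 | h1
    · exact h1
    · exact absurd ⟨h.yq, h.vq⟩ h1
  · intro a b hab hb
    have := h.ym (k - 1 - b) (k - 1 - a) (by omega) (by omega)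
    omega
  · intro a b hab hb
    have := h.vm (k - 1 - b) (k - 1 - a) (by omega) (by omega)
    omega
  · intro z _
    omega
  · intro z _
    omega
  · intro z hz
    have := h.high (k - 1 - z) (by omega) (by omega)
    omega
  · intro z hz hzk
    have := h.low (k - 1 - z) (by omega)
    omega
  · intro z hz h1 h2 h3
    have h4 := h.h2 (k - 1 - z) (by omega) (by omega) (by omega) (by
      intro h5
      have h6 := h3 (by omega)
      have e1 : k - 1 - (z - 1) = k - 1 - z + 1 := by omega
      rw [e1] at h6
      have := h.yq (k - 1 - z + 1) h5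
      omega)
    have := h.vq (k - 1 - z) (by omega)
    omega
  · intro z hz h1 h2 h3
    have h4 := h.h1 (k - 1 - z) (by omega) (by omega) (by omega) (by
      intro h5
      have h6 := h3 (by omega)
      have e1 : k - 1 - (z + 1) = k - 1 - z - 1 := by omega
      rw [e1] at h6
      have := h.yq (k - 1 - z) (by omega)
      omega)
    have := h.yq (k - 1 - z) (by omega)
    omega

theorem Run.symm (h : Run k p r s t e y v) :
    Run k r p (k - e) (k - t) (k - s) (fun z => p + r + 1 - y (k - 1 - z))
      (fun z => p + r + 1 - v (k - 1 - z)) := by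
  have hst := h.hst
  have hte := h.hte
  have hek := h.hek
  have Y0 := h.Y0
  have Y1 := h.Y1
  have e0 : k - 1 - (k - t) = t - 1 := by omega
  have e1 : y (t - 1) = y t := h.run (t - 1) (by omega) (by omega)
  refine ⟨h.toGen.symm, by omega, by omega, by omega, ?_, ?_, ?_, ?_, ?_⟩
  · simp only [e0, e1]; omega
  · simp only [e0, e1]; omega
  · intro z hz1 hz2
    have := h.run (k - 1 - z) (by omega) (by omega)
    simp only [e0, e1]; omega
  · intro h1
    have e2 : k - 1 - (k - e - 1) = e := by omega
    have := h.he (by omega)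
    simp only [e0, e1, e2]; omega
  · intro h1
    have e2 : k - 1 - (k - s) = s - 1 := by omega
    have := h.hs (by omega)
    simp only [e0, e1, e2]; omega

theorem Run.dat (h : Run k p r s t e y v) (hbs : e ≤ s + t) (hp : 1 ≤ p) (hr : 1 ≤ r) :
    Dat k s t e p r (y t) (v s) (v (e - 1)) (y (s - 1)) (if e < k then y e else p + r + 1) y v := by
  have hst := h.hst
  have hte := h.hte
  have hek := h.hek
  have Y0 := h.Y0
  have Y1 := h.Y1
  have es : y s = y t := h.run s (le_refl _) (by omega)
  have ee : y (e - 1) = y t := h.run (e - 1) (by omega) (by omega)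
  have hsY : v s < y s := h.h1 s (by omega) (by omega) (by omega) (fun h1 => by
    rw [es]; exact h.hs h1)
  have heY : y (e - 1) < v (e - 1) := h.h2 (e - 1) (by omega) (by omega) (by omega) (fun h1 => by
    rw [Nat.sub_add_cancel (by omega), ee]
    exact h.he (by omega))
  have hmm : 0 < y (s - 1) → y (s - 1) < v (s - 1) := by
    intro h1
    have h2 := h.hs (by omega)
    exact h.h2 (s - 1) (by omega) h1 (by omega) (fun _ => by
      rw [Nat.sub_add_cancel (by omega), es]; exact h2)
  have hye : e < k → v e ≤ y e ∧ (y e < p + r + 1 → v e < y e) := by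
    intro h1
    have h2 := h.yq e h1
    have h3 := h.vq e h1
    have h4 := h.he h1
    have h5 : y e < p + r + 1 → v e < y e := fun h6 =>
      h.h1 e h1 (by omega) h6 (fun _ => by rw [ee]; exact h4)
    refine ⟨?_, h5⟩
    rcases Nat.lt_or_ge (y e) (p + r + 1) with h6 | h6
    · exact (h5 h6).le
    · omega
  exact {
    toTwo := h.toTwo
    hst := hst
    hte := hte
    hek := hek
    hbs := hbs
    hp := hp
    hr := hr
    hk := h.hk
    hup := h.low s hst
    hpw := h.high (e - 1) (by omega) (by omega)
    hwq := h.vq (e - 1) (by omega)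
    huY := by omega
    hYw := by omega
    low := fun z h1 h2 => ⟨h.run z h1 (by omega), h.vm s z h1 (by omega), h.low z h2⟩
    high := fun z h1 h2 => ⟨h.run z (by omega) h2, h.high z h1 (by omega),
      h.vm z (e - 1) (by omega) (by omega)⟩
    bef := fun z h1 => ⟨h.ym z (s - 1) (by omega) (by omega), h.vm z s (by omega) (by omega)⟩
    aft := fun z h1 h2 => by
      rw [if_pos (by omega)]
      exact ⟨h.ym e z h1 h2, h.yq z h2, h.vm (e - 1) z (by omega) h2, h.vq z h2⟩
    hm := by
      rcases Nat.eq_zero_or_pos (y (s - 1)) with h1 | h1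
      · left; exact h1
      · right
        have h2 := hmm h1
        have h3 := h.vm (s - 1) s (by omega) (by omega)
        omega
    hys := rfl
    hmv := hmm
    hvs := rfl
    hve := rfl
    hy1 := by
      split_ifs with h1
      · have h2 := h.yq e h1
        rcases Nat.lt_or_ge (y e) (p + r + 1) with h3 | h3
        · right
          have h4 := (hye h1).2 h3
          have h5 := h.vm (e - 1) e (by omega) h1
          omega
        · left; omega
      · left; rfl
    hye := fun h1 => by
      rw [if_pos h1]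
      exact ⟨rfl, (hye h1).1⟩
    hke := fun h1 => by rw [if_neg (by omega)] }

/-- `p = 0` -/
theorem Run.zero (h : Run k 0 r s t e y v) (hr : 1 ≤ r)
    (E1 : s + (k - e) < e → 0 < v (s + (k - e))) : False := by
  have hst := h.hst
  have hte := h.hte
  have hek := h.hek
  have Y0 := h.Y0
  have Y1 := h.Y1
  have es : y s = y t := h.run s (le_refl _) (by omega)
  have ee : y (e - 1) = y t := h.run (e - 1) (by omega) (by omega)
  have hv0 : ∀ z, z < t → v z = 0 := fun z hz => Nat.le_zero.1 (h.low z hz)
  have ha : t ≤ s + (k - e) := by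
    by_contra hc
    have h1 := E1 (by omega)
    rw [hv0 _ (by omega)] at h1
    exact lt_irrefl _ h1
  have hy0 : ∀ z, z < s → y z = 0 := by
    intro z hz
    by_contra h1
    have h2 := h.ym z (s - 1) (by omega) (by omega)
    have h3 := h.hs (by omega)
    have h4 := h.h2 (s - 1) (by omega) (by omega) (by omega) (fun _ => by
      rw [Nat.sub_add_cancel (by omega), es]; exact h3)
    rw [hv0 (s - 1) (by omega)] at h4
    omega
  have heY : y (e - 1) < v (e - 1) := h.h2 (e - 1) (by omega) (by omega) (by omega) (fun h1 => by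
    rw [Nat.sub_add_cancel (by omega), ee]
    exact h.he (by omega))
  have r1 : (1 : ℝ) ≤ r := by exact_mod_cast hr
  have Y0' : (1 : ℝ) ≤ y t := by exact_mod_cast Y0
  have Y1' : (y t : ℝ) ≤ r := by exact_mod_cast (show y t ≤ r by omega)
  set F : ℕ → ℝ := fun z =>
    -((((0 : ℕ) : ℝ) + r + 1) * max ((y z : ℝ) - v z) 0 - r * y z) with hF
  have hII := h.hII
  have e1 : ∑ z ∈ range k, F z = ∑ z ∈ Ico 0 s, F z + ∑ z ∈ Ico s t, F z + ∑ z ∈ Ico t e, F z +
      ∑ z ∈ Ico e k, F z := by
    rw [Finset.sum_Ico_consecutive _ (by omega) (by omega),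
      Finset.sum_Ico_consecutive _ (by omega) (by omega),
      Finset.sum_Ico_consecutive _ (by omega) (by omega), Finset.range_eq_Ico]
  have b1 := blk F (a := 0) (b := s) (by omega) 0 (fun z _ hz => by
    simp only [hF]
    rw [hy0 z hz, hv0 z (by omega)]
    simp)
  have b2 := blk F (a := s) (b := t) (by omega) (-(y t)) (fun z hz hz' => by
    simp only [hF]
    rw [h.run z hz (by omega), hv0 z (by omega), max_eq_left (by simp)]
    push_cast
    linarith)
  have b3 := blk F (a := t) (b := e) (by omega) 0 (fun z hz hz' => by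
    simp only [hF]
    rw [h.run z (by omega) hz']
    have h1 : (1 : ℝ) ≤ v z := by exact_mod_cast h.high z hz (by omega)
    rcases le_total ((y t : ℝ)) (v z) with h2 | h2
    · rw [max_eq_right (by linarith)]
      have : (0 : ℝ) ≤ r * y t := by positivity
      linarith
    · rw [max_eq_left (by linarith)]
      push_cast
      have := mul_le_mul_of_nonneg_left h1 (show (0 : ℝ) ≤ r + 1 by linarith)
      linarith)
  have b4 := blk F (a := e) (b := k) hek (y t) (fun z hz hz' => by
    simp only [hF]
    have h0 := h.ym e z hz hz'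
    have h1 := h.he (by omega)
    have h2 := h.vm (e - 1) z (by omega) hz'
    have h3 := h.yq z hz'
    have t1 : (y t : ℝ) + 1 ≤ y z := natCast_lt (by omega)
    have t2 : (y t : ℝ) + 1 ≤ v z := natCast_lt (by omega)
    have t3 : (y z : ℝ) ≤ r + 1 := by exact_mod_cast (show y z ≤ r + 1 by omega)
    rcases le_total ((y z : ℝ)) (v z) with h2 | h2
    · rw [max_eq_right (by linarith)]
      have h5 := mul_le_mul_of_nonneg_left t1 (show (0 : ℝ) ≤ r by linarith)
      have h6 := mul_le_mul_of_nonneg_right r1 (show (0 : ℝ) ≤ y t by linarith)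
      linarith
    · rw [max_eq_left (by linarith)]
      push_cast
      have := mul_le_mul_of_nonneg_left t2 (show (0 : ℝ) ≤ r + 1 by linarith)
      have h6 := mul_le_mul_of_nonneg_right r1 (show (0 : ℝ) ≤ y t by linarith)
      linarith)
  have e2 : ∑ z ∈ range k, F z = -∑ z ∈ range k,
      ((((0 : ℕ) : ℝ) + r + 1) * max ((y z : ℝ) - v z) 0 - r * y z) := by
    rw [hF, Finset.sum_neg_distrib]
  have h7 : (t : ℝ) ≤ s + (k - e) := by
    have : (t : ℝ) ≤ ((s + (k - e) : ℕ) : ℝ) := by exact_mod_cast ha
    rw [Nat.cast_add, Nat.cast_sub hek] at this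
    exact this
  have h8 := mul_nonneg (show (0 : ℝ) ≤ s + (k - e) - t by linarith)
    (show (0 : ℝ) ≤ y t by linarith)
  push_cast at hII e2 b1
  linarith

theorem Run.false1 (h : Run k p r s t e y v) (hp : 1 ≤ p) (hr : 1 ≤ r) (hbs : e ≤ s + t)
    (E1 : s + (k - e) < e → 0 < v (s + (k - e))) : False := by
  have hst := h.hst
  have hte := h.hte
  have hek := h.hek
  have hd := h.dat hbs hp hr
  rcases Nat.lt_or_ge (v s) p with h1 | h1
  · rcases Nat.lt_or_ge (p + 1) (v (e - 1)) with h2 | h2
    · rcases Nat.eq_zero_or_pos (v s) with h3 | h3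
      · refine hd.case2 h3 h2 ?_
        intro z hz1 hz2
        have h4 := E1 (by omega)
        exact lt_of_lt_of_le h4 (h.vm _ z hz1 (by omega))
      · exact hd.case1 h3 h1 h2
    · have h3 := hd.hpw
      exact hd.case4 (by omega)
  · exact hd.case3 (le_antisymm hd.hup h1)

theorem Run.false (h : Run k p r s t e y v) (hpr : 1 ≤ p + r)
    (E1 : s + (k - e) < e → 0 < v (s + (k - e)))
    (E2 : 2 * s < e → v (e - 1 - s) < p + r + 1)
    (PS : e ≤ s + t ∨ e + t ≤ k + s) : False := by
  have hst := h.hst
  have hte := h.hte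
  have hek := h.hek
  have E1' : k - e + (k - (k - s)) < k - s →
      0 < (fun z => p + r + 1 - v (k - 1 - z)) (k - e + (k - (k - s))) := by
    intro h1
    have h2 := E2 (by omega)
    have e1 : k - 1 - (k - e + (k - (k - s))) = e - 1 - s := by omega
    simp only [e1]
    omega
  rcases Nat.eq_zero_or_pos p with hp | hp
  · subst hp
    exact h.zero (by omega) E1
  · rcases Nat.eq_zero_or_pos r with hr | hr
    · subst hr
      exact h.symm.zero hp E1'
    · rcases PS with h1 | h1
      · exact h.false1 hp hr h1 E1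
      · exact h.symm.false1 hr hp (by omega) E1'

end DKWF.LX
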