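import Mathlib

/-!
The weighted surplus of a slice and the sum over all slices.
-/

namespace DKWF.LX

open Finset

/-- the surplus of a slice with `l - f = y`, `l - g = v` and `l = p + r + 1` -/
noncomputable def Sz (p r A B y v : ℝ) : ℝ :=
  -A * ((p + r + 1) * max (v - y) 0 - p * (p + r + 1 - y)) -
    B * ((p + r + 1) * max (y - v) 0 - r * y)

theorem Sz_le {p r A B y v : ℝ} (h : y ≤ v) :
    Sz p r A B y v = A * ((p + r + 1) * (p - v) + (r + 1) * y) + B * (r * y) := by
  unfold Sz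
  rw [max_eq_left (by linarith), max_eq_right (by linarith)]
  ring

theorem Sz_ge {p r A B y v : ℝ} (h : v ≤ y) :
    Sz p r A B y v = A * (p * (p + r + 1 - y)) - B * ((p + 1) * y - (p + r + 1) * v) := by
  unfold Sz
  rw [max_eq_right (by linarith), max_eq_left (by linarith)]
  ring

theorem blk (F : ℕ → ℝ) {a b : ℕ} (hab : a ≤ b) (c : ℝ) (h : ∀ z, a ≤ z → z < b → c ≤ F z) :
    ((b : ℝ) - a) * c ≤ ∑ z ∈ Ico a b, F z := by
  have h1 := Finset.card_nsmul_le_sum (Ico a b) F c (fun z hz => by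
    rw [mem_Ico] at hz
    exact h z hz.1 hz.2)
  rw [Nat.card_Ico, nsmul_eq_mul, Nat.cast_sub hab] at h1
  exact h1

theorem blkFirst (F : ℕ → ℝ) {a b : ℕ} (hab : a < b) (c : ℝ) (h : ∀ z, a ≤ z → z < b → c ≤ F z) :
    ((b : ℝ) - a - 1) * c + F a ≤ ∑ z ∈ Ico a b, F z := by
  rw [Finset.sum_eq_sum_Ico_succ_bot hab]
  have h1 := blk F (a := a + 1) (b := b) hab c (fun z hz hz' => h z (by omega) hz')
  push_cast at h1
  linarith

theorem blkLast (F : ℕ → ℝ) {a b : ℕ} (hab : a < b) (c : ℝ) (h : ∀ z, a ≤ z → z < b → c ≤ F z) :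
    ((b : ℝ) - a - 1) * c + F (b - 1) ≤ ∑ z ∈ Ico a b, F z := by
  obtain ⟨b, rfl⟩ : ∃ b', b = b' + 1 := ⟨b - 1, by omega⟩
  rw [Finset.sum_Ico_succ_top (by omega)]
  have h1 := blk F (a := a) (b := b) (by omega) c (fun z hz hz' => h z hz (by omega))
  push_cast
  linarith

/-- the sum over all slices -/
theorem total {k s t e : ℕ} (S : ℕ → ℝ) (μ μ' : ℝ) (hμ : 0 ≤ μ) (hμ' : 0 ≤ μ') (hst : s < t)
    (hte : t < e) (hek : e ≤ k) (hbs : e ≤ s + t)
    (h1 : ∀ z, z < s → μ ≤ S z) (h2 : ∀ z, s ≤ z → z < t → -μ' ≤ S z)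
    (h2' : ∀ z, s + (k - e) ≤ z → z < t → 0 ≤ S z)
    (h3 : ∀ z, t ≤ z → z < e → -μ ≤ S z) (h4 : ∀ z, e ≤ z → z < k → μ' ≤ S z) :
    S (s - 1) + S s + S (e - 1) + (if e < k then S e else 0) ≤ ∑ z ∈ range k, S z := by
  have hs : 0 < s := by omega
  have e1 : ∑ z ∈ range k, S z = ∑ z ∈ Ico 0 s, S z + ∑ z ∈ Ico s t, S z + ∑ z ∈ Ico t e, S z +
      ∑ z ∈ Ico e k, S z := by
    rw [Finset.sum_Ico_consecutive _ (by omega) (by omega),
      Finset.sum_Ico_consecutive _ (by omega) (by omega),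
      Finset.sum_Ico_consecutive _ (by omega) (by omega), Finset.range_eq_Ico]
  have b1 := blkLast S (a := 0) (b := s) hs μ (fun z _ hz => h1 z hz)
  have b3 := blkLast S (a := t) (b := e) hte (-μ) h3
  push_cast at b1
  have b13 : 0 ≤ ((s : ℝ) + t - e) * μ := by
    apply mul_nonneg _ hμ
    have : (e : ℝ) ≤ s + t := by exact_mod_cast hbs
    linarith
  rcases Nat.lt_or_ge e k with hek' | hek'
  · have b4 := blkFirst S (a := e) (b := k) hek' μ' h4
    have b2 : -((k : ℝ) - e - 1) * μ' + S s ≤ ∑ z ∈ Ico s t, S z := by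
      rcases le_total t (s + (k - e)) with h | h
      · have b := blkFirst S (a := s) (b := t) hst (-μ') h2
        have h5 : (t : ℝ) ≤ s + (k - e) := by
          have : (t : ℝ) ≤ ((s + (k - e) : ℕ) : ℝ) := by exact_mod_cast h
          rw [Nat.cast_add, Nat.cast_sub hek] at this
          exact this
        have h6 : 0 ≤ ((s : ℝ) + (k - e) - t) * μ' := mul_nonneg (by linarith) hμ'
        linarith
      · have b := blkFirst S (a := s) (b := s + (k - e)) (by omega) (-μ')
          (fun z hz hz' => h2 z hz (by omega))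
        have b' := blk S (a := s + (k - e)) (b := t) h 0 h2'
        rw [← Finset.sum_Ico_consecutive S (show s ≤ s + (k - e) by omega) h]
        rw [Nat.cast_add, Nat.cast_sub hek] at b
        rw [mul_zero] at b'
        linarith
    rw [if_pos hek', e1]
    linarith
  · have hke : k = e := le_antisymm hek' hek
    have b2 : S s ≤ ∑ z ∈ Ico s t, S z := by
      have b := blkFirst S (a := s) (b := t) hst 0 (fun z hz hz' => h2' z (by omega) hz')
      linarith
    rw [if_neg (by omega), e1, hke]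
    simp only [Ico_self, sum_empty]
    linarith

end DKWF.LX
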